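import Mathlib

/-!
# Taylor approximation of `(1+u)^e`, uniformly in the exponent
-/

set_option autoImplicit false

namespace Pool.Agent.X142.DN

open Finset

/-- Taylor approximation of `(1+u)^e` on `[0,1]`, uniformly in `|e| ≤ E` -/
theorem taylor_unif (T : ℕ) : ∀ E : ℝ, 0 ≤ E → ∃ C : ℝ, 0 ≤ C ∧ ∀ e : ℝ, |e| ≤ E →
    ∃ a : ℕ → ℝ, (∀ m < T, |a m| ≤ C) ∧ ∀ u : ℝ, 0 ≤ u → u ≤ 1 →
      |(1 + u) ^ e - ∑ m ∈ range T, a m * u ^ m| ≤ C * u ^ T := by
  induction T with
  | zero =>
    intro E hE
    refine ⟨2 ^ E, by positivity, fun e he => ⟨fun _ => 0, fun m hm => absurd hm (by omega), ?_⟩⟩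
    intro u hu0 hu1
    have h1 : (0 : ℝ) < 1 + u := by linarith
    rw [Finset.range_zero, Finset.sum_empty, sub_zero, pow_zero, mul_one,
      abs_of_pos (Real.rpow_pos_of_pos h1 _)]
    calc (1 + u) ^ e ≤ (1 + u) ^ E :=
          Real.rpow_le_rpow_of_exponent_le (by linarith) ((le_abs_self e).trans he)
      _ ≤ 2 ^ E := Real.rpow_le_rpow h1.le (by linarith) hE
  | succ T ih =>
    intro E hE
    obtain ⟨C, hC, h⟩ := ih (E + 1) (by linarith)
    refine ⟨E * C + 1, by positivity, fun e he => ?_⟩
    obtain ⟨a, ha, hT⟩ := h (e - 1) (by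
      refine (abs_sub _ _).trans ?_
      rw [abs_one]
      linarith)
    set b : ℕ → ℝ := fun m => if m = 0 then 1 else e * a (m - 1) / m with hb
    have hb0 : b 0 = 1 := by simp [hb]
    have hbs : ∀ m, b (m + 1) = e * a m / ((m : ℝ) + 1) := by
      intro m
      simp [hb]
    refine ⟨b, ?_, ?_⟩
    · intro m hm
      rcases m with _ | m
      · rw [hb0, abs_one]
        have := mul_nonneg hE hC
        linarith
      · rw [hbs, abs_div, abs_mul, abs_of_pos (by positivity : (0 : ℝ) < (m : ℝ) + 1)]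
        have h1 : |e| * |a m| ≤ E * C := mul_le_mul he (ha m (by omega)) (abs_nonneg _) hE
        have h2 : (1 : ℝ) ≤ (m : ℝ) + 1 := by
          have : (0 : ℝ) ≤ (m : ℝ) := Nat.cast_nonneg m
          linarith
        have h3 : |e| * |a m| / ((m : ℝ) + 1) ≤ |e| * |a m| := div_le_self (by positivity) h2
        linarith
    · intro u hu0 hu1
      set f : ℝ → ℝ := fun x => (1 + x) ^ e - ∑ m ∈ range (T + 1), b m * x ^ m with hf
      set f' : ℝ → ℝ := fun x => e * ((1 + x) ^ (e - 1) - ∑ m ∈ range T, a m * x ^ m) with hf'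
      have hder : ∀ x : ℝ, 0 ≤ x → HasDerivAt f (f' x) x := by
        intro x hx
        have hx1 : (1 + x : ℝ) ≠ 0 := by linarith
        have h1 : HasDerivAt (fun x : ℝ => (1 + x) ^ e) (e * (1 + x) ^ (e - 1)) x := by
          have h2 : HasDerivAt (fun x : ℝ => 1 + x) 1 x := (hasDerivAt_id x).const_add 1
          have h3 := h2.rpow_const (p := e) (Or.inl hx1)
          rwa [one_mul] at h3
        have h3 : HasDerivAt (fun x : ℝ => ∑ m ∈ range (T + 1), b m * x ^ m)
            (∑ m ∈ range (T + 1), b m * (m * x ^ (m - 1))) x := by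
          refine HasDerivAt.fun_sum fun m _ => ?_
          exact (hasDerivAt_pow m x).const_mul _
        have h4 : ∑ m ∈ range (T + 1), b m * (m * x ^ (m - 1)) =
            e * ∑ m ∈ range T, a m * x ^ m := by
          rw [Finset.sum_range_succ']
          simp only [Nat.cast_zero, zero_mul, mul_zero, add_zero, Nat.add_sub_cancel]
          rw [Finset.mul_sum]
          refine Finset.sum_congr rfl fun m _ => ?_
          rw [hbs]
          have : (m : ℝ) + 1 ≠ 0 := by positivity
          push_cast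
          field_simp
        rw [h4] at h3
        have h5 := h1.sub h3
        have h6 : f' x = e * (1 + x) ^ (e - 1) - e * ∑ m ∈ range T, a m * x ^ m := by
          rw [hf']
          ring
        rw [h6]
        exact h5
      have hf0 : f 0 = 0 := by
        rw [hf]
        simp only [add_zero, Real.one_rpow]
        rw [Finset.sum_range_succ']
        simp [hb0]
      rcases eq_or_lt_of_le hu0 with rfl | hupos
      · rw [show (1 + (0 : ℝ)) ^ e - ∑ m ∈ range (T + 1), b m * (0 : ℝ) ^ m = f 0 from rfl, hf0,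
          abs_zero]
        positivity
      obtain ⟨y, hy, hy'⟩ := exists_hasDerivAt_eq_slope f f' hupos
        (fun t ht => (hder t ht.1).continuousAt.continuousWithinAt)
        (fun t ht => hder t ht.1.le)
      rw [hf0, sub_zero, sub_zero] at hy'
      have h1 : f u = f' y * u := by rw [hy']; field_simp
      change |f u| ≤ _
      rw [h1, abs_mul, abs_of_pos hupos, hf']
      simp only
      rw [abs_mul]
      have h2 := hT y hy.1.le (hy.2.le.trans hu1)
      have h3 : C * y ^ T ≤ C * u ^ T :=
        mul_le_mul_of_nonneg_left (pow_le_pow_left₀ hy.1.le hy.2.le T) hC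
      have h4 : |e| * |(1 + y) ^ (e - 1) - ∑ m ∈ range T, a m * y ^ m| ≤ E * (C * u ^ T) :=
        mul_le_mul he (h2.trans h3) (abs_nonneg _) hE
      have h5 : 0 ≤ u ^ (T + 1) := by positivity
      calc |e| * |(1 + y) ^ (e - 1) - ∑ m ∈ range T, a m * y ^ m| * u ≤
            (E * (C * u ^ T)) * u := mul_le_mul_of_nonneg_right h4 hu0
        _ = E * C * u ^ (T + 1) := by ring
        _ ≤ (E * C + 1) * u ^ (T + 1) := by nlinarith

end Pool.Agent.X142.DN
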