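import Mathlib

/-!
# Near zeros of generalised polynomials, uniformly in the exponents

A sum `∑ c_a x^{e_a}` with `K` terms whose exponents are separated by `1/Δ` that is small at `2^K`
points of `[1,X]` with distances at least one has small coefficients.
-/

set_option autoImplicit false

namespace Pool.Agent.X142.DN

open Finset

lemma rpow_le_abs {x X p : ℝ} (hx : 1 ≤ x) (hX : x ≤ X) : x ^ p ≤ X ^ |p| := by
  calc x ^ p ≤ x ^ |p| := Real.rpow_le_rpow_of_exponent_le hx (le_abs_self p)
    _ ≤ X ^ |p| := Real.rpow_le_rpow (by linarith) hX (abs_nonneg p)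

theorem near_zeros (K : ℕ) : ∀ E : ℝ, 0 ≤ E →
    ∃ C B : ℝ, 0 ≤ C ∧ 0 ≤ B ∧ ∀ X Δ : ℝ, 1 ≤ X → 1 ≤ Δ → ∀ e : Fin K → ℝ, (∀ a, |e a| ≤ E) →
      (∀ a b, a ≠ b → 1 / Δ ≤ |e a - e b|) → ∀ (c : Fin K → ℝ) (η : ℝ) (x : ℕ → ℝ),
      (∀ i < 2 ^ K, 1 ≤ x i ∧ x i ≤ X) → (∀ i, i + 1 < 2 ^ K → x i + 1 ≤ x (i + 1)) →
      (∀ i < 2 ^ K, |∑ a, c a * (x i) ^ (e a)| ≤ η) → ∀ a, |c a| ≤ C * (X * Δ) ^ B * η := by
  induction K with
  | zero => exact fun E _ => ⟨0, 0, le_rfl, le_rfl, fun X Δ _ _ e _ _ c η x _ _ _ a => a.elim0⟩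
  | succ K ih =>
    intro E hE
    obtain ⟨C', B', hC', hB', hmain⟩ := ih (2 * E + 1) (by linarith)
    refine ⟨1 + 2 * (K + 1) * C', B' + 3 * E + 1, by positivity, by positivity, ?_⟩
    intro X Δ hX hΔ e he hsep c η x hx hsp hF
    set e0 : ℝ := e (Fin.last K) with he0
    have hX0 : 0 < X := by linarith
    have hΔ0 : 0 < Δ := by linarith
    have hXΔ : 1 ≤ X * Δ := by nlinarith
    have hXΔ0 : 0 < X * Δ := by linarith
    have hXle : X ≤ X * Δ := by nlinarith
    have hΔle : Δ ≤ X * Δ := by nlinarith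
    have hgap : ∀ a : Fin K, 1 / Δ ≤ |e a.castSucc - e0| := fun a =>
      hsep _ _ (Fin.castSucc_lt_last a).ne
    have hexp : ∀ a : Fin K, |e a.castSucc - e0| ≤ 2 * E := by
      intro a
      refine (abs_sub _ _).trans ?_
      have h1 := he a.castSucc
      have h2 := he (Fin.last K)
      linarith
    have h2K : 0 < 2 ^ (K + 1) := by positivity
    have hη : 0 ≤ η := (abs_nonneg _).trans (hF 0 h2K)
    set G : ℝ → ℝ := fun t => c (Fin.last K) + ∑ a : Fin K, c a.castSucc * t ^ (e a.castSucc - e0)
      with hG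
    set G' : ℝ → ℝ := fun t => ∑ a : Fin K, (c a.castSucc * (e a.castSucc - e0)) *
      t ^ (e a.castSucc - e0 - 1) with hG'
    have hGF : ∀ t : ℝ, 0 < t → G t = t ^ (-e0) * ∑ a, c a * t ^ (e a) := by
      intro t ht
      have h1 : ∀ a : Fin K, t ^ (-e0) * (c a.castSucc * t ^ (e a.castSucc)) =
          c a.castSucc * t ^ (e a.castSucc - e0) := by
        intro a
        rw [sub_eq_add_neg, Real.rpow_add ht]
        ring
      have h2 : t ^ (-e0) * (c (Fin.last K) * t ^ (e (Fin.last K))) = c (Fin.last K) := by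
        rw [← he0, mul_left_comm, ← Real.rpow_add ht, neg_add_cancel, Real.rpow_zero, mul_one]
      rw [Fin.sum_univ_castSucc, mul_add, Finset.mul_sum, h2,
        Finset.sum_congr rfl (fun a _ => h1 a), add_comm]
    have hGx : ∀ i < 2 ^ (K + 1), |G (x i)| ≤ X ^ E * η := by
      intro i hi
      have h1 := hx i hi
      rw [hGF _ (by linarith), abs_mul, abs_of_pos (Real.rpow_pos_of_pos (by linarith) _)]
      refine mul_le_mul ?_ (hF i hi) (abs_nonneg _) (by positivity)
      have := rpow_le_abs (p := -e0) h1.1 h1.2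
      rw [abs_neg] at this
      exact this.trans (Real.rpow_le_rpow_of_exponent_le hX (he _))
    have hder : ∀ t : ℝ, 0 < t → HasDerivAt G (G' t) t := by
      intro t ht
      have h1 : HasDerivAt (fun t : ℝ => ∑ a : Fin K, c a.castSucc * t ^ (e a.castSucc - e0))
          (∑ a : Fin K, c a.castSucc * ((e a.castSucc - e0) * t ^ (e a.castSucc - e0 - 1))) t := by
        refine HasDerivAt.fun_sum fun a _ => ?_
        exact (Real.hasDerivAt_rpow_const (Or.inl ht.ne')).const_mul _
      have h2 := h1.const_add (c (Fin.last K))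
      have h3 : G' t = ∑ a : Fin K, c a.castSucc *
          ((e a.castSucc - e0) * t ^ (e a.castSucc - e0 - 1)) :=
        Finset.sum_congr rfl fun a _ => by ring
      rw [h3]
      exact h2
    -- intermediate points
    have hy : ∀ i : ℕ, ∃ y : ℝ, i < 2 ^ K → x (2 * i) < y ∧ y < x (2 * i + 1) ∧
        |G' y| ≤ 2 * (X ^ E * η) := by
      intro i
      by_cases hi : i < 2 ^ K
      · have h1 : 2 * i + 1 < 2 ^ (K + 1) := by rw [pow_succ]; omega
        have h2 := hsp (2 * i) h1
        have h3 := hx (2 * i) (by omega)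
        obtain ⟨y, hy, hy'⟩ := exists_hasDerivAt_eq_slope G G' (a := x (2 * i)) (b := x (2 * i + 1))
          (by linarith) (fun t ht => (hder t (by have := ht.1; linarith)).continuousAt.continuousWithinAt)
          (fun t ht => hder t (by have := ht.1; linarith))
        refine ⟨y, fun _ => ⟨hy.1, hy.2, ?_⟩⟩
        rw [hy', abs_div, abs_of_pos (by linarith : 0 < x (2 * i + 1) - x (2 * i))]
        rw [div_le_iff₀ (by linarith)]
        have h4 := hGx (2 * i) (by omega)
        have h5 := hGx (2 * i + 1) h1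
        have h6 := abs_sub (G (x (2 * i + 1))) (G (x (2 * i)))
        have h7 : 0 ≤ X ^ E * η := by positivity
        nlinarith
      · exact ⟨0, fun h => absurd h hi⟩
    choose y hy using hy
    have hb := hmain X Δ hX hΔ (fun a => e a.castSucc - e0 - 1)
      (by
        intro a
        refine (abs_sub _ _).trans ?_
        rw [abs_one]
        have := hexp a
        linarith)
      (by
        intro a b hab
        have h1 : e a.castSucc - e0 - 1 - (e b.castSucc - e0 - 1) = e a.castSucc - e b.castSucc := by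
          ring
        rw [h1]
        exact hsep _ _ fun h => hab (Fin.castSucc_injective K h))
      (fun a => c a.castSucc * (e a.castSucc - e0)) (2 * (X ^ E * η)) y
      (by
        intro i hi
        have h1 : 2 * i + 1 < 2 ^ (K + 1) := by rw [pow_succ]; omega
        have h2 := hy i hi
        have h3 := hx (2 * i) (by omega)
        have h4 := hx (2 * i + 1) h1
        constructor <;> linarith)
      (by
        intro i hi
        have h1 : 2 * (i + 1) + 1 < 2 ^ (K + 1) := by rw [pow_succ]; omega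
        have h2 := hy i (by omega)
        have h3 := hy (i + 1) hi
        have h4 := hsp (2 * i + 1) (by omega)
        rw [show 2 * (i + 1) = 2 * i + 1 + 1 by ring] at h3
        linarith)
      (fun i hi => (hy i hi).2.2)
    have hXE : X ^ E ≤ (X * Δ) ^ E := Real.rpow_le_rpow hX0.le hXle hE
    have hca : ∀ a : Fin K, |c a.castSucc| ≤ 2 * C' * ((X * Δ) ^ (B' + E + 1) * η) := by
      intro a
      have h1 := hb a
      rw [abs_mul] at h1
      have h2 : 0 < |e a.castSucc - e0| := lt_of_lt_of_le (by positivity) (hgap a)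
      have h3 : 1 / |e a.castSucc - e0| ≤ X * Δ := by
        have h4 := one_div_le_one_div_of_le (by positivity) (hgap a)
        rw [one_div_one_div] at h4
        exact h4.trans hΔle
      have hE2 : (X * Δ) ^ (B' + E + 1) = (X * Δ) ^ B' * (X * Δ) ^ E * (X * Δ) := by
        rw [Real.rpow_add hXΔ0, Real.rpow_add hXΔ0, Real.rpow_one]
      rw [hE2]
      calc |c a.castSucc| = (|c a.castSucc| * |e a.castSucc - e0|) * (1 / |e a.castSucc - e0|) := by
            field_simp
        _ ≤ (C' * (X * Δ) ^ B' * (2 * (X ^ E * η))) * (X * Δ) := by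
            refine mul_le_mul h1 h3 (by positivity) (by positivity)
        _ ≤ (C' * (X * Δ) ^ B' * (2 * ((X * Δ) ^ E * η))) * (X * Δ) := by gcongr
        _ = _ := by ring
    have hXB : 0 ≤ (X * Δ) ^ (B' + 3 * E + 1) * η := by positivity
    have hup : (X * Δ) ^ (B' + E + 1) * η ≤ (X * Δ) ^ (B' + 3 * E + 1) * η :=
      mul_le_mul_of_nonneg_right (Real.rpow_le_rpow_of_exponent_le hXΔ (by linarith)) hη
    intro a
    refine Fin.lastCases ?_ (fun a => ?_) a
    · have h1 : c (Fin.last K) = G (x 0) -
          ∑ a : Fin K, c a.castSucc * (x 0) ^ (e a.castSucc - e0) := by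
        rw [hG]; ring
      have h2 := hx 0 h2K
      rw [h1]
      refine (abs_sub _ _).trans ?_
      have h3 : |∑ a : Fin K, c a.castSucc * (x 0) ^ (e a.castSucc - e0)| ≤
          K * (2 * C' * ((X * Δ) ^ (B' + 3 * E + 1) * η)) := by
        refine (Finset.abs_sum_le_sum_abs _ _).trans ?_
        have h4 : ∀ a ∈ (Finset.univ : Finset (Fin K)),
            |c a.castSucc * (x 0) ^ (e a.castSucc - e0)| ≤
              2 * C' * ((X * Δ) ^ (B' + 3 * E + 1) * η) := by
          intro a _
          rw [abs_mul, abs_of_pos (Real.rpow_pos_of_pos (by linarith) _)]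
          have h5 : (x 0) ^ (e a.castSucc - e0) ≤ (X * Δ) ^ (2 * E) := by
            refine (rpow_le_abs h2.1 (h2.2.trans hXle)).trans
              (Real.rpow_le_rpow_of_exponent_le hXΔ (hexp a))
          calc |c a.castSucc| * (x 0) ^ (e a.castSucc - e0)
              ≤ (2 * C' * ((X * Δ) ^ (B' + E + 1) * η)) * (X * Δ) ^ (2 * E) := by
                refine mul_le_mul (hca a) h5 (Real.rpow_nonneg (by linarith) _) (by positivity)
            _ = _ := by
                rw [show B' + 3 * E + 1 = B' + E + 1 + 2 * E by ring, Real.rpow_add hXΔ0 (B' + E + 1)]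
                ring
        refine (Finset.sum_le_card_nsmul _ _ _ h4).trans ?_
        simp
      have h6 := hGx 0 h2K
      have h7 : X ^ E * η ≤ (X * Δ) ^ (B' + 3 * E + 1) * η := by
        refine mul_le_mul_of_nonneg_right (hXE.trans ?_) hη
        exact Real.rpow_le_rpow_of_exponent_le hXΔ (by linarith)
      nlinarith
    · have h1 := hca a
      have h2 : 0 ≤ (K : ℝ) := Nat.cast_nonneg K
      nlinarith [mul_le_mul_of_nonneg_left hup (by positivity : 0 ≤ 2 * C'),
        mul_nonneg (mul_nonneg h2 hC') hXB]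

end Pool.Agent.X142.DN
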