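import Mathlib
import Pool.Agent.X142.DM.Box
import Pool.Agent.X142.DM.Res
import Pool.Agent.X142.DN.Taylor
import Pool.Agent.X142.DN.Zeros

/-!
# The auxiliary polynomial on a short interval, uniformly in the exponent; rational points
-/

set_option autoImplicit false

namespace Pool.Agent.X142.DN

open Polynomial Finset

/-- the exponents `i + θ j` -/
noncomputable def ex (θ : ℝ) {D : ℕ} (a : Fin (D + 1) × Fin (D + 1)) : ℝ :=
  ((a.1 : ℕ) : ℝ) + θ * ((a.2 : ℕ) : ℝ)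

/-- the value of the generalised polynomial with coefficients `c` at `x` -/
noncomputable def Fv (θ lam : ℝ) {D : ℕ} (c : Fin (D + 1) × Fin (D + 1) → ℤ) (x : ℝ) : ℝ :=
  ∑ a, (c a : ℝ) * (lam ^ (a.2 : ℕ) * x ^ (ex θ a))

lemma abs_ex_le {θ : ℝ} {s D : ℕ} (hθ : |θ| ≤ s) (a : Fin (D + 1) × Fin (D + 1)) :
    |ex θ a| ≤ ((D + s * D : ℕ) : ℝ) := by
  have h1 : ((a.1 : ℕ) : ℝ) ≤ D := by exact_mod_cast Nat.lt_succ_iff.1 a.1.2
  have h2 : ((a.2 : ℕ) : ℝ) ≤ D := by exact_mod_cast Nat.lt_succ_iff.1 a.2.2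
  unfold ex
  refine (abs_add_le _ _).trans ?_
  rw [abs_mul, Nat.abs_cast, Nat.abs_cast]
  push_cast
  have := mul_le_mul hθ h2 (Nat.cast_nonneg _) (Nat.cast_nonneg _)
  linarith

lemma rpow_ex_le {θ : ℝ} {s D : ℕ} (hθ : |θ| ≤ s) (a : Fin (D + 1) × Fin (D + 1)) {x X : ℝ}
    (hx : 1 ≤ x) (hX : x ≤ X) : x ^ (ex θ a) ≤ X ^ (D + s * D) := by
  refine (rpow_le_abs hx hX).trans ?_
  rw [← Real.rpow_natCast]
  exact Real.rpow_le_rpow_of_exponent_le (by linarith) (abs_ex_le hθ a)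

lemma abs_lam_pow_le {lam X : ℝ} {s D : ℕ} (hX : 1 ≤ X) (h : |lam| ≤ X ^ s) (j : Fin (D + 1)) :
    |lam| ^ (j : ℕ) ≤ X ^ (s * D) := by
  have h2 : (j : ℕ) ≤ D := Nat.lt_succ_iff.1 j.2
  have hXs : 1 ≤ X ^ s := one_le_pow₀ hX
  calc |lam| ^ (j : ℕ) ≤ (X ^ s) ^ (j : ℕ) := pow_le_pow_left₀ (abs_nonneg _) h _
    _ ≤ (X ^ s) ^ D := pow_le_pow_right₀ hXs h2
    _ = X ^ (s * D) := (pow_mul X s D).symm

/-- the auxiliary polynomial -/
theorem auxiliary (s D T : ℕ) : ∃ C0 : ℝ, 0 ≤ C0 ∧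
    ∀ θ : ℝ, |θ| ≤ s → ∀ (X : ℝ), 1 ≤ X → ∀ lam : ℝ, |lam| ≤ X ^ s → ∀ x0 : ℝ, 1 ≤ x0 → x0 ≤ X →
    ∀ (J M R : ℕ), 1 ≤ J → 0 < R → R ^ T < (M + 1) ^ ((D + 1) * (D + 1)) →
    ∃ c : Fin (D + 1) × Fin (D + 1) → ℤ, c ≠ 0 ∧ (∀ a, |c a| ≤ M) ∧
      ∀ x : ℝ, x0 ≤ x → x ≤ x0 * (1 + 1 / J) →
        |Fv θ lam c x| ≤ C0 * (X ^ (D + 2 * (s * D)) * ((M : ℝ) + 1) * (1 / R + 1 / (J : ℝ) ^ T)) := by
  classical
  obtain ⟨CT, hCT0, htay⟩ := taylor_unif T ((D + s * D : ℕ) : ℝ) (Nat.cast_nonneg _)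
  set K : ℕ := (D + 1) * (D + 1) with hK
  have hcardι : Fintype.card (Fin (D + 1) × Fin (D + 1)) = K := by simp [hK]
  refine ⟨2 * T * (K * CT + 1) + K * CT, by positivity, ?_⟩
  intro θ hθ X hX lam hlam x0 hx01 hx0X J M R hJ hR hbox
  choose α hα hαT using fun a : Fin (D + 1) × Fin (D + 1) => htay (ex θ a) (abs_ex_le hθ a)
  set P : ℕ := D + 2 * (s * D) with hP
  have hXP : 1 ≤ X ^ P := one_le_pow₀ hX
  have hJr : (1 : ℝ) ≤ J := by exact_mod_cast hJ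
  have hRr : (0 : ℝ) < R := by exact_mod_cast hR
  have hMr : (0 : ℝ) ≤ M := Nat.cast_nonneg M
  have hcoef : ∀ a : Fin (D + 1) × Fin (D + 1), |lam ^ (a.2 : ℕ) * x0 ^ (ex θ a)| ≤ X ^ P := by
    intro a
    rw [abs_mul, abs_pow, abs_of_pos (Real.rpow_pos_of_pos (by linarith) _)]
    have h1 := abs_lam_pow_le hX hlam a.2
    have h2 := rpow_ex_le hθ a hx01 hx0X
    calc |lam| ^ (a.2 : ℕ) * x0 ^ (ex θ a) ≤ X ^ (s * D) * X ^ (D + s * D) :=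
          mul_le_mul h1 h2 (Real.rpow_nonneg (by linarith) _) (by positivity)
      _ = X ^ P := by rw [← pow_add, hP]; congr 1; ring
  set L : Fin T → Fin (D + 1) × Fin (D + 1) → ℝ := fun m a =>
    (lam ^ (a.2 : ℕ) * x0 ^ (ex θ a)) * α a m with hL
  obtain ⟨c, hc0, hcM, hc⟩ := Pool.Agent.X142.DM.box L (A := X ^ P * CT) (by positivity) (by
      intro m a
      rw [hL]
      simp only
      rw [abs_mul]
      exact mul_le_mul (hcoef a) (hα a m m.2) (abs_nonneg _) (by positivity))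
    M R hR (by rw [Fintype.card_fin, hcardι]; exact hbox)
  refine ⟨c, hc0, hcM, ?_⟩
  intro x hx0 hx1
  have hx0pos : 0 < x0 := by linarith
  set u : ℝ := x / x0 - 1 with hu
  have hxu : x = x0 * (1 + u) := by
    rw [hu]
    field_simp
    ring
  have hu0 : 0 ≤ u := by
    rw [hu, sub_nonneg, le_div_iff₀ hx0pos]
    linarith
  have hu1 : u ≤ 1 / J := by
    have h1 : x0 * (1 + u) ≤ x0 * (1 + 1 / J) := by rw [← hxu]; exact hx1
    have h2 := le_of_mul_le_mul_left h1 hx0pos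
    linarith
  have hJ1 : 1 / (J : ℝ) ≤ 1 := by
    rw [div_le_one (by linarith)]
    exact hJr
  have hu1' : u ≤ 1 := hu1.trans hJ1
  have huT : u ^ T ≤ 1 / (J : ℝ) ^ T := by
    have := pow_le_pow_left₀ hu0 hu1 T
    rwa [div_pow, one_pow] at this
  have hsplit : Fv θ lam c x = ∑ m : Fin T, u ^ (m : ℕ) * ∑ a, (c a : ℝ) * L m a +
      ∑ a, (c a : ℝ) * (lam ^ (a.2 : ℕ) * x0 ^ (ex θ a)) *
        ((1 + u) ^ (ex θ a) - ∑ m ∈ range T, α a m * u ^ m) := by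
    have h1 : ∑ m : Fin T, u ^ (m : ℕ) * ∑ a, (c a : ℝ) * L m a =
        ∑ a, (c a : ℝ) * (lam ^ (a.2 : ℕ) * x0 ^ (ex θ a)) * ∑ m ∈ range T, α a m * u ^ m := by
      simp_rw [Finset.mul_sum]
      rw [Finset.sum_comm]
      refine Finset.sum_congr rfl fun a _ => ?_
      rw [← Fin.sum_univ_eq_sum_range (fun m => (c a : ℝ) *
        (lam ^ (a.2 : ℕ) * x0 ^ (ex θ a)) * (α a m * u ^ m)) T]
      refine Finset.sum_congr rfl fun m _ => ?_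
      rw [hL]
      ring
    rw [h1, ← Finset.sum_add_distrib]
    unfold Fv
    refine Finset.sum_congr rfl fun a _ => ?_
    rw [hxu, Real.mul_rpow hx0pos.le (by linarith)]
    ring
  rw [hsplit]
  refine (abs_add_le _ _).trans ?_
  have hA : |∑ m : Fin T, u ^ (m : ℕ) * ∑ a, (c a : ℝ) * L m a| ≤
      T * (2 * (K * (M * (X ^ P * CT)) + 1) / R) := by
    refine (Finset.abs_sum_le_sum_abs _ _).trans ?_
    have h1 : ∀ m ∈ (Finset.univ : Finset (Fin T)), |u ^ (m : ℕ) * ∑ a, (c a : ℝ) * L m a| ≤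
        2 * (K * (M * (X ^ P * CT)) + 1) / R := by
      intro m _
      rw [abs_mul, abs_of_nonneg (by positivity : 0 ≤ u ^ (m : ℕ))]
      have h2 := hc m
      rw [hcardι] at h2
      have h3 : u ^ (m : ℕ) ≤ 1 := pow_le_one₀ hu0 hu1'
      calc u ^ (m : ℕ) * |∑ a, (c a : ℝ) * L m a| ≤ 1 * |∑ a, (c a : ℝ) * L m a| :=
            mul_le_mul_of_nonneg_right h3 (abs_nonneg _)
        _ ≤ _ := by rw [one_mul]; exact h2
    refine (Finset.sum_le_card_nsmul _ _ _ h1).trans ?_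
    simp
  have hB : |∑ a, (c a : ℝ) * (lam ^ (a.2 : ℕ) * x0 ^ (ex θ a)) *
        ((1 + u) ^ (ex θ a) - ∑ m ∈ range T, α a m * u ^ m)| ≤
      K * (M * X ^ P * (CT * (1 / (J : ℝ) ^ T))) := by
    refine (Finset.abs_sum_le_sum_abs _ _).trans ?_
    have h1 : ∀ a ∈ (Finset.univ : Finset (Fin (D + 1) × Fin (D + 1))),
        |(c a : ℝ) * (lam ^ (a.2 : ℕ) * x0 ^ (ex θ a)) *
        ((1 + u) ^ (ex θ a) - ∑ m ∈ range T, α a m * u ^ m)| ≤
        M * X ^ P * (CT * (1 / (J : ℝ) ^ T)) := by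
      intro a _
      rw [abs_mul, abs_mul]
      have h2 : |(c a : ℝ)| ≤ M := by exact_mod_cast hcM a
      have h3 := hαT a u hu0 hu1'
      have h4 : CT * u ^ T ≤ CT * (1 / (J : ℝ) ^ T) :=
        mul_le_mul_of_nonneg_left huT hCT0
      exact mul_le_mul (mul_le_mul h2 (hcoef a) (abs_nonneg _) hMr) (h3.trans h4) (abs_nonneg _)
        (by positivity)
    refine (Finset.sum_le_card_nsmul _ _ _ h1).trans ?_
    rw [Finset.card_univ, hcardι, nsmul_eq_mul]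
  have hJT : 0 < (J : ℝ) ^ T := by positivity
  have hXP0 : 0 < X ^ P := by positivity
  have h7 : (T : ℝ) * (2 * (K * (M * (X ^ P * CT)) + 1) / R) ≤
      2 * T * (K * CT + 1) * (X ^ P * ((M : ℝ) + 1) * (1 / R)) := by
    have h8 : (K : ℝ) * (M * (X ^ P * CT)) + 1 ≤ (K * CT + 1) * (X ^ P * ((M : ℝ) + 1)) := by
      have h9 : (1 : ℝ) ≤ X ^ P * ((M : ℝ) + 1) := by nlinarith
      have h10 : (K : ℝ) * (M * (X ^ P * CT)) ≤ K * CT * (X ^ P * ((M : ℝ) + 1)) := by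
        have : 0 ≤ (K : ℝ) * CT * X ^ P := by positivity
        nlinarith
      nlinarith
    calc (T : ℝ) * (2 * (K * (M * (X ^ P * CT)) + 1) / R) =
        2 * T * (1 / R) * (K * (M * (X ^ P * CT)) + 1) := by ring
      _ ≤ 2 * T * (1 / R) * ((K * CT + 1) * (X ^ P * ((M : ℝ) + 1))) :=
          mul_le_mul_of_nonneg_left h8 (by positivity)
      _ = _ := by ring
  have h11 : (K : ℝ) * (M * X ^ P * (CT * (1 / (J : ℝ) ^ T))) ≤
      K * CT * (X ^ P * ((M : ℝ) + 1) * (1 / (J : ℝ) ^ T)) := by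
    have : 0 ≤ (K : ℝ) * CT * X ^ P * (1 / (J : ℝ) ^ T) := by positivity
    nlinarith
  have h12 : 0 ≤ 2 * T * (K * CT + 1) * (X ^ P * ((M : ℝ) + 1) * (1 / (J : ℝ) ^ T)) := by positivity
  have h13 : 0 ≤ K * CT * (X ^ P * ((M : ℝ) + 1) * (1 / R)) := by positivity
  calc _ ≤ T * (2 * (K * (M * (X ^ P * CT)) + 1) / R) +
        K * (M * X ^ P * (CT * (1 / (J : ℝ) ^ T))) := add_le_add hA hB
    _ ≤ 2 * T * (K * CT + 1) * (X ^ P * ((M : ℝ) + 1) * (1 / R)) +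
        K * CT * (X ^ P * ((M : ℝ) + 1) * (1 / (J : ℝ) ^ T)) := add_le_add h7 h11
    _ ≤ _ := by nlinarith

/-- the polynomial in the second variable, at a rational number -/
noncomputable def Rn {D : ℕ} (c : Fin (D + 1) × Fin (D + 1) → ℤ) (r : ℚ) : ℤ[X] :=
  ∑ a : Fin (D + 1) × Fin (D + 1),
    C (c a * (r.num ^ (a.1 : ℕ) * (r.den : ℤ) ^ (D - (a.1 : ℕ)))) * X ^ (a.2 : ℕ)

lemma natDegree_Rn {D : ℕ} (c : Fin (D + 1) × Fin (D + 1) → ℤ) (r : ℚ) :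
    (Rn c r).natDegree ≤ D := by
  refine natDegree_sum_le_of_forall_le _ _ fun a _ => ?_
  exact (natDegree_C_mul_X_pow_le _ _).trans (Nat.lt_succ_iff.1 a.2.2)

lemma coeff_Rn_le {D : ℕ} (c : Fin (D + 1) × Fin (D + 1) → ℤ) (r : ℚ) {M Y : ℝ} (hM : 0 ≤ M)
    (hY : 1 ≤ Y) (hc : ∀ a, |(c a : ℝ)| ≤ M) (hn : |(r.num : ℝ)| ≤ Y) (hd : (r.den : ℝ) ≤ Y)
    (i : ℕ) :
    |((Rn c r).coeff i : ℝ)| ≤ (((D + 1) * (D + 1) : ℕ) : ℝ) * (M * Y ^ D) := by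
  unfold Rn
  rw [finsetSum_coeff]
  push_cast
  refine (Finset.abs_sum_le_sum_abs _ _).trans ?_
  have h1 : ∀ a ∈ (Finset.univ : Finset (Fin (D + 1) × Fin (D + 1))),
      |(((C (c a * (r.num ^ (a.1 : ℕ) * (r.den : ℤ) ^ (D - (a.1 : ℕ)))) *
        X ^ (a.2 : ℕ) : ℤ[X]).coeff i : ℤ) : ℝ)| ≤ M * Y ^ D := by
    intro a _
    rw [coeff_C_mul, coeff_X_pow]
    have ha : (a.1 : ℕ) ≤ D := Nat.lt_succ_iff.1 a.1.2
    have h2 : |(r.num : ℝ)| ^ (a.1 : ℕ) * (r.den : ℝ) ^ (D - (a.1 : ℕ)) ≤ Y ^ D := by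
      calc |(r.num : ℝ)| ^ (a.1 : ℕ) * (r.den : ℝ) ^ (D - (a.1 : ℕ)) ≤
            Y ^ (a.1 : ℕ) * Y ^ (D - (a.1 : ℕ)) :=
            mul_le_mul (pow_le_pow_left₀ (abs_nonneg _) hn _)
              (pow_le_pow_left₀ (Nat.cast_nonneg _) hd _) (by positivity) (by positivity)
        _ = Y ^ D := by rw [← pow_add]; congr 1; omega
    split_ifs
    · push_cast
      rw [mul_one, abs_mul, abs_mul, abs_pow, abs_pow, Nat.abs_cast]
      exact mul_le_mul (hc a) h2 (by positivity) hM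
    · simp
      positivity
  refine (Finset.sum_le_card_nsmul _ _ _ h1).trans ?_
  simp

lemma aeval_Rn (θ lam : ℝ) {D : ℕ} (c : Fin (D + 1) × Fin (D + 1) → ℤ) (r : ℚ) (hr : 0 < r) :
    aeval (lam * (r : ℝ) ^ θ) (Rn c r) = (r.den : ℝ) ^ D * Fv θ lam c r := by
  have hr0 : (0 : ℝ) < r := by exact_mod_cast hr
  have hd0 : (r.den : ℝ) ≠ 0 := by exact_mod_cast r.den_nz
  have hnum : (r.num : ℝ) = (r : ℝ) * r.den := by
    have h5 : (r : ℝ) = r.num / r.den := by exact_mod_cast (Rat.num_div_den r).symm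
    rw [h5]
    field_simp
  unfold Rn Fv
  rw [map_sum, Finset.mul_sum]
  refine Finset.sum_congr rfl fun a _ => ?_
  have ha : (a.1 : ℕ) ≤ D := Nat.lt_succ_iff.1 a.1.2
  rw [map_mul, map_pow, aeval_X, aeval_C, ex, Real.rpow_add hr0, Real.rpow_natCast,
    Real.rpow_mul hr0.le, Real.rpow_natCast, mul_pow]
  simp only [algebraMap_int_eq, eq_intCast]
  push_cast
  rw [hnum, mul_pow]
  have h1 : (r.den : ℝ) ^ D = (r.den : ℝ) ^ (a.1 : ℕ) * (r.den : ℝ) ^ (D - (a.1 : ℕ)) := by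
    rw [← pow_add]
    congr 1
    omega
  rw [h1]
  ring

end Pool.Agent.X142.DN
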