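import Mathlib
import Pool.Agent.X142.DN.AuxPoly

/-!
# Few near algebraic values at rational points of a short interval, uniformly in the exponent
-/

set_option autoImplicit false

namespace Pool.Agent.X142.DN

open Polynomial Finset

/-- `ξ` is `η`-close to being algebraic of degree at most `d` and height at most `H`: some
irreducible integer polynomial of degree between `1` and `d` with coefficients of absolute value at
most `H` has absolute value at most `η` at `ξ`. -/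
def NearAlg (d : ℕ) (H η ξ : ℝ) : Prop :=
  ∃ Q : ℤ[X], Irreducible Q ∧ 1 ≤ Q.natDegree ∧ Q.natDegree ≤ d ∧
    (∀ i, |(Q.coeff i : ℝ)| ≤ H) ∧ |aeval ξ Q| ≤ η

/-- `|i + θ j| ≥ 1/Δ` for all integers `|i|, |j| ≤ D`, not both zero -/
def Gap (θ : ℝ) (D : ℕ) (Δ : ℝ) : Prop :=
  ∀ i j : ℤ, |i| ≤ D → |j| ≤ D → ¬ (i = 0 ∧ j = 0) → 1 / Δ ≤ |(i : ℝ) + θ * (j : ℝ)|

lemma gap_ex {θ : ℝ} {D : ℕ} {Δ : ℝ} (h : Gap θ D Δ) (a b : Fin (D + 1) × Fin (D + 1))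
    (hab : a ≠ b) : 1 / Δ ≤ |ex θ a - ex θ b| := by
  have h1 := h (((a.1 : ℕ) : ℤ) - ((b.1 : ℕ) : ℤ)) (((a.2 : ℕ) : ℤ) - ((b.2 : ℕ) : ℤ))
    (by
      have h1 := a.1.2
      have h2 := b.1.2
      rw [abs_le]
      constructor <;> omega)
    (by
      have h1 := a.2.2
      have h2 := b.2.2
      rw [abs_le]
      constructor <;> omega)
    (by
      rintro ⟨h1, h2⟩
      apply hab
      exact Prod.ext (Fin.ext (by omega)) (Fin.ext (by omega)))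
  have h2 : ((((a.1 : ℕ) : ℤ) - ((b.1 : ℕ) : ℤ) : ℤ) : ℝ) +
      θ * ((((a.2 : ℕ) : ℤ) - ((b.2 : ℕ) : ℤ) : ℤ) : ℝ) = ex θ a - ex θ b := by
    unfold ex
    push_cast
    ring
  rwa [h2] at h1

/-- distinct rational numbers `≥ 1` with numerators at most `X` are `1/X²` apart -/
lemma spacing {X : ℝ} (hX : 1 ≤ X) {r r' : ℚ} (hr : 1 ≤ r) (hr' : 1 ≤ r') (hrX : (r.num : ℝ) ≤ X)
    (hrX' : (r'.num : ℝ) ≤ X) (hlt : r < r') : 1 ≤ X ^ 2 * (r' : ℝ) - X ^ 2 * (r : ℝ) := by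
  have hd : ∀ t : ℚ, 1 ≤ t → (t.den : ℝ) ≤ t.num := by
    intro t ht
    have h1 : (t.den : ℚ) ≤ t.num := by
      have h2 := Rat.num_div_den t
      have h3 : (0 : ℚ) < t.den := by exact_mod_cast t.den_pos
      rw [← h2, le_div_iff₀ h3, one_mul] at ht
      exact ht
    exact_mod_cast h1
  have h1 : (r.den : ℝ) ≤ X := (hd r hr).trans hrX
  have h2 : (r'.den : ℝ) ≤ X := (hd r' hr').trans hrX'
  have h3 : (0 : ℝ) < r.den := by exact_mod_cast r.den_pos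
  have h4 : (0 : ℝ) < r'.den := by exact_mod_cast r'.den_pos
  have h5 : (r : ℝ) = r.num / r.den := by exact_mod_cast (Rat.num_div_den r).symm
  have h6 : (r' : ℝ) = r'.num / r'.den := by exact_mod_cast (Rat.num_div_den r').symm
  have hltr : (r : ℝ) < r' := by exact_mod_cast hlt
  have h7 : (1 : ℝ) ≤ r'.num * r.den - r.num * r'.den := by
    rw [h5, h6, div_lt_div_iff₀ h3 h4] at hltr
    have h8 : r.num * (r'.den : ℤ) < r'.num * (r.den : ℤ) := by exact_mod_cast hltr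
    have h9 : 1 ≤ r'.num * (r.den : ℤ) - r.num * (r'.den : ℤ) := by omega
    exact_mod_cast h9
  have h8 : (r' : ℝ) - r = (r'.num * r.den - r.num * r'.den) / (r.den * r'.den) := by
    rw [h5, h6]
    field_simp
  have h9 : (r.den : ℝ) * r'.den ≤ X ^ 2 := by
    rw [sq]
    exact mul_le_mul h1 h2 h4.le (by linarith)
  have h10 : 1 / (X ^ 2) ≤ (r' : ℝ) - r := by
    rw [h8, div_le_div_iff₀ (by positivity) (by positivity)]
    have : 0 < (r.den : ℝ) * r'.den := by positivity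
    nlinarith
  rw [div_le_iff₀ (by positivity)] at h10
  linarith

/-- near zeros, for the exponents `i + θ j` and rational points -/
theorem few_near_zeros (s D : ℕ) : ∃ C B : ℝ, 0 ≤ C ∧ 0 ≤ B ∧
    ∀ X Δ : ℝ, 1 ≤ X → 1 ≤ Δ → ∀ θ : ℝ, |θ| ≤ s → Gap θ D Δ →
      ∀ (lam : ℝ) (c : Fin (D + 1) × Fin (D + 1) → ℤ) (η : ℝ) (S : Finset ℚ),
      (∀ r ∈ S, 1 ≤ r ∧ (r.num : ℝ) ≤ X) → (∀ r ∈ S, |Fv θ lam c r| ≤ η) →
      2 ^ ((D + 1) * (D + 1)) ≤ S.card →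
      ∀ a, |(c a : ℝ) * lam ^ (a.2 : ℕ)| ≤ C * (X * Δ) ^ B * η := by
  classical
  set K := (D + 1) * (D + 1) with hK
  set σ : Fin K ≃ Fin (D + 1) × Fin (D + 1) := finProdFinEquiv.symm with hσ
  set E : ℝ := ((D + s * D : ℕ) : ℝ) with hE
  have hE0 : 0 ≤ E := Nat.cast_nonneg _
  obtain ⟨C, B, hC, hB, h⟩ := near_zeros K E hE0
  refine ⟨C, 3 * B + 2 * E, hC, by positivity, ?_⟩
  intro X Δ hX hΔ θ hθ hgap lam c η S hS hF hcard a
  have hX0 : 0 < X := by linarith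
  have hX2 : 1 ≤ X ^ 2 := one_le_pow₀ hX
  have hX3 : 1 ≤ X ^ 3 := one_le_pow₀ hX
  have hX20 : 0 < X ^ 2 := by positivity
  obtain ⟨S', hS', hS'c⟩ := Finset.exists_subset_card_eq hcard
  set em := S'.orderEmbOfFin hS'c with hem
  have hmem : ∀ i, em i ∈ S := fun i => hS' (Finset.orderEmbOfFin_mem S' hS'c i)
  set x : ℕ → ℝ := fun i => if hi : i < 2 ^ K then X ^ 2 * ((em ⟨i, hi⟩ : ℚ) : ℝ) else 0 with hx
  have hxi : ∀ i (hi : i < 2 ^ K), x i = X ^ 2 * ((em ⟨i, hi⟩ : ℚ) : ℝ) := by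
    intro i hi
    rw [hx]
    simp [hi]
  have hr1 : ∀ i, (1 : ℝ) ≤ ((em i : ℚ) : ℝ) := fun i => by exact_mod_cast (hS _ (hmem i)).1
  have hrX : ∀ i, ((em i : ℚ) : ℝ) ≤ X := by
    intro i
    refine le_trans ?_ (hS _ (hmem i)).2
    have h5 : ((em i : ℚ) : ℝ) = (em i).num / (em i).den := by
      exact_mod_cast (Rat.num_div_den (em i)).symm
    have h6 : (1 : ℝ) ≤ (em i).den := by exact_mod_cast (em i).den_pos
    have h7 : (0 : ℝ) ≤ (em i).num := by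
      have h8 : 0 ≤ em i := by linarith [(hS _ (hmem i)).1]
      exact_mod_cast Rat.num_nonneg.2 h8
    rw [h5]
    exact div_le_self h7 h6
  have h1 := h (X ^ 3) Δ hX3 hΔ (fun k => ex θ (σ k)) (fun k => abs_ex_le hθ _)
    (fun k l hkl => gap_ex hgap _ _ fun h => hkl (σ.injective h))
    (fun k => (c (σ k) : ℝ) * lam ^ ((σ k).2 : ℕ) * (X ^ 2) ^ (-(ex θ (σ k)))) η x
    (by
      intro i hi
      rw [hxi i hi]
      have h2 := hr1 ⟨i, hi⟩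
      have h3 := hrX ⟨i, hi⟩
      constructor
      · nlinarith
      · calc X ^ 2 * ((em ⟨i, hi⟩ : ℚ) : ℝ) ≤ X ^ 2 * X := mul_le_mul_of_nonneg_left h3 hX20.le
          _ = X ^ 3 := by ring)
    (by
      intro i hi
      rw [hxi i (by omega), hxi (i + 1) hi]
      have h2 : em ⟨i, by omega⟩ < em ⟨i + 1, hi⟩ := by
        apply em.strictMono
        simp [Fin.lt_def]
      have h3 := spacing hX (hS _ (hmem ⟨i, by omega⟩)).1 (hS _ (hmem ⟨i + 1, hi⟩)).1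
        (hS _ (hmem ⟨i, by omega⟩)).2 (hS _ (hmem ⟨i + 1, hi⟩)).2 h2
      linarith)
    (by
      intro i hi
      rw [hxi i hi]
      have h2 := hF _ (hmem ⟨i, hi⟩)
      have hpos : (0 : ℝ) < ((em ⟨i, hi⟩ : ℚ) : ℝ) := by linarith [hr1 ⟨i, hi⟩]
      have h3 : ∑ k, (c (σ k) : ℝ) * lam ^ ((σ k).2 : ℕ) * (X ^ 2) ^ (-(ex θ (σ k))) *
          (X ^ 2 * ((em ⟨i, hi⟩ : ℚ) : ℝ)) ^ (ex θ (σ k)) =
          Fv θ lam c ((em ⟨i, hi⟩ : ℚ) : ℝ) := by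
        unfold Fv
        rw [← Equiv.sum_comp σ]
        refine Finset.sum_congr rfl fun k _ => ?_
        rw [Real.mul_rpow hX20.le hpos.le, Real.rpow_neg hX20.le]
        have h4 : (0 : ℝ) < (X ^ 2) ^ (ex θ (σ k)) := Real.rpow_pos_of_pos hX20 _
        field_simp
      rw [h3]
      exact h2)
    (σ.symm a)
  simp only [Equiv.apply_symm_apply] at h1
  have hη : 0 ≤ η := (abs_nonneg _).trans (hF _ (hmem ⟨0, by positivity⟩))
  have hp : (0 : ℝ) < (X ^ 2) ^ (-(ex θ a)) := Real.rpow_pos_of_pos hX20 _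
  rw [abs_mul, abs_of_pos hp] at h1
  have hXΔ : 1 ≤ X * Δ := by nlinarith
  have h2 : (X ^ 2) ^ (ex θ a) ≤ (X * Δ) ^ (2 * E) := by
    have h3 : (X ^ 2) ^ (ex θ a) ≤ (X ^ 2) ^ E :=
      Real.rpow_le_rpow_of_exponent_le hX2 ((le_abs_self _).trans (abs_ex_le hθ a))
    refine h3.trans ?_
    rw [← Real.rpow_natCast X 2, ← Real.rpow_mul hX0.le]
    push_cast
    exact Real.rpow_le_rpow hX0.le (by nlinarith) (by positivity)
  have h3 : (X ^ 3 * Δ) ^ B ≤ (X * Δ) ^ (3 * B) := by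
    have h4 : X ^ 3 * Δ ≤ (X * Δ) ^ 3 := by
      have h5 : Δ ≤ Δ ^ 3 := le_self_pow₀ hΔ (by norm_num)
      rw [mul_pow]
      gcongr
    calc (X ^ 3 * Δ) ^ B ≤ ((X * Δ) ^ 3) ^ B := Real.rpow_le_rpow (by positivity) h4 hB
      _ = (X * Δ) ^ (3 * B) := by
          rw [← Real.rpow_natCast (X * Δ) 3, ← Real.rpow_mul (by positivity)]
          norm_num
  have h4 : (X ^ 2) ^ (-(ex θ a)) * (X ^ 2) ^ (ex θ a) = 1 := by
    rw [← Real.rpow_add hX20, neg_add_cancel, Real.rpow_zero]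
  calc |(c a : ℝ) * lam ^ (a.2 : ℕ)| =
        (|(c a : ℝ) * lam ^ (a.2 : ℕ)| * (X ^ 2) ^ (-(ex θ a))) * (X ^ 2) ^ (ex θ a) := by
        rw [mul_assoc, h4, mul_one]
    _ ≤ (C * (X ^ 3 * Δ) ^ B * η) * (X * Δ) ^ (2 * E) :=
        mul_le_mul h1 h2 (by positivity) (by positivity)
    _ ≤ (C * (X * Δ) ^ (3 * B) * η) * (X * Δ) ^ (2 * E) := by gcongr
    _ = C * (X * Δ) ^ (3 * B + 2 * E) * η := by
        rw [Real.rpow_add (by positivity)]
        ring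

theorem short (s d E : ℕ) (hd : 1 ≤ d) (hE : 1 ≤ E) : ∃ D L : ℕ, ∀ G : ℕ, ∃ w X0 : ℕ,
    ∀ X : ℕ, X0 ≤ X → ∀ θ : ℝ, |θ| ≤ s → Gap θ D ((X : ℝ) ^ G) →
      ∀ lam : ℝ, ((X : ℝ) ^ s)⁻¹ ≤ |lam| → |lam| ≤ (X : ℝ) ^ s →
      ∀ J : ℕ, 1 ≤ J → X ≤ J ^ E → ∀ x0 : ℝ, 1 ≤ x0 → x0 ≤ X → ∀ S : Finset ℚ,
      (∀ r ∈ S, 1 ≤ r ∧ r.num ≤ X ∧ x0 ≤ r ∧ (r : ℝ) ≤ x0 * (1 + 1 / J) ∧
        NearAlg d ((X : ℝ) ^ s) (((X : ℝ) ^ w)⁻¹) (lam * (r : ℝ) ^ θ)) → S.card < L := by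
  classical
  set q0 : ℕ := 5 * s + 2 * d + 2 * s * d + 4 with hq0
  set D : ℕ := E * q0 ^ 2 + 1 with hD
  set t : ℕ := D * q0 with ht
  set T : ℕ := E * t with hT
  set K : ℕ := (D + 1) * (D + 1) with hK
  set P : ℕ := D + 2 * (s * D) with hP
  have hD1 : 1 ≤ D := by rw [hD]; omega
  obtain ⟨C0, hC0, haux⟩ := auxiliary s D T
  obtain ⟨C3, B3, hC3, hB3, hzeros⟩ := few_near_zeros s D
  set C4 : ℝ := (D + 1) * (D * K * 2 ^ D) with hC4
  set C5 : ℝ := (K : ℝ) ^ d * (((d + D : ℕ) : ℝ) * (2 * C0 + 1) * (d + D).factorial) with hC5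
  have hC50 : 0 ≤ C5 := by positivity
  have hC40 : 0 ≤ C4 := by positivity
  refine ⟨D, 2 ^ K, fun G => ?_⟩
  set w1 : ℕ := ⌈B3⌉₊ * (G + 1) + 2 * D + 3 * (s * D) + 1 with hw1
  refine ⟨d * w1 + t, ⌈C5⌉₊ + ⌈C3 * C4⌉₊ + 2, ?_⟩
  intro X hX0 θ hs hgap lam hlam1 hlam2 J hJ hJE x0 hx01 hx0X S hS
  by_contra hcard
  push Not at hcard
  have hX2 : 2 ≤ X := by omega
  have hx2 : (2 : ℝ) ≤ X := by exact_mod_cast hX2
  have hx1 : (1 : ℝ) ≤ X := by linarith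
  set x : ℝ := (X : ℝ) with hx
  have hx0 : 0 < x := by linarith
  have hxC5 : C5 < x := by
    have h1 := Nat.le_ceil C5
    have h2 : ((⌈C5⌉₊ + ⌈C3 * C4⌉₊ + 2 : ℕ) : ℝ) ≤ x := Nat.cast_le.2 hX0
    push_cast at h2
    have h3 : (0 : ℝ) ≤ (⌈C3 * C4⌉₊ : ℝ) := Nat.cast_nonneg _
    linarith
  have hxC3 : C3 * C4 < x := by
    have h1 := Nat.le_ceil (C3 * C4)
    have h2 : ((⌈C5⌉₊ + ⌈C3 * C4⌉₊ + 2 : ℕ) : ℝ) ≤ x := Nat.cast_le.2 hX0
    push_cast at h2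
    have h3 : (0 : ℝ) ≤ (⌈C5⌉₊ : ℝ) := Nat.cast_nonneg _
    linarith
  -- the auxiliary polynomial
  have hbox : (X ^ t) ^ T < (X ^ D - 1 + 1) ^ ((D + 1) * (D + 1)) := by
    have h1 : X ^ D - 1 + 1 = X ^ D := Nat.sub_add_cancel (Nat.one_le_pow _ _ (by omega))
    rw [h1, ← pow_mul, ← pow_mul]
    apply Nat.pow_lt_pow_right (by omega)
    have h2 : t * T = (E * q0 ^ 2) * (D * D) := by rw [hT, ht]; ring
    have h3 : E * q0 ^ 2 + 1 = D := hD.symm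
    rw [h2]
    nlinarith
  obtain ⟨c, hc0, hcM, hcF⟩ := haux θ hs x hx1 lam hlam2 x0 hx01 hx0X J (X ^ D - 1) (X ^ t) hJ
    (by positivity) hbox
  have hM1 : ((X ^ D - 1 : ℕ) : ℝ) + 1 = x ^ D := by
    have h1 : X ^ D - 1 + 1 = X ^ D := Nat.sub_add_cancel (Nat.one_le_pow _ _ (by omega))
    have h2 : (((X ^ D - 1 + 1 : ℕ)) : ℝ) = ((X ^ D : ℕ) : ℝ) := by rw [h1]
    push_cast at h2
    exact h2
  have hcM' : ∀ a, |(c a : ℝ)| ≤ x ^ D := by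
    intro a
    have h1 : |(c a : ℝ)| ≤ ((X ^ D - 1 : ℕ) : ℝ) := by
      have := hcM a
      exact_mod_cast this
    linarith
  have hJT : x ^ t ≤ (J : ℝ) ^ T := by
    have h1 : x ≤ (J : ℝ) ^ E := by
      have h0 : (X : ℝ) ≤ ((J ^ E : ℕ) : ℝ) := Nat.cast_le.2 hJE
      rwa [Nat.cast_pow] at h0
    calc x ^ t ≤ ((J : ℝ) ^ E) ^ t := pow_le_pow_left₀ hx0.le h1 t
      _ = (J : ℝ) ^ T := by rw [hT, ← pow_mul]
  have hxt : 0 < x ^ t := by positivity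
  set η : ℝ := (2 * C0 + 1) * (x ^ (P + 2 * D) / x ^ t) with hη
  have hη0 : 0 ≤ η := by positivity
  have hFη : ∀ r ∈ S, x ^ D * |Fv θ lam c r| ≤ η := by
    intro n hn
    obtain ⟨hn1, hnX, hnx0, hnx1, _⟩ := hS n hn
    have h0 := hcF n hnx0 hnx1
    rw [hM1] at h0
    have h1 : 1 / ((X ^ t : ℕ) : ℝ) + 1 / (J : ℝ) ^ T ≤ 2 / x ^ t := by
      have h2 : 1 / (J : ℝ) ^ T ≤ 1 / x ^ t := one_div_le_one_div_of_le hxt hJT
      have h3 : ((X ^ t : ℕ) : ℝ) = x ^ t := by push_cast; rfl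
      rw [h3]
      have h4 : (2 : ℝ) / x ^ t = 1 / x ^ t + 1 / x ^ t := by ring
      linarith
    calc x ^ D * |Fv θ lam c n| ≤
          x ^ D * (C0 * (x ^ (D + 2 * (s * D)) * x ^ D * (1 / ((X ^ t : ℕ) : ℝ) + 1 / (J : ℝ) ^ T))) :=
          mul_le_mul_of_nonneg_left h0 (by positivity)
      _ ≤ x ^ D * (C0 * (x ^ (D + 2 * (s * D)) * x ^ D * (2 / x ^ t))) := by gcongr
      _ = 2 * C0 * (x ^ (P + 2 * D) / x ^ t) := by
          rw [show P + 2 * D = D + 2 * (s * D) + D + D by rw [hP]; ring, pow_add _ _ D,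
            pow_add _ _ D]
          ring
      _ ≤ η := by
          rw [hη]
          have : 0 ≤ x ^ (P + 2 * D) / x ^ t := by positivity
          nlinarith
  -- divisibility
  have hsmall : ∀ r ∈ S, |Fv θ lam c r| ≤ C4 * x ^ (2 * D + 2 * (s * D)) / x ^ w1 := by
    intro n hn
    obtain ⟨hn1, hnX, hnx0, hnx1, Q, hQi, hQ1, hQd, hQH, hQη⟩ := hS n hn
    have hn0 : 0 < n := by linarith
    have hn1' : (1 : ℝ) ≤ n := by exact_mod_cast hn1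
    have hnumX : ((n.num : ℤ) : ℝ) ≤ x := by
      have h1 : ((n.num : ℤ) : ℝ) ≤ (((X : ℕ) : ℤ) : ℝ) := Int.cast_le.2 hnX
      rwa [Int.cast_natCast] at h1
    have hnum0 : (0 : ℝ) ≤ n.num := by exact_mod_cast Rat.num_nonneg.2 hn0.le
    have hden1 : (1 : ℝ) ≤ n.den := by exact_mod_cast n.den_pos
    have hnrat : (n : ℝ) = n.num / n.den := by exact_mod_cast (Rat.num_div_den n).symm
    have hdennum : (n.den : ℝ) ≤ n.num := by
      rw [hnrat, le_div_iff₀ (by linarith), one_mul] at hn1'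
      exact hn1'
    have hdenX : (n.den : ℝ) ≤ x := hdennum.trans hnumX
    have hnX' : (n : ℝ) ≤ x := by
      rw [hnrat]
      exact (div_le_self hnum0 hden1).trans hnumX
    set ξ : ℝ := lam * (n : ℝ) ^ θ with hξ
    have hξT : |ξ| ≤ x ^ (2 * s) := by
      rw [hξ, abs_mul, abs_of_pos (Real.rpow_pos_of_pos (by linarith) _), two_mul, pow_add]
      refine mul_le_mul hlam2 ?_ (Real.rpow_nonneg (by linarith) _) (by positivity)
      refine (rpow_le_abs hn1' hnX').trans ?_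
      rw [← Real.rpow_natCast]
      exact Real.rpow_le_rpow_of_exponent_le hx1 hs
    have hRH : ∀ i, |((Rn c n).coeff i : ℝ)| ≤ K * x ^ (2 * D) := by
      intro i
      have := coeff_Rn_le c n (by positivity : (0 : ℝ) ≤ x ^ D) hx1 hcM'
        (by rw [abs_of_nonneg hnum0]; exact hnumX) hdenX i
      rwa [← pow_add, ← two_mul] at this
    have hK1 : (1 : ℝ) ≤ K := by
      have : 1 ≤ K := by rw [hK]; exact Nat.mul_pos (by omega) (by omega)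
      exact_mod_cast this
    have hHR : 1 ≤ K * x ^ (2 * D) := by
      have : 1 ≤ x ^ (2 * D) := one_le_pow₀ hx1
      nlinarith
    have hRv : aeval ξ (Rn c n) = (n.den : ℝ) ^ D * Fv θ lam c n := aeval_Rn θ lam c n hn0
    have hden1D : (1 : ℝ) ≤ (n.den : ℝ) ^ D := one_le_pow₀ hden1
    have hRη : |aeval ξ (Rn c n)| ≤ η := by
      rw [hRv, abs_mul, abs_of_pos (by positivity)]
      refine le_trans ?_ (hFη n hn)
      exact mul_le_mul_of_nonneg_right (pow_le_pow_left₀ (Nat.cast_nonneg _) hdenX D) (abs_nonneg _)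
    have hQη' : |aeval ξ Q| ≤ η := by
      refine hQη.trans ?_
      rw [hη]
      have h1 : (x ^ (d * w1 + t))⁻¹ ≤ (x ^ t)⁻¹ :=
        inv_anti₀ hxt (pow_le_pow_right₀ hx1 (by omega))
      have h2 : (x ^ t)⁻¹ ≤ x ^ (P + 2 * D) / x ^ t := by
        rw [inv_eq_one_div]
        exact div_le_div_of_nonneg_right (one_le_pow₀ hx1) hxt.le
      have h3 : 0 ≤ x ^ (P + 2 * D) / x ^ t := by positivity
      nlinarith
    have hdvd : Q ∣ Rn c n := by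
      refine Pool.Agent.X142.DM.dvd_of_small Q (Rn c n) hQi hQ1 hQd (natDegree_Rn c n)
        (one_le_pow₀ hx1) hHR
        (one_le_pow₀ hx1 : 1 ≤ x ^ (2 * s)) hη0 hQH hRH ξ hξT hQη' hRη ?_
      have h1 : (x ^ s) ^ D * (K * x ^ (2 * D)) ^ d *
          (((d + D : ℕ) : ℝ) * ((x ^ (2 * s)) ^ (d + D) * η) * (d + D).factorial) =
          C5 * (x ^ (s * D + 2 * D * d + 2 * s * (d + D) + (P + 2 * D)) / x ^ t) := by
        rw [hη, hC5, mul_pow, ← pow_mul, ← pow_mul, ← pow_mul, pow_add _ _ (P + 2 * D),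
          pow_add _ _ (2 * s * (d + D)), pow_add _ (s * D)]
        ring
      rw [h1]
      have h2 : x ^ (s * D + 2 * D * d + 2 * s * (d + D) + (P + 2 * D)) / x ^ t ≤ 1 / x := by
        rw [div_le_div_iff₀ hxt hx0, one_mul, ← pow_succ]
        apply pow_le_pow_right₀ hx1
        rw [ht, hP, hq0]
        nlinarith [Nat.mul_le_mul_left (2 * s * d) hD1]
      calc C5 * (x ^ (s * D + 2 * D * d + 2 * s * (d + D) + (P + 2 * D)) / x ^ t) ≤
            C5 * (1 / x) := mul_le_mul_of_nonneg_left h2 hC50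
        _ < 1 := by rw [mul_one_div, div_lt_one hx0]; exact hxC5
    have hη'0 : 0 ≤ (x ^ (d * w1 + t))⁻¹ := by positivity
    have hη'1 : (x ^ (d * w1 + t))⁻¹ ≤ 1 := inv_le_one_of_one_le₀ (one_le_pow₀ hx1)
    have hfin := Pool.Agent.X142.DM.small_of_dvd Q (Rn c n) hQ1 hdvd hQd (natDegree_Rn c n) hHR
      (one_le_pow₀ hx1 : 1 ≤ x ^ (2 * s)) hη'0 hη'1 hRH ξ hξT hQη
    rw [hRv] at hfin
    have hfin' : |Fv θ lam c n| ≤ |(n.den : ℝ) ^ D * Fv θ lam c n| := by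
      rw [abs_mul, abs_of_pos (by positivity : (0 : ℝ) < (n.den : ℝ) ^ D)]
      have := abs_nonneg (Fv θ lam c n)
      nlinarith
    refine (hfin'.trans hfin).trans ?_
    have h1 : ((x ^ (d * w1 + t))⁻¹) ^ ((d : ℝ)⁻¹) ≤ (x ^ w1)⁻¹ := by
      have h2 : (x ^ (d * w1 + t))⁻¹ ≤ ((x ^ w1)⁻¹) ^ d := by
        rw [inv_pow, ← pow_mul, mul_comm w1 d]
        exact inv_anti₀ (by positivity) (pow_le_pow_right₀ hx1 (by omega))
      calc ((x ^ (d * w1 + t))⁻¹) ^ ((d : ℝ)⁻¹) ≤ (((x ^ w1)⁻¹) ^ d) ^ ((d : ℝ)⁻¹) :=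
            Real.rpow_le_rpow hη'0 h2 (by positivity)
        _ = (x ^ w1)⁻¹ := Real.pow_rpow_inv_natCast (by positivity) (by omega)
    have h3 : (x ^ (2 * s) + 1) ^ D ≤ 2 ^ D * x ^ (2 * (s * D)) := by
      have h4 : x ^ (2 * s) + 1 ≤ 2 * x ^ (2 * s) := by
        have : 1 ≤ x ^ (2 * s) := one_le_pow₀ hx1
        linarith
      calc (x ^ (2 * s) + 1) ^ D ≤ (2 * x ^ (2 * s)) ^ D := pow_le_pow_left₀ (by positivity) h4 D
        _ = _ := by rw [mul_pow, ← pow_mul]; ring_nf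
    calc ((x ^ (d * w1 + t))⁻¹) ^ ((d : ℝ)⁻¹) *
          (((D : ℝ) + 1) * (D * (K * x ^ (2 * D)) * (x ^ (2 * s) + 1) ^ D)) ≤
          (x ^ w1)⁻¹ * (((D : ℝ) + 1) * (D * (K * x ^ (2 * D)) * (2 ^ D * x ^ (2 * (s * D))))) := by
          gcongr
      _ = C4 * x ^ (2 * D + 2 * (s * D)) / x ^ w1 := by
          rw [hC4, pow_add]
          ring
  -- conclusion
  obtain ⟨a, ha⟩ : ∃ a, c a ≠ 0 := by
    by_contra hcon
    push Not at hcon
    exact hc0 (funext hcon)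
  have h1 := hzeros x (x ^ G) hx1 (one_le_pow₀ hx1) θ hs hgap lam c _ S (fun n hn => by
      refine ⟨(hS n hn).1, ?_⟩
      have h1 : ((n.num : ℤ) : ℝ) ≤ (((X : ℕ) : ℤ) : ℝ) := Int.cast_le.2 (hS n hn).2.1
      rwa [Int.cast_natCast] at h1)
    hsmall hcard a
  have h2 : (x ^ (s * D))⁻¹ ≤ |(c a : ℝ) * lam ^ (a.2 : ℕ)| := by
    rw [abs_mul, abs_pow]
    have h3 : (1 : ℝ) ≤ |(c a : ℝ)| := by
      have : (1 : ℤ) ≤ |c a| := Int.one_le_abs ha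
      exact_mod_cast this
    have h4 : (x ^ (s * D))⁻¹ ≤ |lam| ^ (a.2 : ℕ) := by
      have h5 : ((x ^ s)⁻¹) ^ (a.2 : ℕ) ≤ |lam| ^ (a.2 : ℕ) :=
        pow_le_pow_left₀ (by positivity) hlam1 _
      refine le_trans ?_ h5
      rw [inv_pow, ← pow_mul]
      exact inv_anti₀ (by positivity)
        (pow_le_pow_right₀ hx1 (Nat.mul_le_mul_left s (Nat.lt_succ_iff.1 a.2.2)))
    have h6 : 0 ≤ |lam| ^ (a.2 : ℕ) := by positivity
    nlinarith
  have h3 : (x * x ^ G) ^ B3 ≤ x ^ (⌈B3⌉₊ * (G + 1)) := by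
    rw [← pow_succ', mul_comm ⌈B3⌉₊, pow_mul, ← Real.rpow_natCast (x ^ (G + 1))]
    exact Real.rpow_le_rpow_of_exponent_le (one_le_pow₀ hx1) (Nat.le_ceil B3)
  have h4 : (x ^ (s * D))⁻¹ ≤ C3 * x ^ (⌈B3⌉₊ * (G + 1)) *
      (C4 * x ^ (2 * D + 2 * (s * D)) / x ^ w1) := by
    refine (h2.trans h1).trans ?_
    have : 0 ≤ C4 * x ^ (2 * D + 2 * (s * D)) / x ^ w1 := by positivity
    gcongr
  have h5 : C3 * x ^ (⌈B3⌉₊ * (G + 1)) * (C4 * x ^ (2 * D + 2 * (s * D)) / x ^ w1) =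
      C3 * C4 / x * (x ^ (s * D))⁻¹ := by
    rw [hw1]
    have e1 : x ^ (⌈B3⌉₊ * (G + 1) + 2 * D + 3 * (s * D) + 1) =
        x ^ (⌈B3⌉₊ * (G + 1)) * x ^ (2 * D + 2 * (s * D)) * x ^ (s * D) * x := by
      rw [← pow_add, ← pow_add, ← pow_succ]
      congr 1
      ring
    rw [e1]
    field_simp
  rw [h5] at h4
  have h6 : 0 < (x ^ (s * D))⁻¹ := by positivity
  have h7 : C3 * C4 / x < 1 := by rw [div_lt_one hx0]; exact hxC3
  nlinarith

end Pool.Agent.X142.DN
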