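import Mathlib
import Pool.Agent.X142.DN.Short

/-!
# Counting near algebraic values of `lam * r ^ θ` at rational numbers `r`
-/

set_option autoImplicit false

namespace Pool.Agent.X142.DN

open Polynomial Finset

lemma NearAlg.mono {d : ℕ} {H H' η η' ξ : ℝ} (h : NearAlg d H η ξ) (hH : H ≤ H') (hη : η ≤ η') :
    NearAlg d H' η' ξ := by
  obtain ⟨Q, h1, h2, h3, h4, h5⟩ := h
  exact ⟨Q, h1, h2, h3, fun i => (h4 i).trans hH, h5.trans hη⟩

lemma Gap.mono {θ : ℝ} {D D' : ℕ} {Δ Δ' : ℝ} (h : Gap θ D Δ) (hD : D' ≤ D) (hΔ : 0 < Δ)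
    (hΔ' : Δ ≤ Δ') : Gap θ D' Δ' := by
  intro i j hi hj hij
  have hD' : (D' : ℤ) ≤ D := by exact_mod_cast hD
  exact (one_div_le_one_div_of_le hΔ hΔ').trans (h i j (hi.trans hD') (hj.trans hD') hij)

lemma Gap.neg {θ : ℝ} {D : ℕ} {Δ : ℝ} (h : Gap θ D Δ) : Gap (-θ) D Δ := by
  intro i j hi hj hij
  have h1 := h i (-j) hi (by rwa [abs_neg]) (by
    rintro ⟨h1, h2⟩
    exact hij ⟨h1, by omega⟩)
  have h2 : (i : ℝ) + θ * ((-j : ℤ) : ℝ) = i + -θ * j := by push_cast; ring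
  rwa [h2] at h1

/-- the trivial bound -/
lemma card_le_sq (X : ℕ) (S : Finset ℚ) (hS : ∀ r ∈ S, 0 < r ∧ r.num ≤ X ∧ r.den ≤ X) :
    S.card ≤ X * X := by
  classical
  have h1 : S ⊆ (Finset.Icc 1 X ×ˢ Finset.Icc 1 X).image (fun p : ℕ × ℕ => (p.1 : ℚ) / p.2) := by
    intro r hr
    obtain ⟨h0, h1, h2⟩ := hS r hr
    have hnum : 0 < r.num := Rat.num_pos.2 h0
    refine Finset.mem_image.2 ⟨(r.num.toNat, r.den), ?_, ?_⟩
    · rw [Finset.mem_product, Finset.mem_Icc, Finset.mem_Icc]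
      have := r.den_pos
      refine ⟨⟨by simp only; omega, by simp only; omega⟩, ⟨by simp only; omega, h2⟩⟩
    · simp only
      have h3 : ((r.num.toNat : ℕ) : ℚ) = r.num := by
        have : ((r.num.toNat : ℕ) : ℤ) = r.num := Int.toNat_of_nonneg hnum.le
        exact_mod_cast this
      rw [h3]
      exact Rat.num_div_den r
  refine (Finset.card_le_card h1).trans (Finset.card_image_le.trans ?_)
  rw [Finset.card_product, Nat.card_Icc, Nat.add_sub_cancel]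

/-- the rational numbers `≥ 1` -/
theorem count_one (s d : ℕ) (hd : 1 ≤ d) (ε : ℝ) (hε : 0 < ε) : ∃ D : ℕ, ∀ G : ℕ, ∃ w : ℕ, ∃ C : ℝ,
    0 < C ∧ ∀ X : ℕ, 1 ≤ X → ∀ θ : ℝ, |θ| ≤ s → Gap θ D ((X : ℝ) ^ G) →
      ∀ lam : ℝ, ((X : ℝ) ^ s)⁻¹ ≤ |lam| → |lam| ≤ (X : ℝ) ^ s → ∀ S : Finset ℚ,
      (∀ r ∈ S, 1 ≤ r ∧ r.num ≤ X ∧
        NearAlg d ((X : ℝ) ^ s) (((X : ℝ) ^ w)⁻¹) (lam * (r : ℝ) ^ θ)) →
      (S.card : ℝ) ≤ C * (X : ℝ) ^ ε := by
  classical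
  set E : ℕ := ⌈2 / ε⌉₊ with hE
  have hE1 : 1 ≤ E := Nat.one_le_iff_ne_zero.2 (by
    rw [hE]
    exact (Nat.ceil_pos.2 (by positivity)).ne')
  have hEr : (1 : ℝ) ≤ E := by exact_mod_cast hE1
  have hE2 : (1 : ℝ) / E ≤ ε / 2 := by
    have h1 : 2 / ε ≤ (E : ℝ) := Nat.le_ceil _
    rw [div_le_div_iff₀ (by linarith) (by norm_num)]
    rw [div_le_iff₀ hε] at h1
    linarith
  obtain ⟨D, L, hDL⟩ := short s d E hd hE1
  refine ⟨D, fun G => ?_⟩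
  obtain ⟨w, X0, hshort⟩ := hDL G
  refine ⟨w, L * (8 / ε + 2) + (X0 + 2) * (X0 + 2), by positivity, ?_⟩
  intro X hX θ hθ hgap lam hlam1 hlam2 S hS
  have hXr : (1 : ℝ) ≤ X := by exact_mod_cast hX
  have hX0r : (0 : ℝ) < X := by linarith
  have hXε : 1 ≤ (X : ℝ) ^ ε := Real.one_le_rpow hXr hε.le
  have hL0 : (0 : ℝ) ≤ L := Nat.cast_nonneg _
  have hden : ∀ r ∈ S, r.den ≤ X ∧ 0 < r ∧ (r : ℝ) ≤ X := by
    intro r hr
    obtain ⟨h1, h2, _⟩ := hS r hr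
    have h0 : 0 < r := by linarith
    have h3 : (r.den : ℚ) ≤ r.num := by
      have h2 := Rat.num_div_den r
      have h3 : (0 : ℚ) < r.den := by exact_mod_cast r.den_pos
      rw [← h2, le_div_iff₀ h3, one_mul] at h1
      exact h1
    have h4 : (r.den : ℤ) ≤ r.num := by exact_mod_cast h3
    have h5 : (r : ℝ) = r.num / r.den := by exact_mod_cast (Rat.num_div_den r).symm
    have h6 : (1 : ℝ) ≤ r.den := by exact_mod_cast r.den_pos
    have h7 : (0 : ℝ) ≤ r.num := by exact_mod_cast Rat.num_nonneg.2 h0.le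
    have h8 : ((r.num : ℤ) : ℝ) ≤ (((X : ℕ) : ℤ) : ℝ) := Int.cast_le.2 h2
    rw [Int.cast_natCast] at h8
    refine ⟨by omega, h0, ?_⟩
    rw [h5]
    exact (div_le_self h7 h6).trans h8
  by_cases hXX : X < X0 + 2
  · have h1 : S.card ≤ X * X := card_le_sq X S fun r hr =>
      ⟨(hden r hr).2.1, (hS r hr).2.1, (hden r hr).1⟩
    have h3 : (S.card : ℝ) ≤ (X0 + 2) * (X0 + 2) := by
      have : S.card ≤ (X0 + 2) * (X0 + 2) := by nlinarith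
      exact_mod_cast this
    have h4 : (0 : ℝ) ≤ L * (8 / ε + 2) := by positivity
    have h5 : (0 : ℝ) ≤ ((X0 : ℝ) + 2) * (X0 + 2) := by positivity
    nlinarith
  push Not at hXX
  have hX2 : (2 : ℝ) ≤ X := by
    have : 2 ≤ X := by omega
    exact_mod_cast this
  set J : ℕ := ⌈(X : ℝ) ^ ((E : ℝ)⁻¹)⌉₊ with hJ
  have hXE : 1 ≤ (X : ℝ) ^ ((E : ℝ)⁻¹) := Real.one_le_rpow hXr (by positivity)
  have hJ0 : (X : ℝ) ^ ((E : ℝ)⁻¹) ≤ J := Nat.le_ceil _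
  have hJ1 : 1 ≤ J := by
    have : (1 : ℝ) ≤ J := hXE.trans hJ0
    exact_mod_cast this
  have hJr : (1 : ℝ) ≤ J := by exact_mod_cast hJ1
  have hJ2 : (J : ℝ) ≤ 2 * (X : ℝ) ^ (ε / 2) := by
    have h1 : (J : ℝ) < (X : ℝ) ^ ((E : ℝ)⁻¹) + 1 := Nat.ceil_lt_add_one (by positivity)
    have h2 : (X : ℝ) ^ ((E : ℝ)⁻¹) ≤ (X : ℝ) ^ (ε / 2) :=
      Real.rpow_le_rpow_of_exponent_le hXr (by rw [← one_div]; exact hE2)
    linarith
  have hJE : X ≤ J ^ E := by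
    have h1 : ((X : ℝ) ^ ((E : ℝ)⁻¹)) ^ E ≤ (J : ℝ) ^ E :=
      pow_le_pow_left₀ (by positivity) hJ0 E
    rw [Real.rpow_inv_natCast_pow hX0r.le (by omega)] at h1
    exact_mod_cast h1
  set ρ : ℝ := 1 + 1 / J with hρ
  have hJinv : 0 < 1 / (J : ℝ) := by positivity
  have hr1 : 1 < ρ := by rw [hρ]; linarith
  have hlogr : 0 < Real.log ρ := Real.log_pos hr1
  have hlogr2 : 1 / (2 * (J : ℝ)) ≤ Real.log ρ := by
    have h1 := Real.one_sub_inv_le_log_of_pos (by linarith : 0 < ρ)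
    refine le_trans ?_ h1
    rw [hρ]
    have h2 : 1 - (1 + 1 / (J : ℝ))⁻¹ = 1 / (J + 1) := by
      field_simp
      ring
    rw [h2]
    apply one_div_le_one_div_of_le (by positivity)
    linarith
  set f : ℚ → ℕ := fun n => ⌊Real.log n / Real.log ρ⌋₊ with hf
  set N : ℕ := ⌊2 * J * Real.log X⌋₊ + 1 with hN
  have hmaps : ∀ n ∈ S, f n ∈ Finset.range N := by
    intro n hn
    rw [Finset.mem_range, hN, Nat.lt_succ_iff, hf]
    apply Nat.floor_le_floor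
    have hn1 : (1 : ℝ) ≤ n := by exact_mod_cast (hS n hn).1
    have hn2 : (n : ℝ) ≤ X := (hden n hn).2.2
    have h1 : Real.log n ≤ Real.log X := Real.log_le_log (by linarith) hn2
    have h2 : 0 ≤ Real.log X := Real.log_nonneg hXr
    rw [div_le_iff₀ hlogr]
    have h3 : 1 ≤ 2 * (J : ℝ) * Real.log ρ := by
      rw [div_le_iff₀ (by positivity)] at hlogr2
      linarith
    nlinarith
  have hfib : ∀ k ∈ Finset.range N, (S.filter (fun n => f n = k)).card ≤ L := by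
    intro k _
    by_cases hemp : (S.filter (fun n => f n = k)) = ∅
    · rw [hemp]; simp
    obtain ⟨n0, hn0⟩ := Finset.nonempty_iff_ne_empty.2 hemp
    have hbd : ∀ n ∈ S.filter (fun n => f n = k), ρ ^ k ≤ n ∧ (n : ℝ) ≤ ρ ^ k * ρ := by
      intro n hn
      obtain ⟨hnS, hnk⟩ := Finset.mem_filter.1 hn
      have hn1 : (1 : ℝ) ≤ n := by exact_mod_cast (hS n hnS).1
      have h0 : 0 ≤ Real.log n / Real.log ρ := div_nonneg (Real.log_nonneg hn1) hlogr.le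
      have h1 := Nat.floor_le h0
      have h2 := Nat.lt_floor_add_one (Real.log n / Real.log ρ)
      have h3 : ⌊Real.log n / Real.log ρ⌋₊ = k := hnk
      rw [h3] at h1 h2
      rw [le_div_iff₀ hlogr] at h1
      rw [div_lt_iff₀ hlogr] at h2
      constructor
      · rw [← Real.log_le_log_iff (by positivity) (by linarith), Real.log_pow]
        exact h1
      · rw [← Real.log_le_log_iff (by linarith) (by positivity), ← pow_succ, Real.log_pow]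
        push_cast
        exact h2.le
    have h1 := hbd n0 hn0
    have hn0X : (n0 : ℝ) ≤ X := (hden n0 (Finset.mem_filter.1 hn0).1).2.2
    refine (hshort X (by omega) θ hθ hgap lam hlam1 hlam2 J hJ1 hJE (ρ ^ k) (one_le_pow₀ hr1.le)
      (h1.1.trans hn0X) (S.filter (fun n => f n = k)) ?_).le
    intro n hn
    obtain ⟨hnS, hnk⟩ := Finset.mem_filter.1 hn
    obtain ⟨ha, hb, hc⟩ := hS n hnS
    obtain ⟨hd1, hd2⟩ := hbd n hn
    exact ⟨ha, hb, hd1, hd2, hc⟩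
  have hcard := Finset.card_le_mul_card_image_of_maps_to hmaps L hfib
  rw [Finset.card_range] at hcard
  have hlogX : Real.log X ≤ (X : ℝ) ^ (ε / 2) / (ε / 2) :=
    Real.log_le_rpow_div hX0r.le (by positivity)
  have hN2 : (N : ℝ) ≤ 8 / ε * (X : ℝ) ^ ε + 1 := by
    have h1 : (⌊2 * J * Real.log X⌋₊ : ℝ) ≤ 2 * J * Real.log X :=
      Nat.floor_le (by have := Real.log_nonneg hXr; positivity)
    have h2 : 2 * (J : ℝ) * Real.log X ≤ 2 * (2 * (X : ℝ) ^ (ε / 2)) *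
        ((X : ℝ) ^ (ε / 2) / (ε / 2)) := by
      have := Real.log_nonneg hXr
      gcongr
    have h3 : 2 * (2 * (X : ℝ) ^ (ε / 2)) * ((X : ℝ) ^ (ε / 2) / (ε / 2)) =
        8 / ε * (X : ℝ) ^ ε := by
      have h4 : (X : ℝ) ^ ε = (X : ℝ) ^ (ε / 2) * (X : ℝ) ^ (ε / 2) := by
        rw [← Real.rpow_add hX0r]
        ring_nf
      rw [h4]
      field_simp
      ring
    rw [hN]
    push_cast
    linarith
  have h5 : (S.card : ℝ) ≤ L * N := by exact_mod_cast hcard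
  have h6 : (L : ℝ) * N ≤ L * (8 / ε * (X : ℝ) ^ ε + 1) := mul_le_mul_of_nonneg_left hN2 hL0
  have h7 : (0 : ℝ) ≤ ((X0 : ℝ) + 2) * (X0 + 2) := by positivity
  have h8 : (0 : ℝ) ≤ L * (8 / ε) := by positivity
  nlinarith [mul_nonneg hL0 (by linarith : (0 : ℝ) ≤ (X : ℝ) ^ ε - 1)]

/-- For all `s, d` and `ε > 0` there is `D` such that for all `G` there are `w, C` with: for all
`X ≥ 1`, all `|θ| ≤ s` with `|i + θ j| ≥ X^{-G}` for the integers `|i|, |j| ≤ D`, not both zero, and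
all `lam` with `X^{-s} ≤ |lam| ≤ X^s` at most `C X^ε` positive rational numbers `r` with numerator
and denominator at most `X` have `lam r^θ` close (`X^{-w}`) to algebraic of degree `≤ d` and height
`≤ X^s`. -/
theorem count (s d : ℕ) (hd : 1 ≤ d) (ε : ℝ) (hε : 0 < ε) : ∃ D : ℕ, ∀ G : ℕ, ∃ w : ℕ, ∃ C : ℝ,
    0 < C ∧ ∀ X : ℕ, 1 ≤ X → ∀ θ : ℝ, |θ| ≤ s → Gap θ D ((X : ℝ) ^ G) →
      ∀ lam : ℝ, ((X : ℝ) ^ s)⁻¹ ≤ |lam| → |lam| ≤ (X : ℝ) ^ s → ∀ S : Finset ℚ,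
      (∀ r ∈ S, 0 < r ∧ r.num ≤ X ∧ r.den ≤ X ∧
        NearAlg d ((X : ℝ) ^ s) (((X : ℝ) ^ w)⁻¹) (lam * (r : ℝ) ^ θ)) →
      (S.card : ℝ) ≤ C * (X : ℝ) ^ ε := by
  classical
  obtain ⟨D, hD⟩ := count_one s d hd ε hε
  refine ⟨D, fun G => ?_⟩
  obtain ⟨w, C, hC, h⟩ := hD G
  refine ⟨w, 2 * C, by positivity, ?_⟩
  intro X hX θ hθ hgap lam hlam1 hlam2 S hS
  have h1 := h X hX θ hθ hgap lam hlam1 hlam2 (S.filter (fun r => 1 ≤ r)) (by
    intro r hr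
    obtain ⟨hrS, hr1⟩ := Finset.mem_filter.1 hr
    exact ⟨hr1, (hS r hrS).2.1, (hS r hrS).2.2.2⟩)
  have h2 := h X hX (-θ) (by rwa [abs_neg]) hgap.neg lam hlam1 hlam2
    ((S.filter (fun r => ¬ 1 ≤ r)).image (fun r => r⁻¹)) (by
    intro t ht
    obtain ⟨r, hr, rfl⟩ := Finset.mem_image.1 ht
    obtain ⟨hrS, hr1⟩ := Finset.mem_filter.1 hr
    obtain ⟨h0, hn, hd, hna⟩ := hS r hrS
    push Not at hr1
    have hr0 : (0 : ℝ) < r := by exact_mod_cast h0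
    refine ⟨(one_le_inv₀ h0).2 hr1.le, ?_, ?_⟩
    · have h3 : (r⁻¹).num = r.den := by
        rw [Rat.inv_def, Rat.divInt_eq_div]
        have hnum : 0 < r.num := Rat.num_pos.2 h0
        have h4 : ((r.den : ℤ) : ℚ) / (r.num : ℚ) = Rat.divInt r.den r.num := by
          rw [Rat.divInt_eq_div]
        rw [Rat.num_div_eq_of_coprime hnum]
        rw [Nat.Coprime, Nat.gcd_comm]
        exact r.reduced
      rw [h3]
      exact_mod_cast hd
    · have h3 : lam * (((r⁻¹ : ℚ)) : ℝ) ^ (-θ) = lam * (r : ℝ) ^ θ := by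
        push_cast
        rw [Real.inv_rpow hr0.le, Real.rpow_neg hr0.le, inv_inv]
      rw [h3]
      exact hna)
  rw [Finset.card_image_of_injective _ inv_injective] at h2
  have h3 := Finset.card_filter_add_card_filter_not (s := S) (fun r : ℚ => 1 ≤ r)
  have h4 : (S.card : ℝ) = ((S.filter (fun r : ℚ => 1 ≤ r)).card : ℝ) +
      ((S.filter (fun r : ℚ => ¬ 1 ≤ r)).card : ℝ) := by exact_mod_cast h3.symm
  rw [h4]
  linarith

/-- the set of integers `i + θ j` with `|i|, |j| ≤ D` has a gap when `θ` is irrational -/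
lemma exists_gap {θ : ℝ} (hθ : Irrational θ) (D : ℕ) : ∃ Δ : ℕ, 1 ≤ Δ ∧ Gap θ D Δ := by
  classical
  set I : Finset (ℤ × ℤ) := (Finset.Icc (-(D : ℤ)) D ×ˢ Finset.Icc (-(D : ℤ)) D).filter
    (fun p => ¬ (p.1 = 0 ∧ p.2 = 0)) with hI
  have hne : ∀ p ∈ I, (p.1 : ℝ) + θ * (p.2 : ℝ) ≠ 0 := by
    intro p hp h0
    obtain ⟨_, hp2⟩ := Finset.mem_filter.1 hp
    by_cases h2 : p.2 = 0
    · rw [h2] at h0
      simp at h0
      exact hp2 ⟨h0, h2⟩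
    · apply hθ
      refine ⟨-(p.1 : ℚ) / p.2, ?_⟩
      have h3 : (p.2 : ℝ) ≠ 0 := by exact_mod_cast h2
      push_cast
      rw [div_eq_iff h3]
      linarith
  obtain ⟨Δ, hΔ⟩ := exists_nat_ge (∑ p ∈ I, 1 / |(p.1 : ℝ) + θ * (p.2 : ℝ)|)
  refine ⟨Δ + 1, by omega, ?_⟩
  intro i j hi hj hij
  have hmem : (i, j) ∈ I := by
    rw [hI, Finset.mem_filter, Finset.mem_product, Finset.mem_Icc, Finset.mem_Icc]
    exact ⟨⟨abs_le.1 hi, abs_le.1 hj⟩, hij⟩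
  have h1 : 1 / |(i : ℝ) + θ * (j : ℝ)| ≤ ∑ p ∈ I, 1 / |(p.1 : ℝ) + θ * (p.2 : ℝ)| :=
    Finset.single_le_sum (f := fun p : ℤ × ℤ => 1 / |(p.1 : ℝ) + θ * (p.2 : ℝ)|)
      (fun p _ => by positivity) hmem
  have h2 : 0 < |(i : ℝ) + θ * (j : ℝ)| := abs_pos.2 (hne _ hmem)
  have h3 : 1 / |(i : ℝ) + θ * (j : ℝ)| ≤ ((Δ + 1 : ℕ) : ℝ) := by
    push_cast
    linarith
  rw [div_le_iff₀ h2] at h3
  rw [div_le_iff₀ (by positivity)]
  linarith

/-- a fixed irrational exponent -/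
theorem count_irr {θ : ℝ} (hθ : Irrational θ) (d : ℕ) (hd : 1 ≤ d) (c ε : ℝ) (hε : 0 < ε) :
    ∃ w C : ℝ, 0 ≤ w ∧ 0 < C ∧ ∀ X : ℕ, 1 ≤ X → ∀ lam : ℝ, (X : ℝ) ^ (-c) ≤ |lam| →
      |lam| ≤ (X : ℝ) ^ c → ∀ S : Finset ℚ,
      (∀ r ∈ S, 0 < r ∧ r.num ≤ X ∧ r.den ≤ X ∧
        NearAlg d ((X : ℝ) ^ c) ((X : ℝ) ^ (-w)) (lam * (r : ℝ) ^ θ)) →
      (S.card : ℝ) ≤ C * (X : ℝ) ^ ε := by
  classical
  set s : ℕ := ⌈|θ|⌉₊ + ⌈c⌉₊ with hs
  have hs1 : |θ| ≤ s := by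
    rw [hs]; push_cast
    have := Nat.le_ceil |θ|
    have h2 : (0 : ℝ) ≤ (⌈c⌉₊ : ℝ) := Nat.cast_nonneg _
    linarith
  have hs2 : c ≤ s := by
    rw [hs]; push_cast
    have := Nat.le_ceil c
    have h2 : (0 : ℝ) ≤ (⌈|θ|⌉₊ : ℝ) := Nat.cast_nonneg _
    linarith
  obtain ⟨D, hD⟩ := count s d hd ε hε
  obtain ⟨w, C, hC, h⟩ := hD 1
  obtain ⟨Δ, hΔ, hgap⟩ := exists_gap hθ D
  refine ⟨w, C + Δ * Δ, Nat.cast_nonneg _, by positivity, ?_⟩
  intro X hX lam hlam1 hlam2 S hS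
  have hXr : (1 : ℝ) ≤ X := by exact_mod_cast hX
  have hX0r : (0 : ℝ) < X := by linarith
  have hXε : 1 ≤ (X : ℝ) ^ ε := Real.one_le_rpow hXr hε.le
  by_cases hXΔ : X < Δ
  · have h1 : S.card ≤ X * X := card_le_sq X S fun r hr =>
      ⟨(hS r hr).1, (hS r hr).2.1, (hS r hr).2.2.1⟩
    have h3 : (S.card : ℝ) ≤ Δ * Δ := by
      have : S.card ≤ Δ * Δ := by nlinarith
      exact_mod_cast this
    have h5 : (0 : ℝ) ≤ (Δ : ℝ) * Δ := by positivity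
    nlinarith
  push Not at hXΔ
  have hΔr : (Δ : ℝ) ≤ (X : ℝ) ^ 1 := by rw [pow_one]; exact_mod_cast hXΔ
  have hΔ0 : (0 : ℝ) < Δ := by exact_mod_cast hΔ
  have h1 := h X hX θ hs1 (hgap.mono le_rfl hΔ0 hΔr) lam
    (by
      refine le_trans ?_ hlam1
      rw [← Real.rpow_natCast, ← Real.rpow_neg hX0r.le]
      exact Real.rpow_le_rpow_of_exponent_le hXr (by linarith))
    (by
      refine hlam2.trans ?_
      rw [← Real.rpow_natCast]
      exact Real.rpow_le_rpow_of_exponent_le hXr hs2) S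
    (by
      intro r hr
      obtain ⟨h1, h2, h3, h4⟩ := hS r hr
      refine ⟨h1, h2, h3, h4.mono ?_ ?_⟩
      · rw [← Real.rpow_natCast]
        exact Real.rpow_le_rpow_of_exponent_le hXr hs2
      · rw [Real.rpow_neg hX0r.le, Real.rpow_natCast])
  have h2 : (0 : ℝ) ≤ (Δ : ℝ) * Δ * (X : ℝ) ^ ε := by positivity
  nlinarith

end Pool.Agent.X142.DN
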