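import Mathlib
import Pool.Agent.X142.DN.Count

/-!
# Two by two matrices of logarithms of rational numbers
-/

set_option autoImplicit false

namespace Pool.Agent.X142.DN

open Polynomial Finset

/-- positive rational numbers with numerator and denominator at most `X` -/
def Ht (X : ℕ) (r : ℚ) : Prop := 0 < r ∧ r.num ≤ X ∧ r.den ≤ X

lemma nearAlg_of_rat (r : ℚ) (ξ H η : ℝ) (h1 : (r.den : ℝ) ≤ H) (h2 : |(r.num : ℝ)| ≤ H)
    (h3 : (r.den : ℝ) * |ξ - r| ≤ η) : NearAlg 1 H η ξ := by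
  have hden : ((r.den : ℤ)) ≠ 0 := by exact_mod_cast r.den_nz
  have hH : 0 ≤ H := (Nat.cast_nonneg _).trans h1
  refine ⟨C (r.den : ℤ) * X + C (-r.num), ?_, ?_, ?_, ?_, ?_⟩
  · apply irreducible_C_mul_X_add_C hden
    have h : IsCoprime (r.den : ℤ) (-r.num) := by
      rw [IsCoprime.neg_right_iff, Int.isCoprime_iff_gcd_eq_one]
      have := r.reduced
      rw [Int.gcd_comm]
      simpa [Int.gcd, Nat.Coprime] using this
    exact h.isRelPrime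
  · rw [natDegree_linear hden]
  · rw [natDegree_linear hden]
  · intro i
    rw [coeff_add, coeff_C_mul, coeff_X, coeff_C]
    rcases i with _ | _ | i
    · simpa using h2
    · simpa using h1
    · simpa using hH
  · have h4 : aeval ξ (C (r.den : ℤ) * X + C (-r.num)) = (r.den : ℝ) * (ξ - r) := by
      have h5 : (r : ℝ) = r.num / r.den := by exact_mod_cast (Rat.num_div_den r).symm
      have h6 : (r.den : ℝ) ≠ 0 := by exact_mod_cast r.den_nz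
      rw [h5]
      simp
      field_simp
      ring
    rw [h4, abs_mul, Nat.abs_cast]
    exact h3

lemma Ht.rep {X : ℕ} {r : ℚ} (h : Ht X r) : ∃ P Q : ℕ, 1 ≤ P ∧ P ≤ X ∧ 1 ≤ Q ∧ Q ≤ X ∧
    (r : ℝ) = (P : ℝ) / Q := by
  obtain ⟨h0, h1, h2⟩ := h
  have hnum : 0 < r.num := Rat.num_pos.2 h0
  refine ⟨r.num.toNat, r.den, by omega, by omega, r.den_pos, h2, ?_⟩
  have h3 : ((r.num.toNat : ℕ) : ℝ) = r.num := by
    have : ((r.num.toNat : ℕ) : ℤ) = r.num := Int.toNat_of_nonneg hnum.le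
    exact_mod_cast this
  rw [h3]
  exact_mod_cast (Rat.num_div_den r).symm

lemma abs_log_ge_aux {P Q : ℕ} {N : ℝ} (hQ : 1 ≤ Q) (hPN : (P : ℝ) ≤ N) (hlt : Q < P) :
    1 / N ≤ Real.log ((P : ℝ) / Q) := by
  have hQ0 : (0 : ℝ) < Q := by exact_mod_cast hQ
  have hP0 : (0 : ℝ) < P := by exact_mod_cast (by omega : 0 < P)
  have h1 := Real.one_sub_inv_le_log_of_pos (by positivity : 0 < (P : ℝ) / Q)
  refine le_trans ?_ h1
  rw [inv_div]
  have h2 : 1 - (Q : ℝ) / P = (P - Q) / P := by field_simp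
  rw [h2]
  have h3 : (1 : ℝ) ≤ P - Q := by
    have : (Q : ℝ) + 1 ≤ P := by exact_mod_cast hlt
    linarith
  calc 1 / N ≤ 1 / P := one_div_le_one_div_of_le hP0 hPN
    _ ≤ (P - Q) / P := div_le_div_of_nonneg_right h3 hP0.le

lemma abs_log_ge {P Q : ℕ} {N : ℝ} (hP : 1 ≤ P) (hQ : 1 ≤ Q) (hPN : (P : ℝ) ≤ N)
    (hQN : (Q : ℝ) ≤ N) (hne : P ≠ Q) : 1 / N ≤ |Real.log ((P : ℝ) / Q)| := by
  rcases lt_or_gt_of_ne hne with h | h
  · have h1 := abs_log_ge_aux hP hQN h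
    have h2 : Real.log ((P : ℝ) / Q) = -Real.log ((Q : ℝ) / P) := by
      rw [← Real.log_inv, inv_div]
    rw [h2, abs_neg]
    exact h1.trans (le_abs_self _)
  · exact (abs_log_ge_aux hQ hPN h).trans (le_abs_self _)

/-- lower bound for `|log r|` -/
lemma Ht.log_ge {X : ℕ} {r : ℚ} (h : Ht X r) (hr : r ≠ 1) : 1 / (X : ℝ) ≤ |Real.log r| := by
  obtain ⟨P, Q, hP, hPX, hQ, hQX, hrep⟩ := h.rep
  rw [hrep]
  refine abs_log_ge hP hQ (by exact_mod_cast hPX) (by exact_mod_cast hQX) ?_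
  rintro rfl
  apply hr
  have h1 : (P : ℝ) ≠ 0 := by exact_mod_cast (by omega : P ≠ 0)
  rw [div_self h1] at hrep
  exact_mod_cast hrep

/-- lower bound for `|log r - log r'|` -/
lemma Ht.log_sub_ge {X : ℕ} {r r' : ℚ} (h : Ht X r) (h' : Ht X r') (hr : r ≠ r') :
    1 / (X : ℝ) ^ 2 ≤ |Real.log r - Real.log r'| := by
  obtain ⟨P, Q, hP, hPX, hQ, hQX, hrep⟩ := h.rep
  obtain ⟨P', Q', hP', hPX', hQ', hQX', hrep'⟩ := h'.rep
  have hQ0 : (0 : ℝ) < Q := by exact_mod_cast hQ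
  have hP0 : (0 : ℝ) < P := by exact_mod_cast hP
  have hQ0' : (0 : ℝ) < Q' := by exact_mod_cast hQ'
  have hP0' : (0 : ℝ) < P' := by exact_mod_cast hP'
  rw [← Real.log_div (by rw [hrep]; positivity) (by rw [hrep']; positivity)]
  have h1 : (r : ℝ) / r' = ((P * Q' : ℕ) : ℝ) / ((Q * P' : ℕ) : ℝ) := by
    rw [hrep, hrep']
    push_cast
    field_simp
  have hX2 : ∀ u v : ℕ, u ≤ X → v ≤ X → ((u * v : ℕ) : ℝ) ≤ (X : ℝ) ^ 2 := by
    intro u v hu hv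
    have : u * v ≤ X * X := Nat.mul_le_mul hu hv
    rw [sq]
    exact_mod_cast this
  rw [h1]
  refine abs_log_ge (Nat.mul_pos hP hQ') (Nat.mul_pos hQ hP') (hX2 _ _ hPX hQX') (hX2 _ _ hQX hPX') ?_
  intro heq
  apply hr
  have h2 : (r : ℝ) / r' = 1 := by
    rw [h1, heq, div_self]
    exact_mod_cast (Nat.mul_pos hQ hP').ne'
  have h3 : (r' : ℝ) ≠ 0 := by rw [hrep']; positivity
  rw [div_eq_one_iff_eq h3] at h2
  exact_mod_cast h2

lemma Ht.le {X : ℕ} {r : ℚ} (h : Ht X r) : (r : ℝ) ≤ X ∧ 1 / (X : ℝ) ≤ r := by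
  obtain ⟨P, Q, hP, hPX, hQ, hQX, hrep⟩ := h.rep
  have hQ0 : (0 : ℝ) < Q := by exact_mod_cast hQ
  have hQ1 : (1 : ℝ) ≤ Q := by exact_mod_cast hQ
  have hP1 : (1 : ℝ) ≤ P := by exact_mod_cast hP
  have hPX' : (P : ℝ) ≤ X := by exact_mod_cast hPX
  have hQX' : (Q : ℝ) ≤ X := by exact_mod_cast hQX
  rw [hrep]
  constructor
  · rw [div_le_iff₀ hQ0]
    nlinarith
  · rw [div_le_div_iff₀ (by linarith) hQ0]
    nlinarith

lemma Ht.abs_log_le {X : ℕ} (hX : 1 ≤ X) {r : ℚ} (h : Ht X r) : |Real.log r| ≤ X := by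
  have hXr : (1 : ℝ) ≤ X := by exact_mod_cast hX
  obtain ⟨h1, h2⟩ := h.le
  have h0 : (0 : ℝ) < r := by exact_mod_cast h.1
  have h3 : Real.log r ≤ Real.log X := Real.log_le_log h0 h1
  have h4 : -Real.log X ≤ Real.log r := by
    rw [← Real.log_inv, ← one_div]
    exact Real.log_le_log (by positivity) h2
  have h5 : Real.log X ≤ X := (Real.log_le_sub_one_of_pos (by linarith)).trans (by linarith)
  rw [abs_le]
  constructor <;> linarith

lemma Ht.zpow {X : ℕ} (hX : 1 ≤ X) {r : ℚ} (h : Ht X r) {D : ℕ} (i : ℤ) (hi : |i| ≤ D) :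
    ∃ P Q : ℕ, 1 ≤ P ∧ P ≤ X ^ D ∧ 1 ≤ Q ∧ Q ≤ X ^ D ∧ (r : ℝ) ^ i = (P : ℝ) / Q := by
  obtain ⟨P, Q, hP, hPX, hQ, hQX, hrep⟩ := h.rep
  have hle : ∀ (u n : ℕ), u ≤ X → n ≤ D → u ^ n ≤ X ^ D := fun u n hu hn =>
    (Nat.pow_le_pow_left hu n).trans (Nat.pow_le_pow_right hX hn)
  rcases Int.eq_nat_or_neg i with ⟨n, rfl | rfl⟩
  · have hn : n ≤ D := by
      rw [Nat.abs_cast] at hi
      exact_mod_cast hi
    refine ⟨P ^ n, Q ^ n, Nat.one_le_pow _ _ hP, hle _ _ hPX hn, Nat.one_le_pow _ _ hQ,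
      hle _ _ hQX hn, ?_⟩
    rw [zpow_natCast, hrep, div_pow]
    push_cast
    rfl
  · have hn : n ≤ D := by
      rw [abs_neg, Nat.abs_cast] at hi
      exact_mod_cast hi
    refine ⟨Q ^ n, P ^ n, Nat.one_le_pow _ _ hQ, hle _ _ hQX hn, Nat.one_le_pow _ _ hP,
      hle _ _ hPX hn, ?_⟩
    rw [zpow_neg, zpow_natCast, hrep, div_pow, inv_div]
    push_cast
    rfl

/-- no multiplicative relation with small exponents -/
def NoRel (D : ℕ) (a b : ℚ) : Prop :=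
  ∀ u v : ℤ, |u| ≤ D → |v| ≤ D → ¬ (u = 0 ∧ v = 0) → a ^ u * b ^ v ≠ 1

lemma NoRel.mono {D D' : ℕ} (hD : D' ≤ D) {a b : ℚ} (h : NoRel D a b) : NoRel D' a b := by
  have hD' : (D' : ℤ) ≤ D := by exact_mod_cast hD
  exact fun u v hu hv huv => h u v (hu.trans hD') (hv.trans hD') huv

lemma NoRel.symm {D : ℕ} {a b : ℚ} (h : NoRel D a b) : NoRel D b a := by
  intro u v hu hv huv h1
  exact h v u hv hu (fun h2 => huv ⟨h2.2, h2.1⟩) (by rw [mul_comm]; exact h1)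

lemma NoRel.ne_one {D : ℕ} (hD : 1 ≤ D) {a b : ℚ} (h : NoRel D a b) : a ≠ 1 := by
  rintro rfl
  refine h 1 0 ?_ ?_ ?_ ?_
  · rw [abs_one]; exact_mod_cast hD
  · simp
  · simp
  · simp

lemma gap_of_noRel {X : ℕ} (hX : 1 ≤ X) {a b : ℚ} (ha : Ht X a) (hb : Ht X b) {D : ℕ}
    (hD : 1 ≤ D) (h : NoRel D a b) :
    Gap (Real.log b / Real.log a) D ((X : ℝ) ^ (2 * D + 1)) := by
  have hXr : (1 : ℝ) ≤ X := by exact_mod_cast hX
  have hX0 : (0 : ℝ) < X := by linarith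
  have ha1 : a ≠ 1 := h.ne_one hD
  have hla : 1 / (X : ℝ) ≤ |Real.log a| := ha.log_ge ha1
  have hla0 : 0 < |Real.log (a : ℝ)| := lt_of_lt_of_le (by positivity) hla
  have hla' : Real.log (a : ℝ) ≠ 0 := abs_pos.1 hla0
  have har : (0 : ℝ) < a := by exact_mod_cast ha.1
  have hbr : (0 : ℝ) < b := by exact_mod_cast hb.1
  intro i j hi hj hij
  obtain ⟨P, Q, hP, hPX, hQ, hQX, hrep⟩ := ha.zpow hX i hi
  obtain ⟨P', Q', hP', hPX', hQ', hQX', hrep'⟩ := hb.zpow hX j hj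
  have h1 : (i : ℝ) + Real.log b / Real.log a * (j : ℝ) =
      Real.log ((a : ℝ) ^ i * (b : ℝ) ^ j) / Real.log a := by
    rw [Real.log_mul (zpow_pos har _).ne' (zpow_pos hbr _).ne', Real.log_zpow, Real.log_zpow]
    field_simp
  have h2 : (a : ℝ) ^ i * (b : ℝ) ^ j = ((P * P' : ℕ) : ℝ) / ((Q * Q' : ℕ) : ℝ) := by
    rw [hrep, hrep']
    push_cast
    field_simp
  have hle : ∀ u v : ℕ, u ≤ X ^ D → v ≤ X ^ D → ((u * v : ℕ) : ℝ) ≤ (X : ℝ) ^ (2 * D) := by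
    intro u v hu hv
    have h3 : u * v ≤ X ^ D * X ^ D := Nat.mul_le_mul hu hv
    rw [← pow_add, ← two_mul] at h3
    exact_mod_cast h3
  have h3 : 1 / (X : ℝ) ^ (2 * D) ≤ |Real.log ((a : ℝ) ^ i * (b : ℝ) ^ j)| := by
    rw [h2]
    refine abs_log_ge (Nat.mul_pos hP hP') (Nat.mul_pos hQ hQ') (hle _ _ hPX hPX')
      (hle _ _ hQX hQX') ?_
    intro heq
    have h4 : (a : ℝ) ^ i * (b : ℝ) ^ j = 1 := by
      rw [h2, heq, div_self]
      exact_mod_cast (Nat.mul_pos hQ hQ').ne'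
    exact h i j hi hj hij (by exact_mod_cast h4)
  rw [h1, abs_div]
  have h4 := ha.abs_log_le hX
  calc 1 / (X : ℝ) ^ (2 * D + 1) = (1 / (X : ℝ) ^ (2 * D)) / X := by
        rw [pow_succ, div_div]
    _ ≤ |Real.log ((a : ℝ) ^ i * (b : ℝ) ^ j)| / |Real.log a| :=
        div_le_div₀ (abs_nonneg _) h3 hla0 h4

/-- uniqueness of the last entry -/
lemma uniq {X : ℕ} {a c c' : ℚ} (ha : Ht X a) (ha1 : a ≠ 1) (hc : Ht X c) (hc' : Ht X c')
    {w : ℕ} (hw : 5 ≤ w) (h : |Real.log a| * |Real.log c - Real.log c'| ≤ 2 * ((X : ℝ) ^ w)⁻¹) :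
    c = c' := by
  by_contra hne
  have hX2 : 2 ≤ X := by
    by_contra hcon
    obtain ⟨P, Q, hP, hPX, hQ, hQX, hrep⟩ := ha.rep
    have h1 : P = 1 := by omega
    have h2 : Q = 1 := by omega
    rw [h1, h2] at hrep
    norm_num at hrep
    exact ha1 (by exact_mod_cast hrep)
  have hXr : (2 : ℝ) ≤ X := by exact_mod_cast hX2
  have hX0 : (0 : ℝ) < X := by linarith
  have h1 := ha.log_ge ha1
  have h2 := hc.log_sub_ge hc' hne
  have h3 : 1 / (X : ℝ) * (1 / (X : ℝ) ^ 2) ≤ |Real.log a| * |Real.log c - Real.log c'| :=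
    mul_le_mul h1 h2 (by positivity) (abs_nonneg _)
  have h4 : ((X : ℝ) ^ w)⁻¹ ≤ ((X : ℝ) ^ 5)⁻¹ :=
    inv_anti₀ (by positivity) (pow_le_pow_right₀ (by linarith) hw)
  have h5 : 1 / (X : ℝ) * (1 / (X : ℝ) ^ 2) ≤ 2 * ((X : ℝ) ^ 5)⁻¹ := h3.trans (h.trans (by linarith))
  have h6 : 1 / (X : ℝ) * (1 / (X : ℝ) ^ 2) = (X : ℝ) ^ 2 * ((X : ℝ) ^ 5)⁻¹ := by
    field_simp
  rw [h6] at h5
  have h7 : 0 < ((X : ℝ) ^ 5)⁻¹ := by positivity
  have h8 := le_of_mul_le_mul_right h5 h7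
  nlinarith

/-- the determinant -/
noncomputable def dt (a c b e : ℚ) : ℝ := Real.log a * Real.log e - Real.log c * Real.log b

/-- few second columns -/
theorem fiber (ε : ℝ) (hε : 0 < ε) : ∃ (D w : ℕ) (C : ℝ), 1 ≤ D ∧ 5 ≤ w ∧ 0 < C ∧
    ∀ X : ℕ, 1 ≤ X → ∀ a b : ℚ, Ht X a → Ht X b → NoRel D a b → ∀ T : Finset (ℚ × ℚ),
      (∀ p ∈ T, Ht X p.1 ∧ Ht X p.2 ∧ |dt a p.1 b p.2| ≤ ((X : ℝ) ^ w)⁻¹) →
      (T.card : ℝ) ≤ C * (X : ℝ) ^ ε := by
  classical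
  obtain ⟨D0, hD0⟩ := count 1 1 le_rfl ε hε
  set D : ℕ := D0 + 1 with hD
  obtain ⟨w0, C, hC, h⟩ := hD0 (2 * D + 1)
  refine ⟨D, w0 + 5, C, by omega, by omega, hC, ?_⟩
  intro X hX
  have hXr : (1 : ℝ) ≤ X := by exact_mod_cast hX
  have hX0 : (0 : ℝ) < X := by linarith
  -- the case of small ratio
  have main : ∀ a b : ℚ, Ht X a → Ht X b → NoRel D a b → |Real.log b| ≤ |Real.log a| →
      ∀ T : Finset (ℚ × ℚ), (∀ p ∈ T, Ht X p.1 ∧ Ht X p.2 ∧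
        |dt a p.1 b p.2| ≤ ((X : ℝ) ^ (w0 + 5))⁻¹) → (T.card : ℝ) ≤ C * (X : ℝ) ^ ε := by
    intro a b ha hb hab hle T hT
    have ha1 : a ≠ 1 := hab.ne_one (by omega)
    have hX2 : 2 ≤ X := by
      by_contra hcon
      obtain ⟨P, Q, hP, hPX, hQ, hQX, hrep⟩ := ha.rep
      have h1 : P = 1 := by omega
      have h2 : Q = 1 := by omega
      rw [h1, h2] at hrep
      norm_num at hrep
      exact ha1 (by exact_mod_cast hrep)
    have hX2r : (2 : ℝ) ≤ X := by exact_mod_cast hX2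
    have hla : 1 / (X : ℝ) ≤ |Real.log a| := ha.log_ge ha1
    have hla0 : 0 < |Real.log (a : ℝ)| := lt_of_lt_of_le (by positivity) hla
    have hla' : Real.log (a : ℝ) ≠ 0 := abs_pos.1 hla0
    set θ : ℝ := Real.log b / Real.log a with hθ
    have hθ1 : |θ| ≤ ((1 : ℕ) : ℝ) := by
      rw [hθ, abs_div, div_le_iff₀ hla0]
      push_cast
      linarith
    have hgap : Gap θ D0 ((X : ℝ) ^ (2 * D + 1)) :=
      (gap_of_noRel hX ha hb (by omega) hab).mono (by omega) (by positivity) le_rfl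
    have hinj : ∀ p ∈ T, ∀ p' ∈ T, p.1 = p'.1 → p = p' := by
      intro p hp p' hp' heq
      obtain ⟨h1, h2, h3⟩ := hT p hp
      obtain ⟨h1', h2', h3'⟩ := hT p' hp'
      refine Prod.ext heq (uniq ha ha1 h2 h2' (w := w0 + 5) (by omega) ?_)
      rw [← abs_mul]
      have h4 : Real.log a * (Real.log p.2 - Real.log p'.2) = dt a p.1 b p.2 - dt a p'.1 b p'.2 := by
        unfold dt
        rw [heq]
        ring
      rw [h4]
      refine (abs_sub _ _).trans ?_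
      linarith
    have hcardT : (T.image (fun p => p.1)).card = T.card :=
      Finset.card_image_of_injOn fun p hp p' hp' heq => hinj p hp p' hp' heq
    rw [← hcardT]
    refine h X hX θ hθ1 hgap 1 ?_ ?_ _ ?_
    · rw [abs_one]
      exact inv_le_one_of_one_le₀ (one_le_pow₀ hXr)
    · rw [abs_one]
      exact one_le_pow₀ hXr
    intro r hr
    obtain ⟨p, hp, rfl⟩ := Finset.mem_image.1 hr
    obtain ⟨h1, h2, h3⟩ := hT p hp
    refine ⟨h1.1, h1.2.1, h1.2.2, ?_⟩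
    rw [one_mul]
    have hp1 : (0 : ℝ) < p.1 := by exact_mod_cast h1.1
    have hp2 : (0 : ℝ) < p.2 := by exact_mod_cast h2.1
    obtain ⟨h2a, h2b⟩ := h2.le
    have hnum0 : (0 : ℝ) ≤ p.2.num := by exact_mod_cast Rat.num_nonneg.2 h2.1.le
    have hdenX : (p.2.den : ℝ) ≤ X := by exact_mod_cast h2.2.2
    have hnumX : ((p.2.num : ℤ) : ℝ) ≤ X := by
      have h4 : ((p.2.num : ℤ) : ℝ) ≤ (((X : ℕ) : ℤ) : ℝ) := Int.cast_le.2 h2.2.1
      rwa [Int.cast_natCast] at h4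
    refine nearAlg_of_rat p.2 _ _ _ (by rw [pow_one]; exact hdenX)
      (by rw [pow_one, abs_of_nonneg hnum0]; exact hnumX) ?_
    -- closeness
    set ξ : ℝ := (p.1 : ℝ) ^ θ with hξ
    have hξ0 : 0 < ξ := Real.rpow_pos_of_pos hp1 _
    have hlogξ : Real.log ξ = θ * Real.log p.1 := Real.log_rpow hp1 _
    have hδ : |Real.log ξ - Real.log p.2| ≤ ((X : ℝ) ^ (w0 + 4))⁻¹ := by
      have h4 : Real.log ξ - Real.log p.2 = -(dt a p.1 b p.2) / Real.log a := by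
        rw [hlogξ, hθ]
        unfold dt
        field_simp
        ring
      rw [h4, abs_div, abs_neg, div_le_iff₀ hla0]
      calc |dt a p.1 b p.2| ≤ ((X : ℝ) ^ (w0 + 5))⁻¹ := h3
        _ = ((X : ℝ) ^ (w0 + 4))⁻¹ * (1 / X) := by rw [pow_succ _ (w0 + 4), mul_inv]; ring
        _ ≤ ((X : ℝ) ^ (w0 + 4))⁻¹ * |Real.log a| := mul_le_mul_of_nonneg_left hla (by positivity)
    have hδ1 : ((X : ℝ) ^ (w0 + 4))⁻¹ ≤ 1 := inv_le_one_of_one_le₀ (one_le_pow₀ hXr)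
    have h4 : ξ - p.2 = p.2 * (Real.exp (Real.log ξ - Real.log p.2) - 1) := by
      rw [Real.exp_sub, Real.exp_log hξ0, Real.exp_log hp2]
      field_simp
    have h5 : |Real.exp (Real.log ξ - Real.log p.2) - 1| ≤ 2 * ((X : ℝ) ^ (w0 + 4))⁻¹ := by
      refine (Real.abs_exp_sub_one_le (hδ.trans hδ1)).trans ?_
      linarith
    rw [h4, abs_mul, abs_of_pos hp2]
    calc (p.2.den : ℝ) * ((p.2 : ℝ) * |Real.exp (Real.log ξ - Real.log p.2) - 1|) ≤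
          X * (X * (2 * ((X : ℝ) ^ (w0 + 4))⁻¹)) := by gcongr
      _ ≤ X * (X * (X * ((X : ℝ) ^ (w0 + 4))⁻¹)) := by gcongr
      _ = ((X : ℝ) ^ (w0 + 1))⁻¹ := by
          rw [show w0 + 4 = w0 + 1 + 1 + 1 + 1 by ring, pow_succ _ (w0 + 1 + 1 + 1),
            pow_succ _ (w0 + 1 + 1), pow_succ _ (w0 + 1)]
          field_simp
      _ ≤ ((X : ℝ) ^ w0)⁻¹ := inv_anti₀ (by positivity) (pow_le_pow_right₀ hXr (by omega))
  intro a b ha hb hab T hT
  rcases le_total |Real.log b| |Real.log a| with hle | hle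
  · exact main a b ha hb hab hle T hT
  · have h1 := main b a hb ha hab.symm hle (T.image Prod.swap) (by
      intro p hp
      obtain ⟨q, hq, rfl⟩ := Finset.mem_image.1 hp
      obtain ⟨h1, h2, h3⟩ := hT q hq
      refine ⟨h2, h1, ?_⟩
      have h4 : dt b q.swap.1 a q.swap.2 = -dt a q.1 b q.2 := by
        unfold dt
        simp only [Prod.fst_swap, Prod.snd_swap]
        ring
      rw [h4, abs_neg]
      exact h3)
    rwa [Finset.card_image_of_injective _ Prod.swap_injective] at h1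

end Pool.Agent.X142.DN
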