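import Mathlib
import Pool.Agent.X142.DN.Four

/-!
# Counting matrices of logarithms with small determinant
-/

set_option autoImplicit false

namespace Pool.Agent.X142.DN

open Finset

/-- the number of exponent pairs -/
noncomputable def boxD (D : ℕ) : Finset (ℤ × ℤ) :=
  Finset.Icc (-(D : ℤ)) D ×ˢ Finset.Icc (-(D : ℤ)) D

lemma card_boxD (D : ℕ) : (boxD D).card = (2 * D + 1) * (2 * D + 1) := by
  rw [boxD, Finset.card_product, Int.card_Icc]
  have : ((D : ℤ) + 1 - -(D : ℤ)).toNat = 2 * D + 1 := by omega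
  rw [this]

/-- All matrices `(a c; b e)` with entries in a finite set. -/
theorem energy (ε : ℝ) (hε : 0 < ε) : ∃ (w : ℕ) (C : ℝ), 0 < C ∧ ∀ X : ℕ, 1 ≤ X →
    ∀ A : Finset ℚ, (∀ a ∈ A, Ht X a) → ∀ S : Finset (ℚ × ℚ × ℚ × ℚ),
      (∀ q ∈ S, (q.1 ∈ A ∧ q.2.1 ∈ A ∧ q.2.2.1 ∈ A ∧ q.2.2.2 ∈ A) ∧
        |dt q.1 q.2.2.1 q.2.1 q.2.2.2| ≤ ((X : ℝ) ^ w)⁻¹) →
      (S.card : ℝ) ≤ C * (X : ℝ) ^ ε * (A.card : ℝ) ^ 2 := by
  classical
  obtain ⟨D, w, C, hD, hw, hC, hfib⟩ := fiber ε hε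
  refine ⟨w, C + ((2 * D + 1) * (2 * D + 1) + 2 : ℕ), by positivity, ?_⟩
  intro X hX A hA S hS
  have hXr : (1 : ℝ) ≤ X := by exact_mod_cast hX
  have hX0 : (0 : ℝ) < X := by linarith
  have hXε : 1 ≤ (X : ℝ) ^ ε := Real.one_le_rpow hXr hε.le
  have hcardA : ((A ×ˢ A).card : ℝ) = (A.card : ℝ) ^ 2 := by
    rw [Finset.card_product]
    push_cast
    ring
  -- general injection
  have hinj : ∀ (S' : Finset (ℚ × ℚ × ℚ × ℚ)) (f : ℚ × ℚ × ℚ × ℚ → ℚ × ℚ), S' ⊆ S →
      (∀ q ∈ S', f q ∈ A ×ˢ A) → Set.InjOn f (S' : Set (ℚ × ℚ × ℚ × ℚ)) →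
      S'.card ≤ (A ×ˢ A).card := by
    intro S' f _ hf hfi
    exact Finset.card_le_card_of_injOn f hf hfi
  -- the part without relation
  set S0 := S.filter (fun q => NoRel D q.1 q.2.1) with hS0
  have h0 : (S0.card : ℝ) ≤ C * (X : ℝ) ^ ε * (A.card : ℝ) ^ 2 := by
    have hmaps : ∀ q ∈ S0, (q.1, q.2.1) ∈ A ×ˢ A := by
      intro q hq
      obtain ⟨hqS, _⟩ := Finset.mem_filter.1 hq
      exact Finset.mem_product.2 ⟨(hS q hqS).1.1, (hS q hqS).1.2.1⟩
    rw [Finset.card_eq_sum_card_fiberwise hmaps]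
    push_cast
    have hf : ∀ p ∈ A ×ˢ A, (((S0.filter (fun q => (q.1, q.2.1) = p)).card : ℕ) : ℝ) ≤
        C * (X : ℝ) ^ ε := by
      intro p hp
      by_cases hemp : (S0.filter (fun q => (q.1, q.2.1) = p)) = ∅
      · rw [hemp]
        simp
        positivity
      obtain ⟨q0, hq0⟩ := Finset.nonempty_iff_ne_empty.2 hemp
      obtain ⟨hq0S, hq0p⟩ := Finset.mem_filter.1 hq0
      obtain ⟨_, hno⟩ := Finset.mem_filter.1 hq0S
      have hp' := Finset.mem_product.1 hp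
      have e1 : q0.1 = p.1 := congrArg Prod.fst hq0p
      have e2 : q0.2.1 = p.2 := congrArg Prod.snd hq0p
      rw [e1, e2] at hno
      have h1 := hfib X hX p.1 p.2 (hA _ hp'.1) (hA _ hp'.2) hno
        ((S0.filter (fun q => (q.1, q.2.1) = p)).image (fun q => q.2.2)) (by
          intro t ht
          obtain ⟨q, hq, rfl⟩ := Finset.mem_image.1 ht
          obtain ⟨hqS0, hqp⟩ := Finset.mem_filter.1 hq
          obtain ⟨hqS, _⟩ := Finset.mem_filter.1 hqS0
          obtain ⟨hqA, hqd⟩ := hS q hqS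
          have e1 : q.1 = p.1 := congrArg Prod.fst hqp
          have e2 : q.2.1 = p.2 := congrArg Prod.snd hqp
          refine ⟨hA _ hqA.2.2.1, hA _ hqA.2.2.2, ?_⟩
          rw [← e1, ← e2]
          exact hqd)
      rw [Finset.card_image_of_injOn] at h1
      · exact h1
      · intro q hq q' hq' heq
        have hqp := (Finset.mem_filter.1 hq).2
        have hqp' := (Finset.mem_filter.1 hq').2
        obtain ⟨e1, e2⟩ := Prod.mk.inj (hqp.trans hqp'.symm)
        exact Prod.ext e1 (Prod.ext e2 heq)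
    refine (Finset.sum_le_card_nsmul _ _ _ hf).trans (le_of_eq ?_)
    rw [nsmul_eq_mul, hcardA]
    ring
  -- the parts with a relation
  set S1 := S.filter (fun q => q.1 = 1 ∧ q.2.1 = 1) with hS1
  set S2 := S.filter (fun q => q.1 = 1 ∧ q.2.1 ≠ 1) with hS2
  set S3 : ℤ × ℤ → Finset (ℚ × ℚ × ℚ × ℚ) := fun z =>
    S.filter (fun q => q.1 ≠ 1 ∧ z.2 ≠ 0 ∧ q.1 ^ z.1 * q.2.1 ^ z.2 = 1) with hS3
  have hcov : S ⊆ S0 ∪ (S1 ∪ (S2 ∪ (boxD D).biUnion S3)) := by
    intro q hq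
    by_cases h1 : NoRel D q.1 q.2.1
    · exact Finset.mem_union_left _ (Finset.mem_filter.2 ⟨hq, h1⟩)
    apply Finset.mem_union_right
    by_cases h2 : q.1 = 1
    · by_cases h3 : q.2.1 = 1
      · exact Finset.mem_union_left _ (Finset.mem_filter.2 ⟨hq, h2, h3⟩)
      · exact Finset.mem_union_right _ (Finset.mem_union_left _ (Finset.mem_filter.2 ⟨hq, h2, h3⟩))
    apply Finset.mem_union_right
    apply Finset.mem_union_right
    unfold NoRel at h1
    push Not at h1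
    obtain ⟨u, v, hu, hv, huv, hrel⟩ := h1
    refine Finset.mem_biUnion.2 ⟨(u, v), ?_, Finset.mem_filter.2 ⟨hq, h2, ?_, hrel⟩⟩
    · rw [boxD, Finset.mem_product, Finset.mem_Icc, Finset.mem_Icc]
      exact ⟨abs_le.1 hu, abs_le.1 hv⟩
    · intro hv0
      simp only at hv0
      have hu0 : u ≠ 0 := fun h => huv h hv0
      rw [hv0, zpow_zero, mul_one] at hrel
      have hpos := (hA _ (hS q hq).1.1).1
      apply h2
      rcases (zpow_eq_one_iff_of_ne_zero₀ hu0).1 hrel with h | ⟨h, _⟩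
      · exact h
      · rw [h] at hpos
        norm_num at hpos
  have hc1 : S1.card ≤ (A ×ˢ A).card := by
    refine hinj S1 (fun q => q.2.2) (Finset.filter_subset _ _) ?_ ?_
    · intro q hq
      obtain ⟨hqS, _⟩ := Finset.mem_filter.1 hq
      exact Finset.mem_product.2 ⟨(hS q hqS).1.2.2.1, (hS q hqS).1.2.2.2⟩
    · intro q hq q' hq' heq
      obtain ⟨_, h1, h2⟩ := Finset.mem_filter.1 hq
      obtain ⟨_, h1', h2'⟩ := Finset.mem_filter.1 hq'
      exact Prod.ext (h1.trans h1'.symm) (Prod.ext (h2.trans h2'.symm) heq)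
  have hc2 : S2.card ≤ (A ×ˢ A).card := by
    refine hinj S2 (fun q => (q.2.1, q.2.2.2)) (Finset.filter_subset _ _) ?_ ?_
    · intro q hq
      obtain ⟨hqS, _⟩ := Finset.mem_filter.1 hq
      exact Finset.mem_product.2 ⟨(hS q hqS).1.2.1, (hS q hqS).1.2.2.2⟩
    · intro q hq q' hq' heq
      obtain ⟨hqS, h1, h2⟩ := Finset.mem_filter.1 hq
      obtain ⟨hqS', h1', h2'⟩ := Finset.mem_filter.1 hq'
      obtain ⟨hqA, hqd⟩ := hS q hqS
      obtain ⟨hqA', hqd'⟩ := hS q' hqS'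
      have heq' : (q.2.1, q.2.2.2) = (q'.2.1, q'.2.2.2) := heq
      obtain ⟨e1, e2⟩ := Prod.mk.inj heq'
      have e3 : q.2.2.1 = q'.2.2.1 := by
        refine uniq (hA _ hqA.2.1) h2 (hA _ hqA.2.2.1) (hA _ hqA'.2.2.1) hw ?_
        rw [← abs_mul]
        have h4 : Real.log q.2.1 * (Real.log q.2.2.1 - Real.log q'.2.2.1) =
            dt q'.1 q'.2.2.1 q'.2.1 q'.2.2.2 - dt q.1 q.2.2.1 q.2.1 q.2.2.2 := by
          unfold dt
          rw [h1, h1', ← e1]
          simp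
          ring
        rw [h4]
        refine (abs_sub _ _).trans ?_
        linarith
      exact Prod.ext (h1.trans h1'.symm) (Prod.ext e1 (Prod.ext e3 e2))
  have hc3 : ∀ z ∈ boxD D, (S3 z).card ≤ (A ×ˢ A).card := by
    intro z _
    refine hinj (S3 z) (fun q => (q.1, q.2.2.1)) (Finset.filter_subset _ _) ?_ ?_
    · intro q hq
      obtain ⟨hqS, _⟩ := Finset.mem_filter.1 hq
      exact Finset.mem_product.2 ⟨(hS q hqS).1.1, (hS q hqS).1.2.2.1⟩
    · intro q hq q' hq' heq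
      obtain ⟨hqS, h1, hz, h2⟩ := Finset.mem_filter.1 hq
      obtain ⟨hqS', h1', _, h2'⟩ := Finset.mem_filter.1 hq'
      obtain ⟨hqA, hqd⟩ := hS q hqS
      obtain ⟨hqA', hqd'⟩ := hS q' hqS'
      have heq' : (q.1, q.2.2.1) = (q'.1, q'.2.2.1) := heq
      obtain ⟨e1, e2⟩ := Prod.mk.inj heq'
      have hp1 : (0 : ℝ) < q.1 := by exact_mod_cast (hA _ hqA.1).1
      have hp2 : (0 : ℝ) < q.2.1 := by exact_mod_cast (hA _ hqA.2.1).1
      have hp2' : (0 : ℝ) < q'.2.1 := by exact_mod_cast (hA _ hqA'.2.1).1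
      have e3 : q.2.1 = q'.2.1 := by
        have h3 : q.2.1 ^ z.2 = q'.2.1 ^ z.2 := by
          have h4 : q.1 ^ z.1 ≠ 0 := zpow_ne_zero _ (by exact_mod_cast hp1.ne')
          rw [← e1] at h2'
          exact mul_left_cancel₀ h4 (h2.trans h2'.symm)
        have h5 : (z.2 : ℝ) * Real.log q.2.1 = z.2 * Real.log q'.2.1 := by
          rw [← Real.log_zpow, ← Real.log_zpow]
          congr 1
          exact_mod_cast h3
        have h6 : (z.2 : ℝ) ≠ 0 := by exact_mod_cast hz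
        have h7 := mul_left_cancel₀ h6 h5
        have h8 := Real.log_injOn_pos hp2 hp2' h7
        exact_mod_cast h8
      have e4 : q.2.2.2 = q'.2.2.2 := by
        refine uniq (hA _ hqA.1) h1 (hA _ hqA.2.2.2) (hA _ hqA'.2.2.2) hw ?_
        rw [← abs_mul]
        have h4 : Real.log q.1 * (Real.log q.2.2.2 - Real.log q'.2.2.2) =
            dt q.1 q.2.2.1 q.2.1 q.2.2.2 - dt q'.1 q'.2.2.1 q'.2.1 q'.2.2.2 := by
          unfold dt
          rw [← e1, ← e2, ← e3]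
          ring
        rw [h4]
        refine (abs_sub _ _).trans ?_
        linarith
      exact Prod.ext e1 (Prod.ext e3 (Prod.ext e2 e4))
  have hcardS : S.card ≤ S0.card + ((2 * D + 1) * (2 * D + 1) + 2) * (A ×ˢ A).card := by
    have h1 := Finset.card_le_card hcov
    have h2 := Finset.card_union_le S0 (S1 ∪ (S2 ∪ (boxD D).biUnion S3))
    have h3 := Finset.card_union_le S1 (S2 ∪ (boxD D).biUnion S3)
    have h4 := Finset.card_union_le S2 ((boxD D).biUnion S3)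
    have h5 : ((boxD D).biUnion S3).card ≤ (boxD D).card * (A ×ˢ A).card :=
      Finset.card_biUnion_le_card_mul _ _ _ hc3
    rw [card_boxD] at h5
    have h6 : ((2 * D + 1) * (2 * D + 1) + 2) * (A ×ˢ A).card =
        (2 * D + 1) * (2 * D + 1) * (A ×ˢ A).card + (A ×ˢ A).card + (A ×ˢ A).card := by ring
    rw [h6]
    omega
  have hfinal : (S.card : ℝ) ≤ S0.card + (((2 * D + 1) * (2 * D + 1) + 2 : ℕ) : ℝ) *
      (A.card : ℝ) ^ 2 := by
    rw [← hcardA]
    exact_mod_cast hcardS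
  refine hfinal.trans ?_
  have h7 : (0 : ℝ) ≤ (((2 * D + 1) * (2 * D + 1) + 2 : ℕ) : ℝ) * (A.card : ℝ) ^ 2 := by positivity
  nlinarith

end Pool.Agent.X142.DN
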