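import Mathlib
import Pool.Agent.X142.DN.Four2

/-!
# Linear forms in logarithms of rational numbers with arbitrary real coefficients

For fixed real coefficients the form is small only at few tuples, or all the tuples at which it is
small satisfy the same multiplicative relation of bounded height.
-/

set_option autoImplicit false

namespace Pool.Agent.X142.DN

open Polynomial Finset

/-- products of powers -/
lemma prod_rep {X : ℕ} (hX : 1 ≤ X) {ι : Type} (s : Finset ι) (a : ι → ℚ) (m : ι → ℤ) (M : ℕ)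
    (ha : ∀ j ∈ s, Ht X (a j)) (hm : ∀ j ∈ s, |m j| ≤ M) :
    ∃ P Q : ℕ, 1 ≤ P ∧ P ≤ X ^ (s.card * M) ∧ 1 ≤ Q ∧ Q ≤ X ^ (s.card * M) ∧
      ∏ j ∈ s, (a j : ℝ) ^ (m j) = (P : ℝ) / Q := by
  classical
  induction s using Finset.induction_on with
  | empty => exact ⟨1, 1, by simp⟩
  | insert j s hj ih =>
    obtain ⟨P, Q, hP, hPX, hQ, hQX, hrep⟩ := ih (fun i hi => ha i (Finset.mem_insert_of_mem hi))
      (fun i hi => hm i (Finset.mem_insert_of_mem hi))
    obtain ⟨P', Q', hP', hPX', hQ', hQX', hrep'⟩ :=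
      (ha j (Finset.mem_insert_self _ _)).zpow hX (m j) (hm j (Finset.mem_insert_self _ _))
    have hexp : X ^ ((insert j s).card * M) = X ^ M * X ^ (s.card * M) := by
      rw [Finset.card_insert_of_notMem hj, ← pow_add]
      congr 1
      ring
    refine ⟨P' * P, Q' * Q, Nat.mul_pos hP' hP, ?_, Nat.mul_pos hQ' hQ, ?_, ?_⟩
    · rw [hexp]; exact Nat.mul_le_mul hPX' hPX
    · rw [hexp]; exact Nat.mul_le_mul hQX' hQX
    · rw [Finset.prod_insert hj, hrep, hrep']
      push_cast
      field_simp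

/-- a linear form with small integer coefficients is not small unless it vanishes -/
lemma form_ge {X : ℕ} (hX : 1 ≤ X) {N : ℕ} (a : Fin N → ℚ) (m : Fin N → ℤ) (M : ℕ)
    (ha : ∀ j, Ht X (a j)) (hm : ∀ j, |m j| ≤ M) (hne : ∏ j, (a j) ^ (m j) ≠ 1) :
    1 / (X : ℝ) ^ (N * M) ≤ |∑ j, (m j : ℝ) * Real.log (a j)| := by
  obtain ⟨P, Q, hP, hPX, hQ, hQX, hrep⟩ := prod_rep hX Finset.univ a m M (fun j _ => ha j)
    (fun j _ => hm j)
  rw [Finset.card_univ, Fintype.card_fin] at hPX hQX
  have h1 : ∑ j, (m j : ℝ) * Real.log (a j) = Real.log (∏ j, (a j : ℝ) ^ (m j)) := by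
    rw [Real.log_prod]
    · exact Finset.sum_congr rfl fun j _ => by rw [Real.log_zpow]
    · intro j _
      have : (0 : ℝ) < a j := by exact_mod_cast (ha j).1
      positivity
  rw [h1, hrep]
  refine abs_log_ge hP hQ (by exact_mod_cast hPX) (by exact_mod_cast hQX) ?_
  rintro rfl
  apply hne
  have h2 : (P : ℝ) ≠ 0 := by exact_mod_cast (by omega : P ≠ 0)
  rw [div_self h2] at hrep
  exact_mod_cast hrep

lemma Ht.abs_log_le' {X : ℕ} (hX : 1 ≤ X) {r : ℚ} (h : Ht X r) : |Real.log r| ≤ Real.log X := by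
  have hXr : (1 : ℝ) ≤ X := by exact_mod_cast hX
  obtain ⟨h1, h2⟩ := h.le
  have h0 : (0 : ℝ) < r := by exact_mod_cast h.1
  have h3 : Real.log r ≤ Real.log X := Real.log_le_log h0 h1
  have h4 : -Real.log X ≤ Real.log r := by
    rw [← Real.log_inv, ← one_div]
    exact Real.log_le_log (by positivity) h2
  rw [abs_le]
  constructor <;> linarith

/-- the form is small at `a` -/
def Near {N : ℕ} (X w : ℕ) (β : Fin N → ℝ) (a : Fin N → ℚ) : Prop :=
  |∑ j, β j * Real.log (a j)| ≤ ‖β‖ * ((X : ℝ) ^ w)⁻¹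

/-- **Dichotomy** for real coefficients. -/
theorem dichotomy (n : ℕ) (ε : ℝ) (hε : 0 < ε) : ∃ (M w : ℕ) (C : ℝ), 0 < C ∧ ∀ X : ℕ, 1 ≤ X →
    ∀ β : Fin (n + 2) → ℝ, β ≠ 0 →
      (∀ A : Finset ℚ, (∀ a ∈ A, Ht X a) → ∀ S : Finset (Fin (n + 2) → ℚ),
        (∀ a ∈ S, (∀ j, a j ∈ A) ∧ Near X w β a) →
          (S.card : ℝ) ≤ C * (X : ℝ) ^ ε * (A.card : ℝ) ^ n) ∨
      (∃ m : Fin (n + 2) → ℤ, m ≠ 0 ∧ (∀ j, |m j| ≤ M) ∧ ∀ a : Fin (n + 2) → ℚ,
        (∀ j, Ht X (a j)) → Near X w β a → ∏ j, (a j) ^ (m j) = 1) := by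
  classical
  set N : ℕ := n + 2 with hN
  obtain ⟨D0, hD0⟩ := count N 1 le_rfl ε hε
  set D : ℕ := D0 + 1 with hD
  set M : ℕ := D ^ N with hM
  set G : ℕ := N * M + 4 with hG
  obtain ⟨w0, C0, hC0, hcount⟩ := hD0 G
  set w : ℕ := w0 + N * M + 4 with hw
  set X0 : ℕ := N * M + 2 with hX0
  refine ⟨M, w, C0 + (X0 : ℝ) ^ 4, by positivity, ?_⟩
  intro X hX β hβ
  have hXr : (1 : ℝ) ≤ X := by exact_mod_cast hX
  have hXp : (0 : ℝ) < X := by linarith
  have hXε : 1 ≤ (X : ℝ) ^ ε := Real.one_le_rpow hXr hε.le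
  have hD1 : 1 ≤ D := by omega
  have hM1 : 1 ≤ M := Nat.one_le_pow _ _ (by omega)
  by_cases hsmall : X < X0
  · -- small `X`
    left
    intro A hA S hS
    have h1 : S ⊆ Fintype.piFinset (fun _ : Fin N => A) := by
      intro a ha
      rw [Fintype.mem_piFinset]
      exact (hS a ha).1
    have h2 := Finset.card_le_card h1
    rw [Fintype.card_piFinset, Finset.prod_const, Finset.card_univ, Fintype.card_fin] at h2
    have h3 : A.card ≤ X * X := card_le_sq X A fun r hr => hA r hr
    have h4 : (A.card : ℝ) ≤ (X0 : ℝ) ^ 2 := by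
      have h5 : A.card ≤ X0 ^ 2 := by nlinarith
      exact_mod_cast h5
    have h5 : (S.card : ℝ) ≤ (A.card : ℝ) ^ N := by exact_mod_cast h2
    have h6 : (A.card : ℝ) ^ N = (A.card : ℝ) ^ n * (A.card : ℝ) ^ 2 := by rw [hN, pow_add]
    have h7 : (A.card : ℝ) ^ 2 ≤ (X0 : ℝ) ^ 4 := by
      calc (A.card : ℝ) ^ 2 ≤ ((X0 : ℝ) ^ 2) ^ 2 := pow_le_pow_left₀ (Nat.cast_nonneg _) h4 2
        _ = (X0 : ℝ) ^ 4 := by ring
    have h8 : 0 ≤ (A.card : ℝ) ^ n := by positivity
    calc (S.card : ℝ) ≤ (A.card : ℝ) ^ n * (A.card : ℝ) ^ 2 := by rw [← h6]; exact h5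
      _ ≤ (A.card : ℝ) ^ n * (X0 : ℝ) ^ 4 := mul_le_mul_of_nonneg_left h7 h8
      _ ≤ (C0 + (X0 : ℝ) ^ 4) * (X : ℝ) ^ ε * (A.card : ℝ) ^ n := by
          have h9 : (X0 : ℝ) ^ 4 ≤ (C0 + (X0 : ℝ) ^ 4) * (X : ℝ) ^ ε := by
            have : 0 ≤ (X0 : ℝ) ^ 4 := by positivity
            nlinarith
          nlinarith
  push Not at hsmall
  have hX2 : 2 ≤ X := by omega
  have hX2r : (2 : ℝ) ≤ X := by exact_mod_cast hX2
  have hNMX : (N : ℝ) * M ≤ X := by
    have : N * M ≤ X := by omega
    exact_mod_cast this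
  -- the largest coefficient
  obtain ⟨l, hl⟩ := Finite.exists_max (fun k : Fin N => |β k|)
  have hβl : 0 < |β l| := by
    by_contra hcon
    push Not at hcon
    apply hβ
    funext k
    have h1 := (hl k).trans hcon
    exact abs_eq_zero.1 (le_antisymm h1 (abs_nonneg _))
  have hβl0 : β l ≠ 0 := abs_pos.1 hβl
  have hnorm : ‖β‖ ≤ |β l| := (pi_norm_le_iff_of_nonneg (abs_nonneg _)).2 fun k => hl k
  set θ : Fin N → ℝ := fun k => β k / β l with hθ
  have hθl : θ l = 1 := div_self hβl0
  have hθ1 : ∀ k, |θ k| ≤ 1 := by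
    intro k
    rw [hθ]
    simp only
    rw [abs_div, div_le_one hβl]
    exact hl k
  have hnear : ∀ a : Fin N → ℚ, Near X w β a →
      |∑ j, θ j * Real.log (a j)| ≤ ((X : ℝ) ^ w)⁻¹ := by
    intro a ha
    have h1 : ∑ j, θ j * Real.log (a j) = (∑ j, β j * Real.log (a j)) / β l := by
      rw [Finset.sum_div]
      refine Finset.sum_congr rfl fun j _ => ?_
      rw [hθ]
      ring
    rw [h1, abs_div, div_le_iff₀ hβl, mul_comm]
    exact ha.trans (mul_le_mul_of_nonneg_right hnorm (by positivity))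
  have hwle : ∀ v : ℕ, v ≤ w → ((X : ℝ) ^ w)⁻¹ ≤ ((X : ℝ) ^ v)⁻¹ := fun v hv =>
    inv_anti₀ (by positivity) (pow_le_pow_right₀ hXr hv)
  by_cases hgap : ∃ k, k ≠ l ∧ Gap (θ k) D0 ((X : ℝ) ^ G)
  · -- few solutions
    left
    obtain ⟨k, hkl, hgk⟩ := hgap
    intro A hA S hS
    set P : Finset (Fin N → ℚ) := Fintype.piFinset
      (fun j : Fin N => if j = k ∨ j = l then ({1} : Finset ℚ) else A) with hP
    have hPcard : P.card = A.card ^ n := by
      rw [hP, Fintype.card_piFinset]
      have h1 : ∀ j : Fin N, (if j = k ∨ j = l then ({1} : Finset ℚ) else A).card =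
          if j = k ∨ j = l then 1 else A.card := by
        intro j
        split_ifs <;> simp
      rw [Finset.prod_congr rfl (fun j _ => h1 j), Finset.prod_ite, Finset.prod_const_one, one_mul,
        Finset.prod_const]
      congr 1
      have h2 : (Finset.univ.filter (fun j : Fin N => ¬ (j = k ∨ j = l))) =
          (Finset.univ \ {k, l}) := by
        ext j
        simp [not_or]
      rw [h2, Finset.card_sdiff_of_subset (Finset.subset_univ _), Finset.card_univ,
        Fintype.card_fin, Finset.card_pair hkl]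
      omega
    set f : (Fin N → ℚ) → (Fin N → ℚ) := fun a j => if j = k ∨ j = l then 1 else a j with hf
    have hmaps : ∀ a ∈ S, f a ∈ P := by
      intro a ha
      rw [hP, Fintype.mem_piFinset]
      intro j
      rw [hf]
      simp only
      split_ifs
      · exact Finset.mem_singleton_self _
      · exact (hS a ha).1 j
    have hfib : ∀ p ∈ P, (((S.filter (fun a => f a = p)).card : ℕ) : ℝ) ≤ C0 * (X : ℝ) ^ ε := by
      intro p hp
      rw [hP, Fintype.mem_piFinset] at hp
      have hHp : ∀ j, Ht X (p j) := by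
        intro j
        have h1 := hp j
        split_ifs at h1 with hj
        · rw [Finset.mem_singleton.1 h1]
          exact ⟨one_pos, by simpa using hX, by simpa using hX⟩
        · exact hA _ h1
      set T := S.filter (fun a => f a = p) with hT
      -- the sum splits
      have hsum : ∀ a ∈ T, ∑ j, θ j * Real.log (a j) =
          ∑ j, θ j * Real.log (p j) + θ k * Real.log (a k) + Real.log (a l) := by
        intro a ha
        obtain ⟨_, hfa⟩ := Finset.mem_filter.1 ha
        have h1 : ∀ j, θ j * Real.log (a j) = θ j * Real.log (p j) +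
            ((if j = k then θ k * Real.log (a k) else 0) +
              (if j = l then Real.log (a l) else 0)) := by
          intro j
          have h2 : p j = if j = k ∨ j = l then 1 else a j := by rw [← hfa]
          rcases eq_or_ne j k with rfl | hjk
          · simp [h2, hkl]
          · rcases eq_or_ne j l with rfl | hjl
            · simp [h2, hjk, hθl]
            · simp [h2, hjk, hjl]
        rw [Finset.sum_congr rfl (fun j _ => h1 j), Finset.sum_add_distrib,
          Finset.sum_add_distrib, Finset.sum_ite_eq' Finset.univ k,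
          Finset.sum_ite_eq' Finset.univ l]
        simp
        ring
      set Λ : ℝ := ∑ j, θ j * Real.log (p j) with hΛ
      have hΛ1 : |Λ| ≤ N * Real.log X := by
        rw [hΛ]
        refine (Finset.abs_sum_le_sum_abs _ _).trans ?_
        have h1 : ∀ j ∈ (Finset.univ : Finset (Fin N)), |θ j * Real.log (p j)| ≤ Real.log X := by
          intro j _
          rw [abs_mul]
          have h2 := (hHp j).abs_log_le' hX
          have h3 := hθ1 j
          have h4 := abs_nonneg (Real.log (p j : ℝ))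
          nlinarith [abs_nonneg (θ j)]
        refine (Finset.sum_le_card_nsmul _ _ _ h1).trans ?_
        simp
      set lam : ℝ := Real.exp (-Λ) with hlam
      have hlam0 : 0 < lam := Real.exp_pos _
      have hXN : (X : ℝ) ^ N = Real.exp (N * Real.log X) := by
        rw [mul_comm, Real.exp_mul, Real.exp_log hXp, Real.rpow_natCast]
      have hinj : ∀ a ∈ T, ∀ a' ∈ T, a k = a' k → a = a' := by
        intro a ha a' ha' heq
        obtain ⟨haS, hfa⟩ := Finset.mem_filter.1 ha
        obtain ⟨haS', hfa'⟩ := Finset.mem_filter.1 ha'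
        have hal : a l = a' l := by
          by_contra hne
          have h1 := (hA _ ((hS a haS).1 l)).log_sub_ge (hA _ ((hS a' haS').1 l)) hne
          have h2 : Real.log (a l) - Real.log (a' l) =
              ∑ j, θ j * Real.log (a j) - ∑ j, θ j * Real.log (a' j) := by
            rw [hsum a ha, hsum a' ha', heq]
            ring
          rw [h2] at h1
          have h3 := h1.trans (abs_sub _ _)
          have h4 := (hnear a (hS a haS).2).trans (hwle 4 (by omega))
          have h5 := (hnear a' (hS a' haS').2).trans (hwle 4 (by omega))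
          have h6 : 1 / (X : ℝ) ^ 2 ≤ 2 * ((X : ℝ) ^ 4)⁻¹ := by linarith
          have h7 : 1 / (X : ℝ) ^ 2 = (X : ℝ) ^ 2 * ((X : ℝ) ^ 4)⁻¹ := by field_simp
          rw [h7] at h6
          have h8 : 0 < ((X : ℝ) ^ 4)⁻¹ := by positivity
          have h9 := le_of_mul_le_mul_right h6 h8
          nlinarith
        funext j
        by_cases hj : j = k ∨ j = l
        · rcases hj with rfl | rfl
          · exact heq
          · exact hal
        · have h1 := congrFun (hfa.trans hfa'.symm) j
          simpa [hf, hj] using h1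
      have hTcard : (T.image (fun a => a k)).card = T.card :=
        Finset.card_image_of_injOn fun a ha a' ha' heq => hinj a ha a' ha' heq
      rw [← hTcard]
      refine hcount X hX (-(θ k)) ?_ hgk.neg lam ?_ ?_ _ ?_
      · rw [abs_neg]
        refine (hθ1 k).trans ?_
        rw [hN]
        push_cast
        linarith [(Nat.cast_nonneg n : (0 : ℝ) ≤ n)]
      · rw [abs_of_pos hlam0, hXN, ← Real.exp_neg, hlam]
        apply Real.exp_le_exp.2
        have := (abs_le.1 hΛ1).2
        linarith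
      · rw [abs_of_pos hlam0, hXN, hlam]
        apply Real.exp_le_exp.2
        have := (abs_le.1 hΛ1).1
        linarith
      intro r hr
      obtain ⟨a, ha, rfl⟩ := Finset.mem_image.1 hr
      obtain ⟨haS, hfa⟩ := Finset.mem_filter.1 ha
      have hHk := hA _ ((hS a haS).1 k)
      have hHl := hA _ ((hS a haS).1 l)
      refine ⟨hHk.1, hHk.2.1, hHk.2.2, ?_⟩
      have hak : (0 : ℝ) < a k := by exact_mod_cast hHk.1
      have hal : (0 : ℝ) < a l := by exact_mod_cast hHl.1
      obtain ⟨hl1, hl2⟩ := hHl.le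
      have hnum0 : (0 : ℝ) ≤ (a l).num := by exact_mod_cast Rat.num_nonneg.2 hHl.1.le
      have hdenX : ((a l).den : ℝ) ≤ X := by exact_mod_cast hHl.2.2
      have hnumX : (((a l).num : ℤ) : ℝ) ≤ X := by
        have h4 : (((a l).num : ℤ) : ℝ) ≤ (((X : ℕ) : ℤ) : ℝ) := Int.cast_le.2 hHl.2.1
        rwa [Int.cast_natCast] at h4
      have hXXN : (X : ℝ) ≤ (X : ℝ) ^ N := le_self_pow₀ hXr (by omega)
      refine nearAlg_of_rat (a l) _ _ _ (hdenX.trans hXXN)
        (by rw [abs_of_nonneg hnum0]; exact hnumX.trans hXXN) ?_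
      set ξ : ℝ := lam * (a k : ℝ) ^ (-(θ k)) with hξ
      have hξ0 : 0 < ξ := mul_pos hlam0 (Real.rpow_pos_of_pos hak _)
      have hlogξ : Real.log ξ = -Λ - θ k * Real.log (a k) := by
        rw [hξ, Real.log_mul hlam0.ne' (Real.rpow_pos_of_pos hak _).ne', hlam, Real.log_exp,
          Real.log_rpow hak]
        ring
      have hδ : |Real.log ξ - Real.log (a l)| ≤ ((X : ℝ) ^ (w0 + 3))⁻¹ := by
        have h4 : Real.log ξ - Real.log (a l) = -∑ j, θ j * Real.log (a j) := by
          rw [hlogξ, hsum a ha]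
          ring
        rw [h4, abs_neg]
        exact (hnear a (hS a haS).2).trans (hwle _ (by omega))
      have hδ1 : ((X : ℝ) ^ (w0 + 3))⁻¹ ≤ 1 := inv_le_one_of_one_le₀ (one_le_pow₀ hXr)
      have h4 : ξ - a l = a l * (Real.exp (Real.log ξ - Real.log (a l)) - 1) := by
        rw [Real.exp_sub, Real.exp_log hξ0, Real.exp_log hal]
        field_simp
      have h5 : |Real.exp (Real.log ξ - Real.log (a l)) - 1| ≤ 2 * ((X : ℝ) ^ (w0 + 3))⁻¹ := by
        refine (Real.abs_exp_sub_one_le (hδ.trans hδ1)).trans ?_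
        linarith
      rw [h4, abs_mul, abs_of_pos hal]
      calc ((a l).den : ℝ) * ((a l : ℝ) * |Real.exp (Real.log ξ - Real.log (a l)) - 1|) ≤
            X * (X * (2 * ((X : ℝ) ^ (w0 + 3))⁻¹)) := by gcongr
        _ ≤ X * (X * (X * ((X : ℝ) ^ (w0 + 3))⁻¹)) := by gcongr
        _ = ((X : ℝ) ^ w0)⁻¹ := by
            rw [pow_add]
            field_simp
    rw [Finset.card_eq_sum_card_fiberwise hmaps]
    push_cast
    refine (Finset.sum_le_card_nsmul _ _ _ hfib).trans ?_
    rw [nsmul_eq_mul, hPcard]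
    push_cast
    have h1 : 0 ≤ (X0 : ℝ) ^ 4 * (X : ℝ) ^ ε * (A.card : ℝ) ^ n := by positivity
    nlinarith
  · -- a relation
    right
    push Not at hgap
    have hrel : ∀ k : Fin N, ∃ i j : ℤ, |i| ≤ D ∧ |j| ≤ D ∧ j ≠ 0 ∧
        |(i : ℝ) + θ k * (j : ℝ)| ≤ ((X : ℝ) ^ G)⁻¹ ∧ (k = l → i = -1 ∧ j = 1) := by
      intro k
      by_cases hkl : k = l
      · refine ⟨-1, 1, ?_, ?_, by norm_num, ?_, fun _ => ⟨rfl, rfl⟩⟩
        · rw [abs_neg, abs_one]; exact_mod_cast hD1
        · rw [abs_one]; exact_mod_cast hD1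
        · rw [hkl, hθl]
          simp
      · have h1 := hgap k hkl
        unfold Gap at h1
        push Not at h1
        obtain ⟨i, j, hi, hj, hij, hlt⟩ := h1
        have hD' : (D0 : ℤ) ≤ D := by exact_mod_cast (by omega : D0 ≤ D)
        refine ⟨i, j, hi.trans hD', hj.trans hD', ?_, ?_, fun h => absurd h hkl⟩
        · intro hj0
          have hi0 : i ≠ 0 := fun h => hij h hj0
          rw [hj0] at hlt
          have h2 : (1 : ℝ) ≤ |(i : ℝ)| := by
            have : (1 : ℤ) ≤ |i| := Int.one_le_abs hi0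
            exact_mod_cast this
          have h3 : 1 / (X : ℝ) ^ G ≤ 1 := by
            rw [div_le_one (by positivity)]
            exact one_le_pow₀ hXr
          simp at hlt
          rw [one_div] at h3
          linarith
        · rw [← one_div]
          exact hlt.le
    choose ii jj hii hjj hjj0 hδ hkl using hrel
    set m : Fin N → ℤ := fun k => -ii k * ∏ k' ∈ Finset.univ.erase k, jj k' with hm
    have hprodle : ∀ s : Finset (Fin N), |∏ k' ∈ s, jj k'| ≤ (D : ℤ) ^ s.card := by
      intro s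
      rw [Finset.abs_prod, ← Finset.prod_const]
      exact Finset.prod_le_prod (fun k' _ => abs_nonneg _) fun k' _ => hjj k'
    have hDpos : (1 : ℤ) ≤ D := by exact_mod_cast hD1
    have hcardE : ∀ k : Fin N, (Finset.univ.erase k).card = N - 1 := by
      intro k
      rw [Finset.card_erase_of_mem (Finset.mem_univ k), Finset.card_univ, Fintype.card_fin]
    have hmM : ∀ k, |m k| ≤ M := by
      intro k
      rw [hm]
      simp only
      rw [abs_mul, abs_neg, hM]
      have h1 := hprodle (Finset.univ.erase k)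
      rw [hcardE k] at h1
      have h2 : (D : ℤ) * (D : ℤ) ^ (N - 1) = ((D ^ N : ℕ) : ℤ) := by
        rw [← pow_succ']
        push_cast
        congr 1
      rw [← h2]
      exact mul_le_mul (hii k) h1 (abs_nonneg _) (by positivity)
    refine ⟨m, ?_, hmM, ?_⟩
    · intro h0
      have h1 := congrFun h0 l
      rw [hm] at h1
      simp only [Pi.zero_apply] at h1
      rw [(hkl l rfl).1] at h1
      have h2 : ∏ k' ∈ Finset.univ.erase l, jj k' ≠ 0 :=
        Finset.prod_ne_zero_iff.2 fun k' _ => hjj0 k'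
      apply h2
      linarith
    · intro a ha hna
      by_contra hne
      have hlow := form_ge hX a m M ha hmM hne
      set Jt : ℝ := ∏ k, (jj k : ℝ) with hJt
      have hJle : |Jt| ≤ M := by
        have h1 := hprodle Finset.univ
        rw [Finset.card_univ, Fintype.card_fin] at h1
        have h2 : |((∏ k, jj k : ℤ) : ℝ)| ≤ M := by
          rw [hM]
          exact_mod_cast h1
        rw [hJt]
        push_cast at h2
        exact h2
      have hsplit : ∑ k, (m k : ℝ) * Real.log (a k) = Jt * ∑ k, θ k * Real.log (a k) -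
          ∑ k, ((∏ k' ∈ Finset.univ.erase k, (jj k' : ℝ)) * ((ii k : ℝ) + θ k * (jj k : ℝ))) *
            Real.log (a k) := by
        rw [Finset.mul_sum, ← Finset.sum_sub_distrib]
        refine Finset.sum_congr rfl fun k _ => ?_
        have h1 : Jt = (jj k : ℝ) * ∏ k' ∈ Finset.univ.erase k, (jj k' : ℝ) :=
          (Finset.mul_prod_erase Finset.univ (fun k' => (jj k' : ℝ)) (Finset.mem_univ k)).symm
        rw [h1, hm]
        push_cast
        ring
      have herr : |∑ k, ((∏ k' ∈ Finset.univ.erase k, (jj k' : ℝ)) *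
          ((ii k : ℝ) + θ k * (jj k : ℝ))) * Real.log (a k)| ≤
          N * (M * ((X : ℝ) ^ G)⁻¹ * X) := by
        refine (Finset.abs_sum_le_sum_abs _ _).trans ?_
        have h1 : ∀ k ∈ (Finset.univ : Finset (Fin N)),
            |((∏ k' ∈ Finset.univ.erase k, (jj k' : ℝ)) * ((ii k : ℝ) + θ k * (jj k : ℝ))) *
              Real.log (a k)| ≤ M * ((X : ℝ) ^ G)⁻¹ * X := by
          intro k _
          rw [abs_mul, abs_mul]
          have h2 : |∏ k' ∈ Finset.univ.erase k, (jj k' : ℝ)| ≤ M := by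
            have h3 := hprodle (Finset.univ.erase k)
            rw [hcardE k] at h3
            have h4 : (D : ℤ) ^ (N - 1) ≤ (D : ℤ) ^ N := pow_le_pow_right₀ hDpos (by omega)
            have h5 : |((∏ k' ∈ Finset.univ.erase k, jj k' : ℤ) : ℝ)| ≤ M := by
              rw [hM]
              exact_mod_cast h3.trans h4
            push_cast at h5
            exact h5
          exact mul_le_mul (mul_le_mul h2 (hδ k) (abs_nonneg _) (by positivity))
            ((ha k).abs_log_le hX) (abs_nonneg _) (by positivity)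
        refine (Finset.sum_le_card_nsmul _ _ _ h1).trans ?_
        simp
      have hup : |∑ k, (m k : ℝ) * Real.log (a k)| ≤
          M * ((X : ℝ) ^ w)⁻¹ + N * (M * ((X : ℝ) ^ G)⁻¹ * X) := by
        rw [hsplit]
        refine (abs_sub _ _).trans (add_le_add ?_ herr)
        rw [abs_mul]
        exact mul_le_mul hJle (hnear a hna) (abs_nonneg _) (by positivity)
      have hMX : (M : ℝ) ≤ X := by
        have h1 : M ≤ N * M := Nat.le_mul_of_pos_left _ (by omega)
        have h2 : (M : ℝ) ≤ N * M := by exact_mod_cast h1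
        linarith
      have hXNM : 0 < (X : ℝ) ^ (N * M) := by positivity
      have e1 : (M : ℝ) * ((X : ℝ) ^ w)⁻¹ ≤ ((X : ℝ) ^ (N * M))⁻¹ * (1 / 8) := by
        calc (M : ℝ) * ((X : ℝ) ^ w)⁻¹ ≤ X * ((X : ℝ) ^ (N * M + 4))⁻¹ := by
              gcongr
              omega
          _ = ((X : ℝ) ^ (N * M))⁻¹ * (1 / (X : ℝ) ^ 3) := by
              rw [pow_add]
              field_simp
          _ ≤ ((X : ℝ) ^ (N * M))⁻¹ * (1 / 8) := by
              gcongr
              calc (8 : ℝ) = 2 ^ 3 := by norm_num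
                _ ≤ (X : ℝ) ^ 3 := pow_le_pow_left₀ (by norm_num) hX2r 3
      have e2 : (N : ℝ) * (M * ((X : ℝ) ^ G)⁻¹ * X) ≤ ((X : ℝ) ^ (N * M))⁻¹ * (1 / 4) := by
        calc (N : ℝ) * (M * ((X : ℝ) ^ G)⁻¹ * X) = (N * M) * (((X : ℝ) ^ G)⁻¹ * X) := by ring
          _ ≤ X * (((X : ℝ) ^ G)⁻¹ * X) := by gcongr
          _ = ((X : ℝ) ^ (N * M))⁻¹ * (1 / (X : ℝ) ^ 2) := by
              rw [hG, pow_add]
              field_simp
          _ ≤ ((X : ℝ) ^ (N * M))⁻¹ * (1 / 4) := by
              gcongr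
              calc (4 : ℝ) = 2 ^ 2 := by norm_num
                _ ≤ (X : ℝ) ^ 2 := pow_le_pow_left₀ (by norm_num) hX2r 2
      have e3 := hlow.trans hup
      rw [one_div] at e3
      have e4 : 0 < ((X : ℝ) ^ (N * M))⁻¹ := by positivity
      linarith

end Pool.Agent.X142.DN
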