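import Mathlib
import Pool.Agent.X142.DN.Forms

/-!
# Counting matrices of logarithms with small determinant
-/

set_option autoImplicit false

namespace Pool.Agent.X142.DN

open Finset

/-- the matrix of logarithms -/
noncomputable def lg {n : ℕ} (A : Matrix (Fin n) (Fin n) ℚ) : Matrix (Fin n) (Fin n) ℝ :=
  Matrix.of fun i j => Real.log (A i j)

/-- the cofactors along the last column -/
noncomputable def cof {n : ℕ} (A : Fin (n + 1) → Fin n → ℚ) (i : Fin (n + 1)) : ℝ :=
  (-1 : ℝ) ^ ((i : ℕ) + n) * (Matrix.of fun k j : Fin n => Real.log (A (i.succAbove k) j)).det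

lemma det_eq {n : ℕ} (A : Matrix (Fin (n + 1)) (Fin (n + 1)) ℚ) :
    (lg A).det = ∑ i, cof (fun i j => A i j.castSucc) i * Real.log (A i (Fin.last n)) := by
  rw [Matrix.det_succ_column (lg A) (Fin.last n)]
  refine Finset.sum_congr rfl fun i _ => ?_
  unfold cof
  have h1 : ((lg A).submatrix i.succAbove (Fin.last n).succAbove) =
      Matrix.of fun k j : Fin n => Real.log (A (i.succAbove k) j.castSucc) := by
    ext k j
    simp [lg, Fin.succAbove_last]
  rw [h1]
  simp only [lg, Matrix.of_apply, Fin.val_last]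
  ring

/-- the cofactors are orthogonal to the first columns -/
lemma cof_orth {n : ℕ} (A : Fin (n + 1) → Fin n → ℚ) (j : Fin n) :
    ∑ i, cof A i * Real.log (A i j) = 0 := by
  set B : Matrix (Fin (n + 1)) (Fin (n + 1)) ℚ := fun i k =>
    Fin.lastCases (motive := fun _ => ℚ) (A i j) (fun k => A i k) k with hB
  have h1 : (lg B).det = 0 := by
    apply Matrix.det_zero_of_column_eq (Fin.castSucc_lt_last j).ne
    intro i
    simp [lg, hB]
  rw [det_eq] at h1
  have h2 : (fun i k => B i (Fin.castSucc k)) = A := by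
    funext i k
    simp [hB]
  rw [h2] at h1
  rw [← h1]
  refine Finset.sum_congr rfl fun i _ => ?_
  simp [hB]

end Pool.Agent.X142.DN
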