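import Mathlib
import Pool.Agent.X142.DN.Dets

/-!
# Few nearly singular matrices of logarithms
-/

set_option autoImplicit false

namespace Pool.Agent.X142.DN

open Finset

theorem dets_two (ε : ℝ) (hε : 0 < ε) : ∃ (w : ℕ) (C : ℝ), 0 < C ∧ ∀ X : ℕ, 1 ≤ X →
    ∀ A : Finset ℚ, (∀ a ∈ A, Ht X a) → ∀ S : Finset (Matrix (Fin 2) (Fin 2) ℚ),
      (∀ M ∈ S, (∀ i j, M i j ∈ A) ∧ |(lg M).det| ≤ ((X : ℝ) ^ w)⁻¹) →
      (S.card : ℝ) ≤ C * (X : ℝ) ^ ε * (A.card : ℝ) ^ 2 := by
  classical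
  obtain ⟨w, C, hC, h⟩ := energy ε hε
  refine ⟨w, C, hC, ?_⟩
  intro X hX A hA S hS
  set f : Matrix (Fin 2) (Fin 2) ℚ → ℚ × ℚ × ℚ × ℚ := fun M => (M 0 0, M 1 0, M 0 1, M 1 1) with hf
  have hinj : Function.Injective f := by
    intro M M' h
    have h' : (M 0 0, M 1 0, M 0 1, M 1 1) = (M' 0 0, M' 1 0, M' 0 1, M' 1 1) := h
    simp only [Prod.mk.injEq] at h'
    obtain ⟨e1, e2, e3, e4⟩ := h'
    ext i j
    fin_cases i <;> fin_cases j <;> assumption
  rw [← Finset.card_image_of_injective S hinj]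
  refine h X hX A hA _ ?_
  intro q hq
  obtain ⟨M, hM, rfl⟩ := Finset.mem_image.1 hq
  obtain ⟨h1, h2⟩ := hS M hM
  refine ⟨⟨h1 0 0, h1 1 0, h1 0 1, h1 1 1⟩, ?_⟩
  rw [Matrix.det_fin_two] at h2
  exact h2

theorem dets_step (n : ℕ) (ε : ℝ) (hε : 0 < ε) {w1 : ℕ} {C1 : ℝ} (hC1 : 0 < C1)
    (ih : ∀ X : ℕ, 1 ≤ X → ∀ A : Finset ℚ, (∀ a ∈ A, Ht X a) →
      ∀ S : Finset (Matrix (Fin (n + 2)) (Fin (n + 2)) ℚ),
      (∀ M ∈ S, (∀ i j, M i j ∈ A) ∧ |(lg M).det| ≤ ((X : ℝ) ^ w1)⁻¹) →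
      (S.card : ℝ) ≤ C1 * (X : ℝ) ^ ε * (A.card : ℝ) ^ ((n + 2) ^ 2 - 2)) :
    ∃ (w : ℕ) (C : ℝ), 0 < C ∧ ∀ X : ℕ, 1 ≤ X → ∀ A : Finset ℚ, (∀ a ∈ A, Ht X a) →
      ∀ S : Finset (Matrix (Fin (n + 3)) (Fin (n + 3)) ℚ),
      (∀ M ∈ S, (∀ i j, M i j ∈ A) ∧ |(lg M).det| ≤ ((X : ℝ) ^ w)⁻¹) →
      (S.card : ℝ) ≤ C * (X : ℝ) ^ ε * (A.card : ℝ) ^ ((n + 3) ^ 2 - 2) := by
  classical
  obtain ⟨M0, w2, C2, hC2, hdich⟩ := dichotomy (n + 1) ε hε
  refine ⟨w1 + w2, C1 + C2 + (((2 * M0 + 1) ^ (n + 3) : ℕ) : ℝ), by positivity, ?_⟩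
  intro X hX A hA S hS
  have hXr : (1 : ℝ) ≤ X := by exact_mod_cast hX
  have hXp : (0 : ℝ) < X := by linarith
  have hXε : 1 ≤ (X : ℝ) ^ ε := Real.one_le_rpow hXr hε.le
  -- the empty set
  rcases Finset.eq_empty_or_nonempty A with rfl | hAne
  · have hSe : S = ∅ := by
      rw [Finset.eq_empty_iff_forall_notMem]
      intro M hM
      exact absurd ((hS M hM).1 0 0) (Finset.notMem_empty _)
    rw [hSe, Finset.card_empty]
    push_cast
    positivity
  have hA1 : 1 ≤ A.card := Finset.card_pos.2 hAne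
  have hA1r : (1 : ℝ) ≤ A.card := by exact_mod_cast hA1
  set T : Matrix (Fin (n + 3)) (Fin (n + 3)) ℚ → Matrix (Fin (n + 2)) (Fin (n + 2)) ℚ :=
    fun M i j => M i.castSucc j.castSucc with hT
  set B : Matrix (Fin (n + 3)) (Fin (n + 3)) ℚ → (Fin (n + 3) → Fin (n + 2) → ℚ) :=
    fun M i j => M i j.castSucc with hB
  set c : Matrix (Fin (n + 3)) (Fin (n + 3)) ℚ → (Fin (n + 3) → ℚ) :=
    fun M i => M i (Fin.last _) with hc
  set Few : (Fin (n + 3) → Fin (n + 2) → ℚ) → Prop := fun b =>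
    ∀ S' : Finset (Fin (n + 3) → ℚ), (∀ a ∈ S', (∀ j, a j ∈ A) ∧ Near X w2 (cof b) a) →
      (S'.card : ℝ) ≤ C2 * (X : ℝ) ^ ε * (A.card : ℝ) ^ (n + 1) with hFew
  set S0 := S.filter (fun M => |(lg (T M)).det| ≤ ((X : ℝ) ^ w1)⁻¹) with hS0
  set S1 := S.filter (fun M => ¬ |(lg (T M)).det| ≤ ((X : ℝ) ^ w1)⁻¹ ∧ Few (B M)) with hS1
  set S2 := S.filter (fun M => ¬ |(lg (T M)).det| ≤ ((X : ℝ) ^ w1)⁻¹ ∧ ¬ Few (B M)) with hS2
  have hcov : S ⊆ S0 ∪ (S1 ∪ S2) := by
    intro M hM
    by_cases h1 : |(lg (T M)).det| ≤ ((X : ℝ) ^ w1)⁻¹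
    · exact Finset.mem_union_left _ (Finset.mem_filter.2 ⟨hM, h1⟩)
    apply Finset.mem_union_right
    by_cases h2 : Few (B M)
    · exact Finset.mem_union_left _ (Finset.mem_filter.2 ⟨hM, h1, h2⟩)
    · exact Finset.mem_union_right _ (Finset.mem_filter.2 ⟨hM, h1, h2⟩)
  have hlast : ∀ M : Matrix (Fin (n + 3)) (Fin (n + 3)) ℚ,
      |cof (B M) (Fin.last _)| = |(lg (T M)).det| := by
    intro M
    unfold cof
    rw [abs_mul, abs_pow, abs_neg, abs_one, one_pow, one_mul]
    congr 2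
    ext k j
    simp [lg, hT, hB, Fin.succAbove_last]
  -- closeness in the regular case
  have hreg : ∀ M ∈ S, ¬ |(lg (T M)).det| ≤ ((X : ℝ) ^ w1)⁻¹ →
      cof (B M) ≠ 0 ∧ Near X w2 (cof (B M)) (c M) := by
    intro M hM hbig
    push Not at hbig
    rw [← hlast] at hbig
    have h1 : ((X : ℝ) ^ w1)⁻¹ < ‖cof (B M)‖ := hbig.trans_le (norm_le_pi_norm (cof (B M)) _)
    have h2 : 0 < ((X : ℝ) ^ w1)⁻¹ := by positivity
    refine ⟨?_, ?_⟩
    · intro h0
      rw [h0, norm_zero] at h1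
      linarith
    · unfold Near
      have h3 := (hS M hM).2
      rw [det_eq] at h3
      refine h3.trans ?_
      rw [pow_add, mul_inv]
      exact mul_le_mul_of_nonneg_right h1.le (by positivity)
  -- first part
  have hc0 : (S0.card : ℝ) ≤ C1 * (X : ℝ) ^ ε * (A.card : ℝ) ^ ((n + 3) ^ 2 - 2) := by
    set R : Finset (Fin (n + 3) → ℚ) := Fintype.piFinset fun _ => A with hR
    set Cc : Finset (Fin (n + 2) → ℚ) := Fintype.piFinset fun _ => A with hCc
    have hRcard : R.card = A.card ^ (n + 3) := by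
      rw [hR, Fintype.card_piFinset, Finset.prod_const, Finset.card_univ, Fintype.card_fin]
    have hCcard : Cc.card = A.card ^ (n + 2) := by
      rw [hCc, Fintype.card_piFinset, Finset.prod_const, Finset.card_univ, Fintype.card_fin]
    have h1 : S0.card ≤ ((S0.image T) ×ˢ (R ×ˢ Cc)).card := by
      refine Finset.card_le_card_of_injOn
        (fun M => (T M, (fun j => M (Fin.last _) j), (fun i : Fin (n + 2) => M i.castSucc (Fin.last _))))
        ?_ ?_
      · intro M hM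
        obtain ⟨hMS, _⟩ := Finset.mem_filter.1 hM
        rw [Finset.mem_coe, Finset.mem_product, Finset.mem_product]
        refine ⟨Finset.mem_image_of_mem _ hM, ?_, ?_⟩
        · rw [hR, Fintype.mem_piFinset]
          exact fun j => (hS M hMS).1 _ _
        · rw [hCc, Fintype.mem_piFinset]
          exact fun j => (hS M hMS).1 _ _
      · intro M hM M' hM' heq
        simp only [Prod.mk.injEq] at heq
        obtain ⟨e1, e2, e3⟩ := heq
        ext i j
        refine Fin.lastCases ?_ (fun i => ?_) i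
        · exact congrFun e2 j
        · refine Fin.lastCases ?_ (fun j => ?_) j
          · exact congrFun e3 i
          · exact congrFun (congrFun e1 i) j
    have h2 := ih X hX A hA (S0.image T) (by
      intro M' hM'
      obtain ⟨M, hM, rfl⟩ := Finset.mem_image.1 hM'
      obtain ⟨hMS, hMd⟩ := Finset.mem_filter.1 hM
      exact ⟨fun i j => (hS M hMS).1 _ _, hMd⟩)
    rw [Finset.card_product, Finset.card_product, hRcard, hCcard] at h1
    have h3 : (S0.card : ℝ) ≤ ((S0.image T).card : ℝ) * ((A.card : ℝ) ^ (n + 3) *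
        (A.card : ℝ) ^ (n + 2)) := by exact_mod_cast h1
    refine h3.trans ?_
    have h4 : (A.card : ℝ) ^ ((n + 3) ^ 2 - 2) = (A.card : ℝ) ^ ((n + 2) ^ 2 - 2) *
        ((A.card : ℝ) ^ (n + 3) * (A.card : ℝ) ^ (n + 2)) := by
      rw [← pow_add, ← pow_add]
      congr 1
      have h5 : 2 ≤ (n + 2) ^ 2 := by
        have h7 : (n + 2) ^ 2 = n ^ 2 + 4 * n + 4 := by ring
        omega
      have h6 : (n + 3) ^ 2 = (n + 2) ^ 2 + (n + 3 + (n + 2)) := by ring
      omega
    calc ((S0.image T).card : ℝ) * ((A.card : ℝ) ^ (n + 3) * (A.card : ℝ) ^ (n + 2)) ≤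
          (C1 * (X : ℝ) ^ ε * (A.card : ℝ) ^ ((n + 2) ^ 2 - 2)) *
            ((A.card : ℝ) ^ (n + 3) * (A.card : ℝ) ^ (n + 2)) :=
          mul_le_mul_of_nonneg_right h2 (by positivity)
      _ = _ := by
          rw [h4]
          ring
  -- second part
  have hc1 : (S1.card : ℝ) ≤ C2 * (X : ℝ) ^ ε * (A.card : ℝ) ^ ((n + 3) ^ 2 - 2) := by
    set PB : Finset (Fin (n + 3) → Fin (n + 2) → ℚ) :=
      Fintype.piFinset fun _ => Fintype.piFinset fun _ => A with hPB
    have hPBcard : PB.card = A.card ^ ((n + 2) * (n + 3)) := by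
      rw [hPB, Fintype.card_piFinset, Finset.prod_const, Fintype.card_piFinset, Finset.prod_const,
        Finset.card_univ, Finset.card_univ, Fintype.card_fin, Fintype.card_fin, ← pow_mul]
    have hmaps : ∀ M ∈ S1, B M ∈ PB := by
      intro M hM
      obtain ⟨hMS, _⟩ := Finset.mem_filter.1 hM
      rw [hPB, Fintype.mem_piFinset]
      intro i
      rw [Fintype.mem_piFinset]
      exact fun j => (hS M hMS).1 _ _
    have hfib : ∀ b ∈ PB, (((S1.filter (fun M => B M = b)).card : ℕ) : ℝ) ≤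
        C2 * (X : ℝ) ^ ε * (A.card : ℝ) ^ (n + 1) := by
      intro b hb
      by_cases hemp : (S1.filter (fun M => B M = b)) = ∅
      · rw [hemp]
        simp
        positivity
      obtain ⟨M1, hM1⟩ := Finset.nonempty_iff_ne_empty.2 hemp
      obtain ⟨hM1S, hM1b⟩ := Finset.mem_filter.1 hM1
      have hfew : Few b := by
        rw [← hM1b]
        exact (Finset.mem_filter.1 hM1S).2.2
      have h1 := hfew ((S1.filter (fun M => B M = b)).image c) (by
        intro a ha
        obtain ⟨M, hM, rfl⟩ := Finset.mem_image.1 ha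
        obtain ⟨hMS1, hMb⟩ := Finset.mem_filter.1 hM
        obtain ⟨hMS, hbig, _⟩ := Finset.mem_filter.1 hMS1
        refine ⟨fun j => (hS M hMS).1 _ _, ?_⟩
        rw [← hMb]
        exact (hreg M hMS hbig).2)
      rw [Finset.card_image_of_injOn] at h1
      · exact h1
      · intro M hM M' hM' heq
        have e1 : B M = B M' := (Finset.mem_filter.1 hM).2.trans (Finset.mem_filter.1 hM').2.symm
        ext i j
        refine Fin.lastCases ?_ (fun j => ?_) j
        · exact congrFun heq i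
        · exact congrFun (congrFun e1 i) j
    rw [Finset.card_eq_sum_card_fiberwise hmaps]
    push_cast
    refine (Finset.sum_le_card_nsmul _ _ _ hfib).trans (le_of_eq ?_)
    rw [nsmul_eq_mul, hPBcard]
    push_cast
    have h4 : (A.card : ℝ) ^ ((n + 3) ^ 2 - 2) = (A.card : ℝ) ^ ((n + 2) * (n + 3)) *
        (A.card : ℝ) ^ (n + 1) := by
      rw [← pow_add]
      congr 1
      have h6 : (n + 3) ^ 2 = (n + 2) * (n + 3) + (n + 1) + 2 := by ring
      omega
    rw [h4]
    ring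
  -- third part
  have hc2 : (S2.card : ℝ) ≤ (((2 * M0 + 1) ^ (n + 3) : ℕ) : ℝ) *
      (A.card : ℝ) ^ ((n + 3) ^ 2 - 2) := by
    set Bx : Finset (Fin (n + 3) → ℤ) := Fintype.piFinset fun _ => Finset.Icc (-(M0 : ℤ)) M0 with hBx
    have hBxcard : Bx.card = (2 * M0 + 1) ^ (n + 3) := by
      rw [hBx, Fintype.card_piFinset, Finset.prod_const, Finset.card_univ, Fintype.card_fin,
        Int.card_Icc]
      congr 1
      omega
    set R : (Fin (n + 3) → ℤ) → Finset (Matrix (Fin (n + 3)) (Fin (n + 3)) ℚ) := fun m =>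
      S2.filter (fun M => m ≠ 0 ∧ ∀ j, ∏ i, (M i j) ^ (m i) = 1) with hR
    have hsub : S2 ⊆ Bx.biUnion R := by
      intro M hM
      obtain ⟨hMS, hbig, hnf⟩ := Finset.mem_filter.1 hM
      obtain ⟨hne, hnear⟩ := hreg M hMS hbig
      rcases hdich X hX (cof (B M)) hne with h1 | ⟨m, hm0, hmM, hm⟩
      · exact absurd (h1 A hA) hnf
      · refine Finset.mem_biUnion.2 ⟨m, ?_, Finset.mem_filter.2 ⟨hM, hm0, ?_⟩⟩
        · rw [hBx, Fintype.mem_piFinset]
          exact fun j => Finset.mem_Icc.2 (abs_le.1 (hmM j))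
        · intro j
          refine Fin.lastCases ?_ (fun j => ?_) j
          · exact hm (c M) (fun i => hA _ ((hS M hMS).1 _ _)) hnear
          · refine hm (fun i => M i j.castSucc) (fun i => hA _ ((hS M hMS).1 _ _)) ?_
            unfold Near
            have h2 : ∑ i, cof (B M) i * Real.log ((M i j.castSucc : ℚ) : ℝ) = 0 :=
              cof_orth (B M) j
            rw [h2, abs_zero]
            positivity
    have hRcard : ∀ m ∈ Bx, (R m).card ≤ A.card ^ ((n + 3) * (n + 2)) := by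
      intro m _
      by_cases hm0 : m = 0
      · have : R m = ∅ := by
          rw [Finset.eq_empty_iff_forall_notMem]
          intro M hM
          exact (Finset.mem_filter.1 hM).2.1 hm0
        rw [this]
        simp
      obtain ⟨l, hl⟩ := Function.ne_iff.1 hm0
      simp only [Pi.zero_apply] at hl
      set PR : Finset (Fin (n + 2) → Fin (n + 3) → ℚ) :=
        Fintype.piFinset fun _ => Fintype.piFinset fun _ => A with hPR
      have hPRcard : PR.card = A.card ^ ((n + 3) * (n + 2)) := by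
        rw [hPR, Fintype.card_piFinset, Finset.prod_const, Fintype.card_piFinset, Finset.prod_const,
          Finset.card_univ, Finset.card_univ, Fintype.card_fin, Fintype.card_fin, ← pow_mul]
      rw [← hPRcard]
      refine Finset.card_le_card_of_injOn (fun M => fun i j => M (l.succAbove i) j) ?_ ?_
      · intro M hM
        obtain ⟨hM2, _⟩ := Finset.mem_filter.1 hM
        obtain ⟨hMS, _⟩ := Finset.mem_filter.1 hM2
        rw [Finset.mem_coe, hPR, Fintype.mem_piFinset]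
        intro i
        rw [Fintype.mem_piFinset]
        exact fun j => (hS M hMS).1 _ _
      · intro M hM M' hM' heq
        obtain ⟨hM2, _, hrel⟩ := Finset.mem_filter.1 hM
        obtain ⟨hM2', _, hrel'⟩ := Finset.mem_filter.1 hM'
        obtain ⟨hMS, _⟩ := Finset.mem_filter.1 hM2
        obtain ⟨hMS', _⟩ := Finset.mem_filter.1 hM2'
        have hoff : ∀ i j, M (l.succAbove i) j = M' (l.succAbove i) j := fun i j =>
          congrFun (congrFun heq i) j
        ext i j
        rcases eq_or_ne i l with rfl | hil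
        · have h1 := hrel j
          have h2 := hrel' j
          rw [Fin.prod_univ_succAbove _ i] at h1 h2
          have h3 : ∏ k : Fin (n + 2), M (i.succAbove k) j ^ m (i.succAbove k) =
              ∏ k : Fin (n + 2), M' (i.succAbove k) j ^ m (i.succAbove k) :=
            Finset.prod_congr rfl fun k _ => by rw [hoff]
          have hp : (0 : ℚ) < M i j := (hA _ ((hS M hMS).1 _ _)).1
          have hp' : (0 : ℚ) < M' i j := (hA _ ((hS M' hMS').1 _ _)).1
          rw [← h3] at h2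
          have h4 : (∏ k : Fin (n + 2), M (i.succAbove k) j ^ m (i.succAbove k)) ≠ 0 := by
            intro h0
            rw [h0, mul_zero] at h1
            exact zero_ne_one h1
          have h5 : M i j ^ m i = M' i j ^ m i := mul_right_cancel₀ h4 (h1.trans h2.symm)
          have hpr : (0 : ℝ) < M i j := by exact_mod_cast hp
          have hpr' : (0 : ℝ) < M' i j := by exact_mod_cast hp'
          have h6 : (m i : ℝ) * Real.log (M i j) = m i * Real.log (M' i j) := by
            rw [← Real.log_zpow, ← Real.log_zpow]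
            congr 1
            exact_mod_cast h5
          have h7 : (m i : ℝ) ≠ 0 := by exact_mod_cast hl
          have h8 := Real.log_injOn_pos hpr hpr' (mul_left_cancel₀ h7 h6)
          exact_mod_cast h8
        · obtain ⟨k, rfl⟩ := Fin.exists_succAbove_eq hil
          exact hoff k j
    have h1 : S2.card ≤ Bx.card * A.card ^ ((n + 3) * (n + 2)) :=
      (Finset.card_le_card hsub).trans (Finset.card_biUnion_le_card_mul _ _ _ hRcard)
    rw [hBxcard] at h1
    have h2 : A.card ^ ((n + 3) * (n + 2)) ≤ A.card ^ ((n + 3) ^ 2 - 2) := by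
      apply Nat.pow_le_pow_right hA1
      have h6 : (n + 3) ^ 2 = (n + 3) * (n + 2) + (n + 3) := by ring
      omega
    have h3 : S2.card ≤ (2 * M0 + 1) ^ (n + 3) * A.card ^ ((n + 3) ^ 2 - 2) :=
      h1.trans (Nat.mul_le_mul_left _ h2)
    exact_mod_cast h3
  have hcard : (S.card : ℝ) ≤ S0.card + (S1.card + S2.card) := by
    have h1 := Finset.card_le_card hcov
    have h2 := Finset.card_union_le S0 (S1 ∪ S2)
    have h3 := Finset.card_union_le S1 S2
    have h4 : S.card ≤ S0.card + (S1.card + S2.card) := by omega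
    exact_mod_cast h4
  refine hcard.trans ?_
  have h5 : (0 : ℝ) ≤ (((2 * M0 + 1) ^ (n + 3) : ℕ) : ℝ) * (A.card : ℝ) ^ ((n + 3) ^ 2 - 2) := by
    positivity
  nlinarith

theorem dets (ε : ℝ) (hε : 0 < ε) (n : ℕ) : ∃ (w : ℕ) (C : ℝ), 0 < C ∧ ∀ X : ℕ, 1 ≤ X →
    ∀ A : Finset ℚ, (∀ a ∈ A, Ht X a) →
      ∀ S : Finset (Matrix (Fin (n + 2)) (Fin (n + 2)) ℚ),
      (∀ M ∈ S, (∀ i j, M i j ∈ A) ∧ |(lg M).det| ≤ ((X : ℝ) ^ w)⁻¹) →
      (S.card : ℝ) ≤ C * (X : ℝ) ^ ε * (A.card : ℝ) ^ ((n + 2) ^ 2 - 2) := by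
  induction n with
  | zero =>
    obtain ⟨w, C, hC, h⟩ := dets_two ε hε
    exact ⟨w, C, hC, h⟩
  | succ n ih =>
    obtain ⟨w1, C1, hC1, h1⟩ := ih
    exact dets_step n ε hε hC1 h1

end Pool.Agent.X142.DN
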