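import Mathlib
import Pool.Agent.X142.DN.Four

/-!
# Integer points; heights and errors measured in the base
-/

set_option autoImplicit false

namespace Pool.Agent.X142.DN

open Polynomial Finset

theorem count_int {θ : ℝ} (hθ : Irrational θ) (d : ℕ) (hd : 1 ≤ d) (c ε : ℝ) (hε : 0 < ε) :
    ∃ w C : ℝ, 0 ≤ w ∧ 0 < C ∧ ∀ X : ℕ, 1 ≤ X → ∀ S : Finset ℕ,
      (∀ n ∈ S, 1 ≤ n ∧ n ≤ X ∧ NearAlg d ((n : ℝ) ^ c) ((n : ℝ) ^ (-w)) ((n : ℝ) ^ θ)) →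
      (S.card : ℝ) ≤ C * (X : ℝ) ^ ε := by
  classical
  obtain ⟨w, C, hw, hC, h⟩ := count_irr hθ d hd |c| ε hε
  refine ⟨w / ε, C + 1, by positivity, by positivity, ?_⟩
  intro X hX S hS
  have hXr : (1 : ℝ) ≤ X := by exact_mod_cast hX
  have hX0r : (0 : ℝ) < X := by linarith
  have h1 := h X hX 1 (by
      rw [abs_one]
      exact Real.rpow_le_one_of_one_le_of_nonpos hXr (by simp))
    (by rw [abs_one]; exact Real.one_le_rpow hXr (abs_nonneg _))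
    ((S.filter (fun n : ℕ => (X : ℝ) ^ ε ≤ (n : ℝ))).image (fun n : ℕ => (n : ℚ))) (by
      intro r hr
      obtain ⟨n, hn, rfl⟩ := Finset.mem_image.1 hr
      obtain ⟨hnS, hnX⟩ := Finset.mem_filter.1 hn
      obtain ⟨ha, hb, hc⟩ := hS n hnS
      have hn1 : (1 : ℝ) ≤ n := by exact_mod_cast ha
      have hn2 : (n : ℝ) ≤ X := by exact_mod_cast hb
      refine ⟨by exact_mod_cast ha, by rw [Rat.num_natCast]; exact_mod_cast hb,
        by rw [Rat.den_natCast]; exact hX, ?_⟩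
      rw [one_mul, Rat.cast_natCast]
      refine hc.mono (rpow_le_abs hn1 hn2) ?_
      rw [Real.rpow_neg (by linarith), Real.rpow_neg hX0r.le]
      apply inv_anti₀ (by positivity)
      calc (X : ℝ) ^ w = ((X : ℝ) ^ ε) ^ (w / ε) := by
            rw [← Real.rpow_mul hX0r.le]
            congr 1
            field_simp
        _ ≤ (n : ℝ) ^ (w / ε) := Real.rpow_le_rpow (by positivity) hnX (by positivity))
  rw [Finset.card_image_of_injective _ Nat.cast_injective] at h1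
  have h2 : ((S.filter (fun n : ℕ => ¬ (X : ℝ) ^ ε ≤ (n : ℝ))).card : ℝ) ≤ (X : ℝ) ^ ε := by
    have h3 : S.filter (fun n : ℕ => ¬ (X : ℝ) ^ ε ≤ (n : ℝ)) ⊆ Finset.Icc 1 ⌊(X : ℝ) ^ ε⌋₊ := by
      intro n hn
      obtain ⟨hnS, hnX⟩ := Finset.mem_filter.1 hn
      push Not at hnX
      rw [Finset.mem_Icc]
      exact ⟨(hS n hnS).1, Nat.le_floor hnX.le⟩
    have h4 := Finset.card_le_card h3
    rw [Nat.card_Icc, Nat.add_sub_cancel] at h4
    have h5 : (⌊(X : ℝ) ^ ε⌋₊ : ℝ) ≤ (X : ℝ) ^ ε := Nat.floor_le (by positivity)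
    have h6 : ((S.filter (fun n : ℕ => ¬ (X : ℝ) ^ ε ≤ (n : ℝ))).card : ℝ) ≤ (⌊(X : ℝ) ^ ε⌋₊ : ℝ) := by
      exact_mod_cast h4
    linarith
  have h3 := Finset.card_filter_add_card_filter_not (s := S) (fun n : ℕ => (X : ℝ) ^ ε ≤ (n : ℝ))
  have h4 : (S.card : ℝ) = ((S.filter (fun n : ℕ => (X : ℝ) ^ ε ≤ (n : ℝ))).card : ℝ) +
      ((S.filter (fun n : ℕ => ¬ (X : ℝ) ^ ε ≤ (n : ℝ))).card : ℝ) := by exact_mod_cast h3.symm
  rw [h4]
  linarith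

/-- `ξ` close to `p/q` with `q ≤ y^c` -/
lemma nearAlg_of_close {y ξ c c1 w : ℝ} (hy : 2 ≤ y) (p : ℤ) (q : ℕ) (hq : 1 ≤ q)
    (hqc : (q : ℝ) ≤ y ^ c) (hξ : |ξ| ≤ y ^ c1) (hw : 0 ≤ w)
    (h : |ξ - p / q| ≤ y ^ (-(w + |c|))) : NearAlg 1 (y ^ (|c| + |c1| + 1)) (y ^ (-w)) ξ := by
  have hy0 : 0 < y := by linarith
  have hy1 : 1 ≤ y := by linarith
  have hq0 : (0 : ℝ) < q := by exact_mod_cast hq
  set r : ℚ := (p : ℚ) / (q : ℚ) with hr
  have hrr : (r : ℝ) = p / q := by rw [hr]; push_cast; ring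
  have hden : r.den ≤ q := by
    have h1 : (r.den : ℤ) ∣ (q : ℤ) := by
      have := Rat.den_dvd p q
      rw [hr]
      convert this using 2
      rw [Rat.divInt_eq_div]
      push_cast
      rfl
    exact Nat.le_of_dvd (by omega) (by exact_mod_cast h1)
  have hdenr : (r.den : ℝ) ≤ q := by exact_mod_cast hden
  have hden1 : (1 : ℝ) ≤ r.den := by exact_mod_cast r.den_pos
  have hqc' : (q : ℝ) ≤ y ^ |c| := hqc.trans (Real.rpow_le_rpow_of_exponent_le hy1 (le_abs_self c))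
  have hξ' : |ξ| ≤ y ^ |c1| := hξ.trans (Real.rpow_le_rpow_of_exponent_le hy1 (le_abs_self c1))
  have h1c : 1 ≤ y ^ |c| := Real.one_le_rpow hy1 (abs_nonneg _)
  have h1c1 : 1 ≤ y ^ |c1| := Real.one_le_rpow hy1 (abs_nonneg _)
  have hE : y ^ (|c| + |c1| + 1) = y ^ |c| * y ^ |c1| * y := by
    rw [Real.rpow_add hy0, Real.rpow_add hy0, Real.rpow_one]
  rw [hE]
  refine nearAlg_of_rat r ξ _ _ ?_ ?_ ?_
  · calc (r.den : ℝ) ≤ y ^ |c| * 1 * 1 := by linarith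
      _ ≤ y ^ |c| * y ^ |c1| * y := by gcongr
  · have h1 : |(r : ℝ)| ≤ y ^ |c1| + 1 := by
      have h2 : |(r : ℝ)| ≤ |ξ| + |ξ - r| := by
        have := abs_sub_abs_le_abs_sub (r : ℝ) ξ
        rw [abs_sub_comm] at this
        linarith
      have h3 : |ξ - r| ≤ 1 := by
        rw [hrr]
        refine h.trans (Real.rpow_le_one_of_one_le_of_nonpos hy1 ?_)
        have := abs_nonneg c
        linarith
      linarith
    have h2 : |(r.num : ℝ)| = |(r : ℝ)| * r.den := by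
      have h5 : (r : ℝ) = r.num / r.den := by exact_mod_cast (Rat.num_div_den r).symm
      have h6 : (0 : ℝ) < r.den := by linarith
      rw [h5, abs_div, abs_of_pos h6]
      field_simp
    rw [h2]
    calc |(r : ℝ)| * r.den ≤ (y ^ |c1| + 1) * y ^ |c| :=
          mul_le_mul h1 (hdenr.trans hqc') (by linarith) (by positivity)
      _ ≤ (y ^ |c1| * 2) * y ^ |c| := by gcongr; linarith
      _ ≤ (y ^ |c1| * y) * y ^ |c| := by gcongr
      _ = _ := by ring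
  · rw [hrr]
    calc (r.den : ℝ) * |ξ - p / q| ≤ y ^ |c| * y ^ (-(w + |c|)) :=
          mul_le_mul (hdenr.trans hqc') h (abs_nonneg _) (by positivity)
      _ = y ^ (-w) := by
          rw [← Real.rpow_add hy0]
          congr 1
          ring

/-- All three statements for a fixed irrational exponent. -/
theorem three {θ : ℝ} (hθ : Irrational θ) (ε : ℝ) (hε : 0 < ε) :
    (∀ (d : ℕ) (c : ℝ), ∃ w C : ℝ, ∀ X : ℕ, 1 ≤ X → ∀ S : Finset ℕ,
      (∀ n ∈ S, 1 ≤ n ∧ n ≤ X ∧ NearAlg d ((n : ℝ) ^ c) ((n : ℝ) ^ (-w)) ((n : ℝ) ^ θ)) →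
      (S.card : ℝ) ≤ C * (X : ℝ) ^ ε) ∧
    (∀ c : ℝ, ∃ w C : ℝ, ∀ X : ℕ, 1 ≤ X → ∀ S : Finset ℕ,
      (∀ n ∈ S, 1 ≤ n ∧ n ≤ X ∧ ∃ (p : ℤ) (q : ℕ), 1 ≤ q ∧ (q : ℝ) ≤ (n : ℝ) ^ c ∧
        |(n : ℝ) ^ θ - (p : ℝ) / (q : ℝ)| ≤ (n : ℝ) ^ (-w)) → (S.card : ℝ) ≤ C * (X : ℝ) ^ ε) ∧
    (∀ (d : ℕ) (c : ℝ), ∃ w C : ℝ, ∀ X : ℕ, 1 ≤ X → ∀ S : Finset ℚ,
      (∀ r ∈ S, Ht X r ∧ NearAlg d ((X : ℝ) ^ c) ((X : ℝ) ^ (-w)) ((r : ℝ) ^ θ)) →
        (S.card : ℝ) ≤ C * (X : ℝ) ^ ε) := by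
  classical
  have up : ∀ {d : ℕ} {H η ξ : ℝ}, NearAlg d H η ξ → NearAlg (d + 1) H η ξ := by
    rintro d H η ξ ⟨Q, h1, h2, h3, h4, h5⟩
    exact ⟨Q, h1, h2, h3.trans (Nat.le_succ d), h4, h5⟩
  refine ⟨fun d c => ?_, fun c => ?_, fun d c => ?_⟩
  · obtain ⟨w, C, _, _, h⟩ := count_int hθ (d + 1) (by omega) c ε hε
    refine ⟨w, C, fun X hX S hS => h X hX S fun n hn => ?_⟩
    obtain ⟨h1, h2, h3⟩ := hS n hn
    exact ⟨h1, h2, up h3⟩
  · obtain ⟨w, C, hw, hC, h⟩ := count_int hθ 1 le_rfl (|c| + |(|θ|)| + 1) ε hε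
    refine ⟨w + |c|, C + 1, fun X hX S hS => ?_⟩
    have hXr : (1 : ℝ) ≤ X := by exact_mod_cast hX
    have h1 := h X hX (S.erase 1) fun n hn => by
      obtain ⟨hn1, hnS⟩ := Finset.mem_erase.1 hn
      obtain ⟨ha, hb, p, q, hq, hqc, hpq⟩ := hS n hnS
      have hn2 : (2 : ℝ) ≤ n := by
        have : 2 ≤ n := by omega
        exact_mod_cast this
      refine ⟨ha, hb, nearAlg_of_close hn2 p q hq hqc ?_ hw hpq⟩
      rw [abs_of_pos (Real.rpow_pos_of_pos (by linarith) _)]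
      exact Real.rpow_le_rpow_of_exponent_le (by linarith) (le_abs_self θ)
    have h2 : S.card ≤ (S.erase 1).card + 1 := by
      have := Finset.pred_card_le_card_erase (s := S) (a := 1)
      omega
    have h3 : (S.card : ℝ) ≤ (S.erase 1).card + 1 := by exact_mod_cast h2
    have h4 : 1 ≤ (X : ℝ) ^ ε := Real.one_le_rpow hXr hε.le
    linarith
  · obtain ⟨w, C, _, _, h⟩ := count_irr hθ (d + 1) (by omega) |c| ε hε
    refine ⟨w, C, fun X hX S hS => ?_⟩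
    have hXr : (1 : ℝ) ≤ X := by exact_mod_cast hX
    refine h X hX 1 ?_ ?_ S fun r hr => ?_
    · rw [abs_one]
      exact Real.rpow_le_one_of_one_le_of_nonpos hXr (by simp)
    · rw [abs_one]
      exact Real.one_le_rpow hXr (abs_nonneg _)
    · obtain ⟨h1, h2⟩ := hS r hr
      refine ⟨h1.1, h1.2.1, h1.2.2, ?_⟩
      rw [one_mul]
      exact (up h2).mono (Real.rpow_le_rpow_of_exponent_le hXr (le_abs_self c)) le_rfl

lemma ncard_le {α : Type} {P : α → Prop} {B : ℝ} (hB : 0 ≤ B)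
    (h : ∀ S : Finset α, (∀ n ∈ S, P n) → (S.card : ℝ) ≤ B) :
    (({n : α | P n}.ncard : ℕ) : ℝ) ≤ B := by
  by_cases hfin : {n : α | P n}.Finite
  · rw [Set.ncard_eq_toFinset_card _ hfin]
    exact h _ fun n hn => (hfin.mem_toFinset.1 hn)
  · rw [Set.Infinite.ncard hfin]
    simpa using hB

end Pool.Agent.X142.DN
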